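import Pool.Agent.TK4.Chk

/-!
# Bit lemmas for the checker
-/

open Finset
namespace Pool.Agent.TwoDens.T4

/-- the indices below `m` in the mask `p` -/
def msk (p m : ℕ) : Finset ℕ := (Finset.range m).filter (fun i => Nat.testBit p i = true)

theorem mem_msk {p m i : ℕ} : i ∈ msk p m ↔ i < m ∧ Nat.testBit p i = true := by
  simp [msk]

theorem msk_zero (p : ℕ) : msk p 0 = ∅ := by simp [msk]

theorem msk_succ_pos {p m : ℕ} (h : Nat.testBit p m = true) : msk p (m + 1) = insert m (msk p m) := by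
  ext i
  rw [mem_insert, mem_msk, mem_msk]
  constructor
  · rintro ⟨h1, h2⟩
    by_cases h3 : i = m
    · exact Or.inl h3
    · exact Or.inr ⟨by omega, h2⟩
  · rintro (rfl | ⟨h1, h2⟩)
    · exact ⟨by omega, h⟩
    · exact ⟨by omega, h2⟩

theorem msk_succ_neg {p m : ℕ} (h : ¬ Nat.testBit p m = true) : msk p (m + 1) = msk p m := by
  ext i
  rw [mem_msk, mem_msk]
  constructor
  · rintro ⟨h1, h2⟩
    have : i ≠ m := fun h' => h (h' ▸ h2)
    exact ⟨by omega, h2⟩
  · rintro ⟨h1, h2⟩
    exact ⟨by omega, h2⟩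

theorem pc_eq (p m : ℕ) : pc p m = (msk p m).card := by
  induction m with
  | zero => simp [pc, msk_zero]
  | succ m ih =>
    rw [pc]
    split_ifs with h
    · rw [msk_succ_pos h, card_insert_of_notMem (by rw [mem_msk]; omega), ih]
    · rw [msk_succ_neg h, ih]

theorem sm_eq (p : ℕ) (g : ℕ → ℕ) (m : ℕ) : sm p g m = ∑ i ∈ msk p m, g i := by
  induction m with
  | zero => simp [sm, msk_zero]
  | succ m ih =>
    rw [sm]
    split_ifs with h
    · rw [msk_succ_pos h, sum_insert (by rw [mem_msk]; omega), ih, Nat.add_comm]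
    · rw [msk_succ_neg h, ih]

theorem al_iff (p : ℕ) (q : ℕ → Bool) (m : ℕ) : al p q m = true ↔ ∀ i ∈ msk p m, q i = true := by
  induction m with
  | zero => simp [al, msk_zero]
  | succ m ih =>
    rw [al]
    split_ifs with h
    · rw [msk_succ_pos h, Bool.and_eq_true, ih]
      simp only [mem_insert, forall_eq_or_imp]
    · rw [msk_succ_neg h, ih]

theorem fn_eq {α : Type} (x : ℕ) (k : ℕ → α) : fn x k = k x := by
  cases x <;> rfl

theorem testBit_row (M i j : ℕ) :
    Nat.testBit (row M i) j = (decide (j < 32) && bt M i j) := by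
  have h : row M i = (M >>> (32 * i)) % 2 ^ 32 := rfl
  rw [h, Nat.testBit_mod_two_pow, Nat.testBit_shiftRight]
  rfl

theorem testBit_ur {A p m j : ℕ} :
    Nat.testBit (ur A p m) j = true ↔ ∃ i ∈ msk p m, Nat.testBit (row A i) j = true := by
  induction m with
  | zero => simp [ur, msk_zero]
  | succ m ih =>
    rw [ur]
    split_ifs with h
    · rw [msk_succ_pos h, Nat.testBit_or, Bool.or_eq_true, ih]
      simp only [mem_insert, exists_eq_or_imp]
      exact or_comm
    · rw [msk_succ_neg h, ih]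

theorem idx {i j u v : ℕ} (hj : j < 32) (hv : v < 32) (h : 32 * u + v = 32 * i + j) :
    i = u ∧ j = v := by omega

theorem bt_or (M N i j : ℕ) : bt (M ||| N) i j = (bt M i j || bt N i j) := by
  unfold bt; rw [Nat.testBit_or]

theorem bt_one {a i j : ℕ} : bt (1 <<< a) i j = true ↔ a = 32 * i + j := by
  unfold bt
  rw [Nat.one_shiftLeft, Nat.testBit_two_pow]
  simp

theorem bt_sy {i j u v : ℕ} (hj : j < 32) (hu : u < 32) (hv : v < 32) :
    bt (sy u v) i j = true ↔ (i = u ∧ j = v) ∨ (i = v ∧ j = u) := by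
  unfold sy
  rw [bt_or, Bool.or_eq_true, bt_one, bt_one]
  constructor
  · rintro (h | h)
    · exact Or.inl (idx hj hv h)
    · exact Or.inr (idx hj hu h)
  · rintro (⟨h1, h2⟩ | ⟨h1, h2⟩)
    · exact Or.inl (by rw [h1, h2])
    · exact Or.inr (by rw [h1, h2])

theorem testBit_nbr {s : St} {i j : ℕ} :
    Nat.testBit (s.nbr i) j = true ↔ j < 32 ∧ bt s.A i j = true ∧ Nat.testBit s.D j = true := by
  unfold St.nbr
  rw [Nat.testBit_and, Bool.and_eq_true, testBit_row, Bool.and_eq_true, decide_eq_true_eq]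
  tauto

theorem dg_eq (s : St) (i : ℕ) : s.dg i = (msk (s.nbr i) s.n).card := by
  unfold St.dg; rw [fn_eq, pc_eq]

/-- lower bounds -/
theorem loA_iff {k L i c : ℕ} : ∀ t, (loA k L i t ≤ c ↔
    k ≤ c ∧ ∀ d, k < d → d ≤ k + t → bt L i d = true → d ≤ c) := by
  intro t
  induction t with
  | zero =>
    rw [loA]
    constructor
    · intro h
      exact ⟨h, fun d h1 h2 => by omega⟩
    · exact fun h => h.1
  | succ t ih =>
    rw [loA]
    split_ifs with h
    · constructor
      · intro h1
        exact ⟨by omega, fun d h2 h3 _ => by omega⟩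
      · intro h1
        exact h1.2 _ (by omega) (by omega) h
    · rw [ih]
      constructor
      · rintro ⟨h1, h2⟩
        refine ⟨h1, fun d h3 h4 h5 => ?_⟩
        by_cases h6 : d = k + t + 1
        · exact (h (h6 ▸ h5)).elim
        · exact h2 d h3 (by omega) h5
      · rintro ⟨h1, h2⟩
        exact ⟨h1, fun d h3 h4 h5 => h2 d h3 (by omega) h5⟩

/-- upper bounds -/
theorem hiA_iff {k H i c : ℕ} : ∀ t, t + 1 ≤ 2 * k - 2 → (c ≤ hiA k H i t ↔
    c ≤ 2 * k - 2 ∧ ∀ d, d < 2 * k - 2 → 2 * k - 2 ≤ d + t → bt H i d = true → c ≤ d) := by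
  intro t
  induction t with
  | zero =>
    intro _
    rw [hiA]
    constructor
    · intro h
      exact ⟨h, fun d h1 h2 => by omega⟩
    · exact fun h => h.1
  | succ t ih =>
    intro ht
    rw [hiA]
    split_ifs with h
    · constructor
      · intro h1
        exact ⟨by omega, fun d h2 h3 _ => by omega⟩
      · intro h1
        exact h1.2 _ (by omega) (by omega) h
    · rw [ih (by omega)]
      constructor
      · rintro ⟨h1, h2⟩
        refine ⟨h1, fun d h3 h4 h5 => ?_⟩
        by_cases h6 : d = 2 * k - 2 - (t + 1)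
        · exact (h (h6 ▸ h5)).elim
        · exact h2 d h3 (by omega) h5
      · rintro ⟨h1, h2⟩
        exact ⟨h1, fun d h3 h4 h5 => h2 d h3 (by omega) h5⟩

end Pool.Agent.TwoDens.T4
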