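import Mathlib

/-!
# A checker for local case analyses (definitions)

A state is a partial description of an induced piece of the graph: vertices `f i`, `i` alive.
`A`, `B` are bit matrices (bit `32 i + j`) of known adjacencies and non-adjacencies, `L`, `H` bit
matrices of known lower and upper bounds of degrees (bit `32 i + d`).
-/

set_option autoImplicit false

namespace Pool.Agent.TwoDens.T4

structure St where
  D : ℕ
  n : ℕ
  A : ℕ
  B : ℕ
  L : ℕ
  H : ℕ

/-- force the evaluation of a natural number -/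
def fn {α : Type} (x : ℕ) (k : ℕ → α) : α :=
  match x with
  | 0 => k 0
  | m + 1 => k (m + 1)

/-- entry of a bit matrix -/
def bt (M i j : ℕ) : Bool := Nat.testBit M (32 * i + j)

/-- row of a bit matrix -/
def row (M i : ℕ) : ℕ := (M >>> (32 * i)) % 4294967296

/-- the symmetric matrix with the two entries `(u, v)`, `(v, u)` -/
def sy (u v : ℕ) : ℕ := (1 <<< (32 * u + v)) ||| (1 <<< (32 * v + u))

/-- sum of `g i` over `i < m` in the mask `p` -/
def sm (p : ℕ) (g : ℕ → ℕ) : ℕ → ℕ
  | 0 => 0
  | m + 1 => if Nat.testBit p m then sm p g m + g m else sm p g m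

/-- all `i < m` in the mask `p` satisfy `q` -/
def al (p : ℕ) (q : ℕ → Bool) : ℕ → Bool
  | 0 => true
  | m + 1 => if Nat.testBit p m then (q m && al p q m) else al p q m

/-- number of `i < m` in the mask `p` -/
def pc (p : ℕ) : ℕ → ℕ
  | 0 => 0
  | m + 1 => if Nat.testBit p m then pc p m + 1 else pc p m

/-- union of the rows of `A` over the mask `p` -/
def ur (A p : ℕ) : ℕ → ℕ
  | 0 => 0
  | m + 1 => if Nat.testBit p m then (ur A p m ||| row A m) else ur A p m

/-- known lower bound of the degree (`k ≤ · ≤ 2 k - 2`) -/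
def loA (k L i : ℕ) : ℕ → ℕ
  | 0 => k
  | t + 1 => if bt L i (k + t + 1) then k + t + 1 else loA k L i t

/-- known upper bound of the degree -/
def hiA (k H i : ℕ) : ℕ → ℕ
  | 0 => 2 * k - 2
  | t + 1 => if bt H i (2 * k - 2 - (t + 1)) then 2 * k - 2 - (t + 1) else hiA k H i t

def St.lo (k : ℕ) (s : St) (i : ℕ) : ℕ := loA k s.L i (k - 2)
def St.hi (k : ℕ) (s : St) (i : ℕ) : ℕ := hiA k s.H i (k - 2)

/-- known neighbours of `i` -/
def St.nbr (s : St) (i : ℕ) : ℕ := row s.A i &&& s.D
/-- number of known neighbours of `i` -/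
def St.dg (s : St) (i : ℕ) : ℕ := fn (s.nbr i) fun m => pc m s.n
/-- all neighbours of `i` are known -/
def St.cl (k : ℕ) (s : St) (i : ℕ) : Bool := Nat.beq (s.dg i) (s.hi k i)

/-- the contribution of the vertex `w` to the lower bound of `2 Σ deg - e2` over `W`, `c = |W|` -/
def St.tw (k : ℕ) (s : St) (W c w : ℕ) : ℕ :=
  fn (s.dg w) fun d => fn (max (s.lo k w) d) fun l =>
    fn (pc (s.nbr w &&& W) s.n) fun i => fn (pc ((row s.B w ||| (1 <<< w)) &&& W) s.n) fun b =>
      max (l + (d - i)) (2 * l + b - c)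

/-- certificates -/
inductive Cert where
  | kF (F : ℕ) : Cert
  | kI (I : ℕ) : Cert
  | kP (u w : ℕ) : Cert
  | kH (u : ℕ) : Cert
  | sb (j p : ℕ) : Cert
  | ad (u v : ℕ) (c d : Cert) : Cert
  | dg (v d : ℕ) (c e : Cert) : Cert
  | nw (v K : ℕ) (c : Cert) : Cert
  | fl (v : ℕ) (c : Cert) : Cert

/-- too many edges inside `F` -/
def chF (k : ℕ) (s : St) (F : ℕ) : Bool :=
  al F (fun i => Nat.testBit s.D i) s.n &&
  (fn (pc F s.n) fun c => Nat.ble 3 c &&
    Nat.blt ((k + 1) * c) (sm F (fun i => pc (s.nbr i &&& F) s.n) s.n + (2 * k + 1)))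

/-- the independent set `I` violates the basic inequality; `w2` is the minimal size of a set with
the closed neighbourhoods of two nonadjacent vertices -/
def chI (k w2 : ℕ) (s : St) (I : ℕ) : Bool :=
  al I (fun i => Nat.testBit s.D i && s.cl k i && Nat.beq (s.nbr i &&& I) 0) s.n &&
  (fn ((ur s.A I s.n ||| I) &&& s.D) fun W => fn (pc W s.n) fun c => fn (pc I s.n) fun j =>
    Nat.ble 1 j && ((Nat.beq j 2 && Nat.blt c w2) ||
      Nat.blt ((4 * k - 2) * c) (sm W (fun w => s.tw k W c w) s.n + (3 * k * k + 2 - 3 * k) * j + 2) ||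
      (Nat.ble 3 c && Nat.blt ((4 * k - 2) * c + (k + 1) * c)
        (sm W (fun w => 2 * max (s.lo k w) (s.dg w)) s.n +
          (3 * k * k + 2 - 3 * k) * j + 2 + (2 * k + 1)))))

/-- the nonadjacent vertices `u`, `w` have too many common neighbours -/
def chP (k w2 : ℕ) (s : St) (u w : ℕ) : Bool :=
  !(Nat.beq u w) && Nat.testBit s.D u && Nat.testBit s.D w && bt s.B u w &&
    Nat.blt (s.hi k u + s.hi k w + 2) (w2 + pc (s.nbr u &&& s.nbr w) s.n)

/-- the degree of `u` is impossible -/
def chH (k : ℕ) (s : St) (u : ℕ) : Bool :=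
  Nat.testBit s.D u && Nat.blt (s.hi k u) (max (s.lo k u) (s.dg u))

/-- image of `i` under the map coded by `p` -/
def im (p i : ℕ) : ℕ := (p >>> (5 * i)) % 32

/-- the state `t` maps to `s` by `p` -/
def chS (k : ℕ) (t s : St) (p : ℕ) : Bool :=
  Nat.ble t.n 32 && Nat.beq (t.D >>> t.n) 0 &&
  al t.D (fun i => Nat.testBit s.D (im p i) &&
    Nat.ble (t.lo k i) (max (s.lo k (im p i)) (s.dg (im p i))) &&
    Nat.ble (s.hi k (im p i)) (t.hi k i) &&
    al t.D (fun j => (Nat.beq i j || !(Nat.beq (im p i) (im p j))) &&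
      (!(bt t.A i j) || bt s.A (im p i) (im p j)) &&
      (!(bt t.B i j) || bt s.B (im p i) (im p j))) t.n) t.n

/-- the checker -/
def check (k w2 : ℕ) (env : List St) : Cert → St → Bool
  | .kF F, s => chF k s F
  | .kI I, s => chI k w2 s I
  | .kP u w, s => chP k w2 s u w
  | .kH u, s => chH k s u
  | .sb j p, s => match env[j]? with
    | none => false
    | some t => chS k t s p
  | .ad u v c d, s => !(Nat.beq u v) && Nat.testBit s.D u && Nat.testBit s.D v &&
      (fn (s.A ||| sy u v) fun A' => check k w2 env c { s with A := A' }) &&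
      (fn (s.B ||| sy u v) fun B' => check k w2 env d { s with B := B' })
  | .dg v d c e, s => Nat.testBit s.D v && Nat.blt d 31 &&
      (fn (s.H ||| (1 <<< (32 * v + d))) fun H' => check k w2 env c { s with H := H' }) &&
      (fn (s.L ||| (1 <<< (32 * v + (d + 1)))) fun L' => check k w2 env e { s with L := L' })
  | .nw v K c, s =>
      (fn (s.D &&& K) fun D' => Nat.testBit D' v && Nat.blt s.n 32 && Nat.blt v s.n &&
        al D' (fun j => Nat.beq j v || bt s.A v j || bt s.B v j) s.n &&
        Nat.blt (pc (row s.A v &&& D') s.n) (s.lo k v) &&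
        Nat.beq (s.lo k s.n) k && Nat.beq (s.hi k s.n) (2 * k - 2) &&
        al D' (fun j => !(bt s.A s.n j) && !(bt s.A j s.n) && !(bt s.B s.n j) && !(bt s.B j s.n)) s.n &&
        !(bt s.A s.n s.n) &&
        (fn (s.A ||| sy v s.n) fun A' =>
          fn (D' ||| (1 <<< s.n)) fun D'' => fn (s.n + 1) fun n' =>
            check k w2 env c { s with D := D'', n := n', A := A' }))
  | .fl v c, s => Nat.testBit s.D v && s.cl k v &&
      (fn (fr s v s.n) fun B' => check k w2 env c { s with B := B' })
where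
  /-- `B` together with the non-adjacencies of the closed vertex `v` -/
  fr (s : St) (v : ℕ) : ℕ → ℕ
    | 0 => s.B
    | m + 1 => if Nat.testBit s.D m && !(bt s.A v m) && !(Nat.beq v m) then
        (fr s v m ||| sy v m) else fr s v m

/-- process a list of lemmas -/
def checkAll (k w2 : ℕ) : List St → List (St × Cert) → Bool
  | _, [] => true
  | env, (s, c) :: l => check k w2 env c s && checkAll k w2 (env ++ [s]) l

end Pool.Agent.TwoDens.T4
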