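import Pool.Agent.TK4.Fst

/-!
# The fast checker: rules and soundness
-/

open Finset

namespace Pool.Agent.TwoDens.T4

open Pool.Agent.TwoDens Pool.Agent.TwoDens.RK Pool.Agent.TwoDens.DD

noncomputable section

/-- number of known neighbours -/
def dg' (D A i : ℕ) : ℕ := pp (Nat.land (rr A i) D)

/-- lower bound of twice the degree minus the degree inside `W` -/
def tw' (k D A B L W c w : ℕ) : ℕ :=
  fc (Nat.land (rr A w) D) fun nb => fc (pp nb) fun d => fc (mx (lo' k L w) d) fun l =>
    fc (pp (Nat.land nb W)) fun i => fc (pp (Nat.land (Nat.lor (rr B w) (bi w)) W)) fun b =>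
      mx (Nat.add l (Nat.sub d i)) (Nat.sub (Nat.add (Nat.mul (nat_lit 2) l) b) c)

def fF (k D A F : ℕ) : Bool :=
  an (Nat.beq (Nat.land F D) F) (fc (pp F) fun c => an (Nat.ble (nat_lit 3) c)
    (Nat.ble (Nat.succ (Nat.mul (Nat.succ k) c))
      (ls (fun i => pp (Nat.land (rr A i) F)) (nat_lit 32) F
        (Nat.succ (Nat.mul (nat_lit 2) k)))))

/-- `3 k ^ 2 - 3 k + 2` -/
def kp (k : ℕ) : ℕ :=
  Nat.sub (Nat.add (Nat.mul (Nat.mul (nat_lit 3) k) k) (nat_lit 2)) (Nat.mul (nat_lit 3) k)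

/-- `4 k - 2` -/
def c4 (k : ℕ) : ℕ := Nat.sub (Nat.mul (nat_lit 4) k) (nat_lit 2)

def fI (k w2 D A B L H I : ℕ) : Bool :=
  an (Nat.beq (Nat.land I D) I) (an
    (la (fun i => an (Nat.beq (dg' D A i) (hi' k H i)) (Nat.beq (Nat.land (rr A i) I) (nat_lit 0)))
      (nat_lit 32) I)
    (fc (Nat.land (Nat.lor (lu (rr A) (nat_lit 32) I (nat_lit 0)) I) D) fun W =>
      fc (pp W) fun c => fc (pp I) fun j => an (Nat.ble (nat_lit 1) j)
        (oo (an (Nat.beq j (nat_lit 2)) (Nat.ble (Nat.succ c) w2))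
          (fc (Nat.mul (c4 k) c) fun x => fc (Nat.add (Nat.mul (kp k) j) (nat_lit 2)) fun y =>
          (oo (Nat.ble (Nat.succ x) (ls (tw' k D A B L W c) (nat_lit 32) W y))
            (an (Nat.ble (nat_lit 3) c)
              (Nat.ble (Nat.succ (Nat.add x (Nat.mul (Nat.succ k) c)))
                (ls (fun w => Nat.mul (nat_lit 2) (mx (lo' k L w) (dg' D A w))) (nat_lit 32) W
                  (Nat.add y (Nat.succ (Nat.mul (nat_lit 2) k)))))))))))

def fP (k w2 D A B H u w : ℕ) : Bool :=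
  an (Nat.ble (Nat.succ (Nat.add (Nat.add (hi' k H u) (hi' k H w)) (nat_lit 2)))
      (Nat.add w2 (pp (Nat.land (Nat.land (rr A u) D) (rr A w)))))
    (an (tb D u) (an (tb D w) (an (tb B (Nat.add (Nat.mul (nat_lit 32) u) w))
      (ite' (Nat.beq u w) false true))))

def fH (k D A L H u : ℕ) : Bool :=
  an (tb D u) (Nat.ble (Nat.succ (hi' k H u)) (mx (lo' k L u) (dg' D A u)))

/-- image of `i` under the map coded by `p` -/
def im' (p i : ℕ) : ℕ := Nat.mod (Nat.shiftRight p (Nat.mul (nat_lit 5) i)) (nat_lit 32)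

def fS (k D A B L H p : ℕ) (t : St) : Bool :=
  St.rec (motive := fun _ => Bool) (fun tD tn tA tB tL tH =>
    an (Nat.ble tn (nat_lit 32)) (an (Nat.beq (Nat.shiftRight tD tn) (nat_lit 0))
      (an (Nat.beq (pp (lv (fun i => bi (im' p i)) (nat_lit 32) tD (nat_lit 0))) (pp tD))
        (la (fun i => fc (im' p i) fun a => an (tb D a)
          (an (Nat.ble (lo' k tL i) (mx (lo' k L a) (dg' D A a)))
            (an (Nat.ble (hi' k H a) (hi' k tH i))
              (fc (rr A a) fun ra => fc (rr B a) fun rb =>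
                an (la (fun j => tb ra (im' p j)) (nat_lit 32) (Nat.land (rr tA i) tD))
                  (la (fun j => tb rb (im' p j)) (nat_lit 32) (Nat.land (rr tB i) tD))))))
          (nat_lit 32) tD)))) t

/-- element of a list -/
def nth (l : List St) (j : ℕ) (g : St → Bool) : Bool :=
  List.rec (motive := fun _ => ℕ → Bool) (fun _ => false)
    (fun s _ ih j => Nat.rec (motive := fun _ => Bool) (g s) (fun m _ => ih m) j) l j

/-- the mask of the new non-neighbours of a closed vertex -/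
def nm (D A B v : ℕ) : ℕ :=
  Nat.land (Nat.xor (nat_lit 4294967295) (Nat.lor (Nat.lor (rr A v) (rr B v)) (bi v))) D

/-- column `n` -/
def cm (n : ℕ) : ℕ := Nat.shiftLeft (nat_lit 41855804977958881238216860293671333616475814839523861211015363775367857790754367812411590743534994955327154331653972084008334635948471552329445020986934924815945052132199177846429263578652254701150892687317891618273230805205109921907778604060552511649183701335864607145965996450848344889395800702977) n

/-- the checker -/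
def core (k w2 : ℕ) (env : List St) (c : Cert) : ℕ → ℕ → ℕ → ℕ → ℕ → ℕ → Bool :=
  Cert.rec (motive := fun _ => ℕ → ℕ → ℕ → ℕ → ℕ → ℕ → Bool)
    (fun F D _ A _ _ _ => fF k D A F)
    (fun I D _ A B L H => fI k w2 D A B L H I)
    (fun u w D _ A B _ H => fP k w2 D A B H u w)
    (fun u D _ A _ L H => fH k D A L H u)
    (fun j p D _ A B L H => nth env j (fS k D A B L H p))
    (fun u v _ _ ihc ihd D n A B L H => an (tb D u) (an (tb D v)
      (an (fc (Nat.lor A (sy' u v)) fun A' => ihc D n A' B L H)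
        (fc (Nat.lor B (sy' u v)) fun B' => ihd D n A B' L H))))
    (fun v d _ _ ihc ihe D n A B L H => an (tb D v) (an (Nat.ble (Nat.succ d) (nat_lit 31))
      (an (fc (Nat.lor H (bi (Nat.add (Nat.mul (nat_lit 32) v) d))) fun H' => ihc D n A B L H')
        (fc (Nat.lor L (bi (Nat.add (Nat.mul (nat_lit 32) v) (Nat.succ d)))) fun L' =>
          ihe D n A B L' H))))
    (fun v K _ ihc D n A B L H => fc (Nat.land D K) fun D' => an (tb D' v)
      (an (Nat.ble (Nat.succ n) (nat_lit 32))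
      (an (Nat.beq (Nat.land (Nat.lor (Nat.lor (rr A v) (rr B v)) (bi v)) D') D')
      (an (Nat.ble (Nat.succ (pp (Nat.land (rr A v) D'))) (lo' k L v))
      (an (Nat.beq (rr L n) (nat_lit 0)) (an (Nat.beq (rr H n) (nat_lit 0))
      (an (Nat.beq (rr A n) (nat_lit 0)) (an (Nat.beq (rr B n) (nat_lit 0))
      (an (Nat.beq (Nat.land A (cm n)) (nat_lit 0)) (an (Nat.beq (Nat.land B (cm n)) (nat_lit 0))
        (fc (Nat.lor A (sy' v n)) fun A' => fc (Nat.lor D' (bi n)) fun D'' =>
          fc (Nat.succ n) fun n' => ihc D'' n' A' B L H)))))))))))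
    (fun v _ ihc D n A B L H => an (tb D v) (an (Nat.beq (dg' D A v) (hi' k H v))
      (fc (lv (fun m => sy' v m) (nat_lit 32) (nm D A B v) B) fun B' => ihc D n A B' L H))) c

/-- the checker for a state -/
def chk (k w2 : ℕ) (env : List St) (c : Cert) (s : St) : Bool :=
  St.rec (motive := fun _ => Bool) (fun D n A B L H => core k w2 env c D n A B L H) s

end

/-! ### Soundness -/

theorem lo'_eq {k : ℕ} (hk' : k ≤ 16) (L i : ℕ) : lo' k L i = loA k L i (k - 2) := by
  apply le_antisymm (lo'_le k L i)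
  rw [loA_iff]
  unfold lo'
  rw [fc_eq, mx_eq]
  refine ⟨le_max_left _ _, fun d h1 h2 h3 => le_trans ?_ (le_max_right _ _)⟩
  set x := Nat.land (rr L i)
    (Nat.sub (bi (Nat.sub (Nat.mul (nat_lit 2) k) (nat_lit 1))) (nat_lit 1)) with hx
  have h4 : x = (row L i) &&& (2 ^ (2 * k - 1) - 1) := by
    rw [hx, bi_eq]; rfl
  have hd : d < 32 := by omega
  have h5 : Nat.testBit x d = true := by
    rw [h4, Nat.testBit_and, testBit_row, h3, Nat.testBit_two_pow_sub_one]
    have : d < 2 * k - 1 := by omega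
    simp [hd, this]
  by_contra hcon
  push Not at hcon
  have h6 : x < 2 ^ d := by
    have h0 : x ≠ 0 := by rintro h; rw [h] at h5; simp at h5
    exact (Nat.log2_lt h0).1 hcon
  rw [Nat.testBit_lt_two_pow h6] at h5
  cases h5

theorem ble_le {a b : ℕ} (h : Nat.ble a b = true) : a ≤ b := Nat.le_of_ble_eq_true h
theorem beq_eq' {a b : ℕ} (h : Nat.beq a b = true) : a = b := Nat.eq_of_beq_eq_true h

theorem row_lt (M i : ℕ) : row M i < 2 ^ 32 := Nat.mod_lt _ (by norm_num)

theorem sub_of_land {p q : ℕ} (h : Nat.beq (Nat.land p q) p = true) :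
    ∀ i, Nat.testBit p i = true → Nat.testBit q i = true := by
  intro i hi
  have h1 : p &&& q = p := beq_eq' h
  rw [← h1, Nat.testBit_and, Bool.and_eq_true] at hi
  exact hi.2

section
variable {V : Type*} [DecidableEq V]
variable {G : SimpleGraph V} [DecidableRel G.Adj] {k : ℕ} {X : Finset V} {f : ℕ → V}
variable {D n A B L H : ℕ}

theorem Sat.D_lt (S : Sat G k X f ⟨D, n, A, B, L, H⟩) : D < 2 ^ 32 := by
  apply Nat.lt_pow_two_of_testBit
  intro i hi
  rw [Bool.eq_false_iff]
  intro h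
  have := S.lt32 (i := i) h
  omega

theorem sub_lt {p : ℕ} (S : Sat G k X f ⟨D, n, A, B, L, H⟩)
    (hp : ∀ i, Nat.testBit p i = true → Nat.testBit D i = true) : p < 2 ^ 32 := by
  apply Nat.lt_pow_two_of_testBit
  intro i hi
  rw [Bool.eq_false_iff]
  intro h
  have := S.lt32 (i := i) (hp i h)
  omega

theorem Sat.msk_eq (S : Sat G k X f ⟨D, n, A, B, L, H⟩) {p : ℕ}
    (hp : ∀ i, Nat.testBit p i = true → Nat.testBit D i = true) : msk p n = msk p 32 := by
  ext i
  rw [mem_msk, mem_msk]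
  constructor
  · rintro ⟨h1, h2⟩
    exact ⟨S.lt32 (i := i) (hp i h2), h2⟩
  · rintro ⟨h1, h2⟩
    exact ⟨(S.mem i (hp i h2)).1, h2⟩

theorem Sat.pp_eq (S : Sat G k X f ⟨D, n, A, B, L, H⟩) {p : ℕ}
    (hp : ∀ i, Nat.testBit p i = true → Nat.testBit D i = true) : pp p = pc p n := by
  rw [T4.pp_eq (sub_lt S hp), pc_eq, S.msk_eq hp]

theorem land_left {p q : ℕ} : ∀ i, Nat.testBit (Nat.land p q) i = true →
    Nat.testBit p i = true := by
  intro i hi
  have h1 : Nat.testBit (p &&& q) i = true := hi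
  rw [Nat.testBit_and, Bool.and_eq_true] at h1
  exact h1.1

theorem land_right {p q : ℕ} : ∀ i, Nat.testBit (Nat.land p q) i = true →
    Nat.testBit q i = true := by
  intro i hi
  have h1 : Nat.testBit (p &&& q) i = true := hi
  rw [Nat.testBit_and, Bool.and_eq_true] at h1
  exact h1.2

theorem Sat.dg'_eq (S : Sat G k X f ⟨D, n, A, B, L, H⟩) (i : ℕ) :
    dg' D A i = St.dg ⟨D, n, A, B, L, H⟩ i := by
  unfold dg' St.dg
  rw [fn_eq, S.pp_eq land_right]
  rfl

theorem Sat.tw'_eq (hk' : k ≤ 16) (S : Sat G k X f ⟨D, n, A, B, L, H⟩) {W : ℕ}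
    (hW : ∀ i, Nat.testBit W i = true → Nat.testBit D i = true) (c w : ℕ) :
    tw' k D A B L W c w = St.tw k ⟨D, n, A, B, L, H⟩ W c w := by
  unfold tw' St.tw
  rw [fc_eq, fc_eq, fc_eq, fc_eq, fc_eq, fn_eq, fn_eq, fn_eq, fn_eq, mx_eq, mx_eq,
    S.pp_eq (fun i hi => hW i (land_right i hi)), S.pp_eq (fun i hi => hW i (land_right i hi)),
    S.pp_eq land_right, lo'_eq hk']
  have h1 : St.dg ⟨D, n, A, B, L, H⟩ w = pc (Nat.land (rr A w) D) n := by
    unfold St.dg
    rw [fn_eq]
    rfl
  rw [h1, bi_eq, ← Nat.one_shiftLeft]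
  rfl

theorem fF_sound {w2 : ℕ} (h : LH G k w2 X) (S : Sat G k X f ⟨D, n, A, B, L, H⟩) {F : ℕ}
    (hc : fF k D A F = true) : False := by
  unfold fF at hc
  rw [an_eq, Bool.and_eq_true, fc_eq, an_eq, Bool.and_eq_true] at hc
  obtain ⟨h1, h2, h3⟩ := hc
  have h1' := sub_of_land h1
  have h2' := ble_le h2
  have h3' := ble_le h3
  refine chF_sound h S (F := F) ?_
  unfold chF
  rw [Bool.and_eq_true, al_iff, fn_eq, Bool.and_eq_true]
  refine ⟨fun i hi => h1' i (mem_msk.1 hi).2, ?_, ?_⟩
  · rw [← S.pp_eq h1']; exact Nat.ble_eq_true_of_le h2'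
  · apply Nat.ble_eq_true_of_le
    change (k + 1) * pc F n + 1 ≤ sm F (fun i => pc (St.nbr ⟨D, n, A, B, L, H⟩ i &&& F) n) n +
      (2 * k + 1)
    rw [sm_eq, S.msk_eq h1']
    have h4 := ls_le (fun i => pp (Nat.land (rr A i) F)) 32 F (Nat.succ (Nat.mul 2 k))
      (sub_lt S h1')
    have h5 : ∀ i, pp (Nat.land (rr A i) F) = pc (St.nbr ⟨D, n, A, B, L, H⟩ i &&& F) n := by
      intro i
      rw [S.pp_eq (fun j hj => h1' j (land_right j hj))]
      congr 1
      apply Nat.eq_of_testBit_eq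
      intro j
      change Nat.testBit (row A i &&& F) j = Nat.testBit ((row A i &&& D) &&& F) j
      rw [Nat.testBit_and, Nat.testBit_and, Nat.testBit_and, Bool.eq_iff_iff]
      simp only [Bool.and_eq_true]
      constructor
      · rintro ⟨g1, g2⟩; exact ⟨⟨g1, h1' j g2⟩, g2⟩
      · rintro ⟨⟨g1, _⟩, g2⟩; exact ⟨g1, g2⟩
    simp only [h5] at h4 h3'
    have h6 : Nat.succ (Nat.mul (Nat.succ k) (pp F)) = (k + 1) * pp F + 1 := rfl
    have h7 : Nat.succ (Nat.mul 2 k) = 2 * k + 1 := rfl
    rw [h7] at h4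
    rw [h6] at h3'
    rw [← S.pp_eq h1']
    have h8 := h3'.trans h4
    omega

theorem fI_sound {w2 : ℕ} (h : LH G k w2 X) (S : Sat G k X f ⟨D, n, A, B, L, H⟩) {I : ℕ}
    (hc : fI k w2 D A B L H I = true) : False := by
  unfold fI at hc
  rw [an_eq, Bool.and_eq_true, an_eq, Bool.and_eq_true, fc_eq, fc_eq, fc_eq, an_eq,
    Bool.and_eq_true, oo_eq, Bool.or_eq_true, an_eq, Bool.and_eq_true, fc_eq, fc_eq, oo_eq,
    Bool.or_eq_true, an_eq, Bool.and_eq_true] at hc
  obtain ⟨h1, h2, h3, h4⟩ := hc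
  have hID := sub_of_land h1
  have hI : ∀ i, Nat.testBit I i = true → Nat.testBit D i = true ∧
      St.cl k ⟨D, n, A, B, L, H⟩ i = true ∧ row A i &&& I = 0 := by
    intro i hi
    have := la_sound _ _ _ h2 i hi
    rw [an_eq, Bool.and_eq_true] at this
    refine ⟨hID i hi, ?_, beq_eq' this.2⟩
    unfold St.cl
    rw [← S.dg'_eq i]
    have h5 : St.hi k ⟨D, n, A, B, L, H⟩ i = hi' k H i := (hi'_eq H i h.k4 h.k16).symm
    rw [h5]; exact this.1
  set W := Nat.land (Nat.lor (lu (rr A) (nat_lit 32) I (nat_lit 0)) I) D with hWdef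
  have hWD : ∀ i, Nat.testBit W i = true → Nat.testBit D i = true := by
    intro i hi; rw [hWdef] at hi; exact land_right i hi
  have hW : ∀ i ∈ msk W 32, Nat.testBit D i = true := fun i hi => hWD i (mem_msk.1 hi).2
  have hW2 : ∀ j, Nat.testBit W j = ((Nat.testBit (lu (rr A) 32 I 0) j || Nat.testBit I j) &&
      Nat.testBit D j) := by
    intro j
    have : W = ((lu (rr A) 32 I 0) ||| I) &&& D := hWdef
    rw [this, Nat.testBit_and, Nat.testBit_or]
  have hI32 : ∀ i, Nat.testBit I i = true → i < 32 := fun i hi => S.lt32 (i := i) (hID i hi)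
  have hIW : msk I 32 ⊆ msk W 32 := by
    intro i hi
    have h5 := mem_msk.1 hi
    rw [mem_msk, hW2, h5.2, hID i h5.2]
    exact ⟨h5.1, by simp⟩
  have hD : ∀ i ∈ msk I 32, Nat.testBit D i = true := fun i hi => hID i (mem_msk.1 hi).2
  have hJS : (msk I 32).image f ⊆ (msk W 32).image f := image_subset_image hIW
  have hind : G.IsIndepSet (((msk I 32).image f : Finset V) : Set V) := by
    intro x hx y hy _ hadj
    rw [Finset.mem_coe] at hx hy
    obtain ⟨i, hi, rfl⟩ := Finset.mem_image.1 hx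
    obtain ⟨j, hj, rfl⟩ := Finset.mem_image.1 hy
    have hi2 := hI i (mem_msk.1 hi).2
    have h5 := S.closed_adj hi2.1 hi2.2.1 (hD j hj) hadj
    have h7 := testBit_nbr.1 h5
    have h6 : Nat.testBit (row A i &&& I) j = true := by
      rw [Nat.testBit_and, (mem_msk.1 hj).2, testBit_row, h7.2.1]
      simp [h7.1]
    rw [hi2.2.2] at h6
    simp at h6
  have hnb : ∀ z ∈ (msk I 32).image f, nb G X z ⊆ (msk W 32).image f := by
    intro z hz
    obtain ⟨i, hi, rfl⟩ := Finset.mem_image.1 hz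
    have hi2 := hI i (mem_msk.1 hi).2
    rw [← S.closed hi2.1 hi2.2.1]
    refine image_subset_image fun j hj => ?_
    have h5 := (mem_msk.1 hj)
    have h6 := testBit_nbr.1 h5.2
    rw [mem_msk, hW2, h6.2.2]
    refine ⟨h6.1, ?_⟩
    have h7 : Nat.testBit (lu (rr A) 32 I 0) j = true := by
      apply lu_sound _ _ _ _ _ h6.1
      refine Or.inr ⟨i, (mem_msk.1 hi).2, ?_⟩
      rw [rr_eq, testBit_row, h6.2.1]
      simp [h6.1]
    rw [h7]; rfl
  have hcI : pp I = (msk I 32).card := T4.pp_eq (sub_lt S hID)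
  have hcW : pp W = (msk W 32).card := T4.pp_eq (sub_lt S hWD)
  have h3' : 1 ≤ pp I := ble_le h3
  have hne : ((msk I 32).image f).Nonempty := by
    rw [← card_pos, S.card hD]; omega
  have hind2 := h.ind _ _ (S.sub hW) hJS hne hind hnb
  have htwo := h.two _ _ (S.sub hW) hJS
  rw [S.card hD] at hind2 htwo
  rw [S.card hW] at hind2 htwo
  rw [← hcI, ← hcW] at hind2 htwo
  have hsum : ∑ v ∈ (msk W 32).image f, (nb G X v).card =
      ∑ i ∈ msk W 32, (nb G X (f i)).card := sum_image (S.injOn hW)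
  rw [hsum] at hind2
  have hkp : kp k = 3 * k * k + 2 - 3 * k := rfl
  have hc4 : c4 k = 4 * k - 2 := rfl
  rcases h4 with ⟨h5, h6⟩ | h5 | ⟨h5, h6⟩
  · have h5' : pp I = 2 := beq_eq' h5
    have h6' : pp W + 1 ≤ w2 := ble_le h6
    have := htwo h5' hind hnb
    omega
  · have h5' := ble_le h5
    have h8 := ls_le (tw' k D A B L W (pp W)) 32 W (Nat.add (Nat.mul (kp k) (pp I)) 2)
      (sub_lt S hWD)
    have h7 : ∑ i ∈ msk W 32, tw' k D A B L W (pp W) i + e2 G ((msk W 32).image f) ≤
        2 * ∑ i ∈ msk W 32, (nb G X (f i)).card := by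
      rw [S.e2 hW, ← sum_add_distrib, mul_sum]
      refine sum_le_sum fun i hi => ?_
      have h9 := S.msk_eq hWD
      rw [S.tw'_eq h.k16 hWD, hcW, ← h9]
      refine S.tw_le (W := W) (w := i) ?_ ?_
      · intro j hj
        exact hWD j (mem_msk.1 hj).2
      · change i ∈ msk W n
        rw [h9]; exact hi
    have h10 : Nat.succ (Nat.mul (c4 k) (pp W)) = (4 * k - 2) * pp W + 1 := rfl
    have h11 : Nat.add (Nat.mul (kp k) (pp I)) 2 = (3 * k * k + 2 - 3 * k) * pp I + 2 := rfl
    have h12 := h5'.trans h8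
    rw [h10, h11] at h12
    generalize (4 * k - 2) * pp W = a1 at *
    generalize (3 * k * k + 2 - 3 * k) * pp I = a2 at *
    omega
  · have h5' : 3 ≤ pp W := ble_le h5
    have h6' := ble_le h6
    have h8 := ls_le (fun w => Nat.mul 2 (mx (lo' k L w) (dg' D A w))) 32 W
      (Nat.add (Nat.add (Nat.mul (kp k) (pp I)) 2) (Nat.succ (Nat.mul 2 k))) (sub_lt S hWD)
    have h7 : ∑ i ∈ msk W 32, Nat.mul 2 (mx (lo' k L i) (dg' D A i)) ≤
        2 * ∑ i ∈ msk W 32, (nb G X (f i)).card := by
      rw [mul_sum]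
      refine sum_le_sum fun i hi => ?_
      rw [mx_eq, S.dg'_eq, lo'_eq h.k16]
      have := max_le (S.lo i (hW i hi)) (S.dg_le (hW i hi))
      exact Nat.mul_le_mul_left 2 this
    have h9 := h.sp _ (S.sub hW) (by rw [S.card hW, ← hcW]; exact h5')
    rw [S.card hW, ← hcW] at h9
    have h10 : Nat.succ (Nat.add (Nat.mul (c4 k) (pp W)) (Nat.mul (Nat.succ k) (pp W))) =
      (4 * k - 2) * pp W + (k + 1) * pp W + 1 := rfl
    have h11 : Nat.add (Nat.add (Nat.mul (kp k) (pp I)) 2) (Nat.succ (Nat.mul 2 k)) =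
      (3 * k * k + 2 - 3 * k) * pp I + 2 + (2 * k + 1) := rfl
    have h12 := h6'.trans h8
    rw [h10, h11] at h12
    generalize (4 * k - 2) * pp W = a1 at *
    generalize (3 * k * k + 2 - 3 * k) * pp I = a2 at *
    generalize (k + 1) * pp W = a3 at *
    omega

theorem fP_sound {w2 : ℕ} (h : LH G k w2 X) (S : Sat G k X f ⟨D, n, A, B, L, H⟩) {u w : ℕ}
    (hc : fP k w2 D A B H u w = true) : False := by
  unfold fP at hc
  rw [an_eq, Bool.and_eq_true, an_eq, Bool.and_eq_true, an_eq, Bool.and_eq_true, an_eq,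
    Bool.and_eq_true, tb_eq, tb_eq, tb_eq] at hc
  obtain ⟨h1, h2, h3, h4, h5⟩ := hc
  have h1' := ble_le h1
  refine chP_sound h S (u := u) (w := w) ?_
  unfold chP
  rw [Bool.and_eq_true, Bool.and_eq_true, Bool.and_eq_true, Bool.and_eq_true, Bool.not_eq_true']
  refine ⟨⟨⟨⟨?_, h2⟩, h3⟩, h4⟩, ?_⟩
  · cases hb : Nat.beq u w with
    | false => rfl
    | true => rw [hb] at h5; cases h5
  · apply Nat.ble_eq_true_of_le
    have h6 : pp (Nat.land (Nat.land (rr A u) D) (rr A w)) =
        pc (St.nbr ⟨D, n, A, B, L, H⟩ u &&& St.nbr ⟨D, n, A, B, L, H⟩ w) n := by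
      rw [S.pp_eq (fun i hi => land_right i (land_left i hi))]
      congr 1
      apply Nat.eq_of_testBit_eq
      intro j
      change Nat.testBit ((row A u &&& D) &&& row A w) j =
        Nat.testBit ((row A u &&& D) &&& (row A w &&& D)) j
      rw [Bool.eq_iff_iff]
      simp only [Nat.testBit_and, Bool.and_eq_true]
      tauto
    rw [h6, hi'_eq H u h.k4 h.k16, hi'_eq H w h.k4 h.k16] at h1'
    exact h1'

theorem fH_sound (hk4 : 4 ≤ k) (hk' : k ≤ 16) (S : Sat G k X f ⟨D, n, A, B, L, H⟩) {u : ℕ}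
    (hc : fH k D A L H u = true) : False := by
  unfold fH at hc
  rw [an_eq, Bool.and_eq_true, tb_eq, mx_eq, S.dg'_eq, lo'_eq hk', hi'_eq H u hk4 hk'] at hc
  obtain ⟨h1, h2⟩ := hc
  have h2' := ble_le h2
  have h3 := max_le (S.lo u h1) (S.dg_le h1)
  have h4 := S.hi u h1
  have h5 : St.lo k ⟨D, n, A, B, L, H⟩ u = loA k L u (k - 2) := rfl
  have h6 : St.hi k ⟨D, n, A, B, L, H⟩ u = hiA k H u (k - 2) := rfl
  rw [h5] at h3
  rw [h6] at h4
  omega

theorem im'_lt (p i : ℕ) : im' p i < 32 := Nat.mod_lt _ (by norm_num)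

theorem fS_sound {t : St} {p : ℕ} (hk4 : 4 ≤ k) (hk' : k ≤ 16)
    (S : Sat G k X f ⟨D, n, A, B, L, H⟩) (hc : fS k D A B L H p t = true) :
    Sat G k X (fun i => f (im' p i)) t := by
  obtain ⟨tD, tn, tA, tB, tL, tH⟩ := t
  unfold fS at hc
  change (an (Nat.ble tn (nat_lit 32)) _) = true at hc
  rw [an_eq, Bool.and_eq_true, an_eq, Bool.and_eq_true, an_eq, Bool.and_eq_true] at hc
  obtain ⟨h1, h2, h3, h4⟩ := hc
  have h1' : tn ≤ 32 := ble_le h1
  have h2' : tD >>> tn = 0 := beq_eq' h2
  have hlt : ∀ i, Nat.testBit tD i = true → i < tn := by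
    intro i hi
    by_contra hcon
    have h4 : Nat.testBit (tD >>> tn) (i - tn) = true := by
      rw [Nat.testBit_shiftRight]
      rwa [Nat.add_sub_cancel' (by omega)]
    rw [h2'] at h4
    simp at h4
  have htD : tD < 2 ^ 32 := by
    apply Nat.lt_pow_two_of_testBit
    intro i hi
    rw [Bool.eq_false_iff]
    intro h
    have := hlt i h
    omega
  set U := lv (fun i => bi (im' p i)) (nat_lit 32) tD (nat_lit 0) with hU
  have hUs : ∀ j, Nat.testBit U j = true → ∃ i, Nat.testBit tD i = true ∧ im' p i = j := by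
    intro j hj
    rcases lv_sound _ _ _ _ _ hj with h5 | ⟨i, h5, h6⟩
    · change Nat.testBit 0 j = true at h5; simp at h5
    · exact ⟨i, h5, (testBit_bi _ _).1 h6⟩
  have hUlt : U < 2 ^ 32 := by
    apply Nat.lt_pow_two_of_testBit
    intro i hi
    rw [Bool.eq_false_iff]
    intro h
    obtain ⟨j, _, h6⟩ := hUs i h
    have := im'_lt p j
    omega
  have hcard : (msk tD 32).card ≤ ((msk tD 32).image (im' p)).card := by
    have h5 : pp U = pp tD := beq_eq' h3
    rw [T4.pp_eq hUlt, T4.pp_eq htD] at h5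
    rw [← h5]
    refine card_le_card fun j hj => ?_
    obtain ⟨i, h6, h7⟩ := hUs j (mem_msk.1 hj).2
    exact Finset.mem_image.2 ⟨i, mem_msk.2 ⟨by have := hlt i h6; omega, h6⟩, h7⟩
  have hinj : Set.InjOn (im' p) (msk tD 32 : Set ℕ) :=
    card_image_iff.1 (le_antisymm card_image_le hcard)
  have hk : ∀ i, Nat.testBit tD i = true → Nat.testBit D (im' p i) = true ∧
      lo' k tL i ≤ max (lo' k L (im' p i)) (dg' D A (im' p i)) ∧
      hi' k H (im' p i) ≤ hi' k tH i ∧
      ∀ j, Nat.testBit tD j = true →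
        (bt tA i j = true → bt A (im' p i) (im' p j) = true) ∧
        (bt tB i j = true → bt B (im' p i) (im' p j) = true) := by
    intro i hi
    have h5 := la_sound _ _ _ h4 i hi
    rw [fc_eq, an_eq, Bool.and_eq_true, an_eq, Bool.and_eq_true, an_eq, Bool.and_eq_true,
      fc_eq, fc_eq, an_eq, Bool.and_eq_true, tb_eq, mx_eq] at h5
    obtain ⟨h6, h7, h8, h9, h10⟩ := h5
    refine ⟨h6, ble_le h7, ble_le h8, fun j hj => ⟨fun h11 => ?_, fun h11 => ?_⟩⟩
    · have h12 : Nat.testBit (Nat.land (rr tA i) tD) j = true := by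
        change Nat.testBit (row tA i &&& tD) j = true
        rw [Nat.testBit_and, hj, testBit_row, h11]
        have : j < 32 := by have := hlt j hj; omega
        simp [this]
      have h13 := la_sound _ _ _ h9 j h12
      rw [tb_eq, rr_eq, testBit_row, Bool.and_eq_true] at h13
      exact h13.2
    · have h12 : Nat.testBit (Nat.land (rr tB i) tD) j = true := by
        change Nat.testBit (row tB i &&& tD) j = true
        rw [Nat.testBit_and, hj, testBit_row, h11]
        have : j < 32 := by have := hlt j hj; omega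
        simp [this]
      have h13 := la_sound _ _ _ h10 j h12
      rw [tb_eq, rr_eq, testBit_row, Bool.and_eq_true] at h13
      exact h13.2
  refine ⟨h1', fun i hi => ⟨hlt i hi, (S.mem _ (hk i hi).1).2⟩, ?_, ?_, ?_, ?_, ?_⟩
  · intro i j hi hj h
    have h5 := S.inj _ _ (hk i hi).1 (hk j hj).1 h
    have hi2 : i ∈ msk tD 32 := mem_msk.2 ⟨by have := hlt i hi; omega, hi⟩
    have hj2 : j ∈ msk tD 32 := mem_msk.2 ⟨by have := hlt j hj; omega, hj⟩
    exact hinj hi2 hj2 h5
  · intro i j hi hj h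
    exact S.adj _ _ (hk i hi).1 (hk j hj).1 (((hk i hi).2.2.2 j hj).1 h)
  · intro i j hi hj h
    exact S.non _ _ (hk i hi).1 (hk j hj).1 (((hk i hi).2.2.2 j hj).2 h)
  · intro i hi
    have h5 := (hk i hi).2.1
    rw [lo'_eq hk', lo'_eq hk', S.dg'_eq] at h5
    exact h5.trans (max_le (S.lo _ (hk i hi).1) (S.dg_le (hk i hi).1))
  · intro i hi
    have h5 := (hk i hi).2.2.1
    rw [hi'_eq _ _ hk4 hk', hi'_eq _ _ hk4 hk'] at h5
    exact (S.hi _ (hk i hi).1).trans h5

theorem nth_sound {g : St → Bool} : ∀ (l : List St) (j : ℕ), nth l j g = true →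
    ∃ t ∈ l, g t = true := by
  intro l
  induction l with
  | nil => intro j h; cases h
  | cons s l ih =>
    intro j h
    cases j with
    | zero => exact ⟨s, List.mem_cons_self, h⟩
    | succ j =>
      obtain ⟨t, h1, h2⟩ := ih j h
      exact ⟨t, List.mem_cons_of_mem _ h1, h2⟩

theorem cm_bit {M n i : ℕ} (hi : i < 32) (h : Nat.beq (Nat.land M (cm n)) (nat_lit 0) = true) :
    bt M i n = false := by
  rw [Bool.eq_false_iff]
  intro hb
  have h1 : M &&& (cm n) = 0 := beq_eq' h
  have h2 : Nat.testBit (M &&& (cm n)) (32 * i + n) = true := by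
    rw [Nat.testBit_and]
    have h3 : cm n = (1 * Mm 32) <<< n := by
      have : Mm 32 = 41855804977958881238216860293671333616475814839523861211015363775367857790754367812411590743534994955327154331653972084008334635948471552329445020986934924815945052132199177846429263578652254701150892687317891618273230805205109921907778604060552511649183701335864607145965996450848344889395800702977 := by decide +kernel
      rw [this]; rfl
    have h4 : Nat.testBit M (32 * i + n) = true := hb
    rw [h4, h3, Nat.testBit_shiftLeft]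
    have h5 : 32 * i + n - n = 32 * i + 0 := by omega
    have h6 : n ≤ 32 * i + n := by omega
    rw [h5, testBit_Mm (by norm_num) 32 i 0 (by norm_num)]
    simp [hi]
  rw [h1] at h2
  simp at h2

theorem row_bit {M n j : ℕ} (hj : j < 32) (h : Nat.beq (rr M n) (nat_lit 0) = true) :
    bt M n j = false := by
  rw [Bool.eq_false_iff]
  intro hb
  have h1 : row M n = 0 := beq_eq' h
  have h2 : Nat.testBit (row M n) j = true := by
    rw [testBit_row, hb]; simp [hj]
  rw [h1] at h2
  simp at h2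

end

theorem core_sound {V : Type*} [DecidableEq V] {G : SimpleGraph V} [DecidableRel G.Adj]
    {k w2 : ℕ} {X : Finset V} (h : LH G k w2 X) (env : List St)
    (he : ∀ t ∈ env, Dead G k X t) : ∀ (c : Cert) (D n A B L H : ℕ),
    core k w2 env c D n A B L H = true → Dead G k X ⟨D, n, A, B, L, H⟩ := by
  intro c
  induction c with
  | kF F => exact fun D n A B L H hc f S => fF_sound h S hc
  | kI I => exact fun D n A B L H hc f S => fI_sound h S hc
  | kP u w => exact fun D n A B L H hc f S => fP_sound h S hc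
  | kH u => exact fun D n A B L H hc f S => fH_sound h.k4 h.k16 S hc
  | sb j p =>
    intro D n A B L H hc f S
    obtain ⟨t, h1, h2⟩ := nth_sound env j hc
    exact he t h1 _ (fS_sound h.k4 h.k16 S h2)
  | ad u v c d ihc ihd =>
    intro D n A B L H hc f S
    change an (tb D u) (an (tb D v)
      (an (fc (Nat.lor A (sy' u v)) fun A' => core k w2 env c D n A' B L H)
        (fc (Nat.lor B (sy' u v)) fun B' => core k w2 env d D n A B' L H))) = true at hc
    rw [an_eq, Bool.and_eq_true, an_eq, Bool.and_eq_true, an_eq, Bool.and_eq_true, fc_eq, fc_eq,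
      tb_eq, tb_eq] at hc
    obtain ⟨hu, hv, h1, h2⟩ := hc
    by_cases ha : G.Adj (f u) (f v)
    · exact ihc _ _ _ _ _ _ h1 f (S.ad_pos hu hv ha)
    · exact ihd _ _ _ _ _ _ h2 f (S.ad_neg hu hv ha)
  | dg v d c e ihc ihe =>
    intro D n A B L H hc f S
    change an (tb D v) (an (Nat.ble (Nat.succ d) (nat_lit 31))
      (an (fc (Nat.lor H (bi (Nat.add (Nat.mul (nat_lit 32) v) d))) fun H' =>
          core k w2 env c D n A B L H')
        (fc (Nat.lor L (bi (Nat.add (Nat.mul (nat_lit 32) v) (Nat.succ d)))) fun L' =>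
          core k w2 env e D n A B L' H))) = true at hc
    rw [an_eq, Bool.and_eq_true, an_eq, Bool.and_eq_true, an_eq, Bool.and_eq_true, fc_eq, fc_eq,
      tb_eq] at hc
    obtain ⟨hv, hd, h1, h2⟩ := hc
    have hd' : d < 31 := ble_le hd
    rcases le_or_gt (nb G X (f v)).card d with ha | ha
    · exact ihc _ _ _ _ _ _ h1 f (S.dg_pos h.k4 h.k16 hd' ha)
    · exact ihe _ _ _ _ _ _ h2 f (S.dg_neg h.k4 h.k16 hd' ha)
  | nw v K c ihc =>
    intro D n A B L H hc f S
    change fc (Nat.land D K) (fun D' => an (tb D' v)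
      (an (Nat.ble (Nat.succ n) (nat_lit 32))
      (an (Nat.beq (Nat.land (Nat.lor (Nat.lor (rr A v) (rr B v)) (bi v)) D') D')
      (an (Nat.ble (Nat.succ (pp (Nat.land (rr A v) D'))) (lo' k L v))
      (an (Nat.beq (rr L n) (nat_lit 0)) (an (Nat.beq (rr H n) (nat_lit 0))
      (an (Nat.beq (rr A n) (nat_lit 0)) (an (Nat.beq (rr B n) (nat_lit 0))
      (an (Nat.beq (Nat.land A (cm n)) (nat_lit 0)) (an (Nat.beq (Nat.land B (cm n)) (nat_lit 0))
        (fc (Nat.lor A (sy' v n)) fun A' => fc (Nat.lor D' (bi n)) fun D'' =>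
          fc (Nat.succ n) fun n' => core k w2 env c D'' n' A' B L H))))))))))) = true at hc
    rw [fc_eq, an_eq, Bool.and_eq_true, an_eq, Bool.and_eq_true, an_eq, Bool.and_eq_true, an_eq,
      Bool.and_eq_true, an_eq, Bool.and_eq_true, an_eq, Bool.and_eq_true, an_eq,
      Bool.and_eq_true, an_eq, Bool.and_eq_true, an_eq, Bool.and_eq_true, an_eq,
      Bool.and_eq_true, fc_eq, fc_eq, fc_eq, tb_eq] at hc
    obtain ⟨hv, hn, hdec, hlt, hL, hH, hA, hB, hcA, hcB, hrec⟩ := hc
    have hn' : n < 32 := ble_le hn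
    have S' := S.drop K
    have hvD : Nat.testBit D v = true := land_left v hv
    have hlt32 : ∀ j, Nat.testBit (D &&& K) j = true → j < 32 := fun j hj => S'.lt32 hj
    have hdec' : ∀ j, Nat.testBit (D &&& K) j = true → j = v ∨ bt A v j = true ∨
        bt B v j = true := by
      intro j hj
      have h1 : ((row A v ||| row B v) ||| bi v) &&& (D &&& K) = D &&& K := beq_eq' hdec
      have h2 : Nat.testBit (((row A v ||| row B v) ||| bi v) &&& (D &&& K)) j = true := by
        rw [h1]; exact hj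
      rw [Nat.testBit_and, Nat.testBit_or, Nat.testBit_or, Bool.and_eq_true, Bool.or_eq_true,
        Bool.or_eq_true, testBit_row, testBit_row, Bool.and_eq_true, Bool.and_eq_true,
        testBit_bi] at h2
      rcases h2.1 with (h3 | h3) | h3
      · exact Or.inr (Or.inl h3.2)
      · exact Or.inr (Or.inr h3.2)
      · exact Or.inl h3.symm
    have hlo : loA k L n (k - 2) = k := by
      have h2 := (loA_iff (k := k) (L := L) (i := n) (c := k) (k - 2)).2
        ⟨le_rfl, fun d h3 h4 h5 => by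
          rw [row_bit (by have := h.k16; omega) hL] at h5; cases h5⟩
      have h3 := (loA_iff (k := k) (L := L) (i := n) (c := loA k L n (k - 2)) (k - 2)).1 le_rfl
      omega
    have hhi : hiA k H n (k - 2) = 2 * k - 2 := by
      have hk4 := h.k4
      have h2 := (hiA_iff (k := k) (H := H) (i := n) (c := 2 * k - 2) (k - 2) (by omega)).2
        ⟨le_rfl, fun d h3 h4 h5 => by
          rw [row_bit (by have := h.k16; omega) hH] at h5; cases h5⟩
      have h3 := (hiA_iff (k := k) (H := H) (i := n) (c := hiA k H n (k - 2)) (k - 2)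
        (by omega)).1 le_rfl
      omega
    have hlt' := ble_le hlt
    rw [lo'_eq h.k16, T4.pp_eq (by
      apply Nat.lt_pow_two_of_testBit
      intro i hi
      rw [Bool.eq_false_iff]
      intro h'
      have := hlt32 i (land_right i h')
      omega)] at hlt'
    obtain ⟨g, hg⟩ := S'.nw h (v := v) hv hn' (by
        intro j hj
        exact hdec' j (mem_msk.1 hj).2) (by
        have h1 : msk (row A v &&& (D &&& K)) n = msk (row A v &&& (D &&& K)) 32 := by
          ext i
          rw [mem_msk, mem_msk]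
          constructor
          · rintro ⟨h1, h2⟩
            exact ⟨by omega, h2⟩
          · rintro ⟨h1, h2⟩
            rw [Nat.testBit_and, Bool.and_eq_true] at h2
            exact ⟨(S'.mem i h2.2).1, by rw [Nat.testBit_and, Bool.and_eq_true]; exact h2⟩
        change (msk (row A v &&& (D &&& K)) n).card < loA k L v (k - 2)
        rw [h1]
        exact hlt') hlo hhi (by
        intro j hj
        have hj' := hlt32 j (mem_msk.1 hj).2
        exact ⟨row_bit hj' hA, cm_bit hj' hcA, row_bit hj' hB, cm_bit hj' hcB⟩)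
        (row_bit hn' hA)
    have h9 : Nat.lor (Nat.land D K) (bi n) = (D &&& K) ||| (1 <<< n) := rfl
    rw [h9] at hrec
    exact ihc _ _ _ _ _ _ hrec g hg
  | fl v c ihc =>
    intro D n A B L H hc f S
    change an (tb D v) (an (Nat.beq (dg' D A v) (hi' k H v))
      (fc (lv (fun m => sy' v m) (nat_lit 32) (nm D A B v) B) fun B' =>
        core k w2 env c D n A B' L H)) = true at hc
    rw [an_eq, Bool.and_eq_true, an_eq, Bool.and_eq_true, fc_eq, tb_eq] at hc
    obtain ⟨hv, hcl, h1⟩ := hc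
    refine ihc _ _ _ _ _ _ h1 f ⟨S.n32, S.mem, S.inj, S.adj, ?_, S.lo, S.hi⟩
    have hcl' : St.cl k ⟨D, n, A, B, L, H⟩ v = true := by
      unfold St.cl
      rw [← S.dg'_eq v]
      have h5 : St.hi k ⟨D, n, A, B, L, H⟩ v = hi' k H v := (hi'_eq H v h.k4 h.k16).symm
      rw [h5]; exact hcl
    have hnm : ∀ m, Nat.testBit (nm D A B v) m = true → Nat.testBit D m = true ∧
        ¬ G.Adj (f v) (f m) := by
      intro m hm
      have h2 : nm D A B v = ((2 ^ 32 - 1) ^^^ ((row A v ||| row B v) ||| bi v)) &&& D := rfl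
      rw [h2, Nat.testBit_and, Nat.testBit_xor, Nat.testBit_or, Nat.testBit_or,
        Bool.and_eq_true] at hm
      have hmD := hm.2
      refine ⟨hmD, fun hadj => ?_⟩
      have h3 := testBit_nbr.1 (S.closed_adj hv hcl' hmD hadj)
      have h4 := hm.1
      rw [Nat.testBit_two_pow_sub_one, testBit_row, h3.2.1] at h4
      simp [h3.1] at h4
    intro i j hi hj hb
    have hb' : Nat.testBit (lv (fun m => sy' v m) 32 (nm D A B v) B) (32 * i + j) = true := hb
    rcases lv_sound _ _ _ _ _ hb' with h2 | ⟨m, h2, h3⟩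
    · exact S.non i j hi hj h2
    · have h4 := hnm m h2
      have h5 : bt (sy v m) i j = true := h3
      rw [bt_sy (S.lt32 hj) (S.lt32 hv) (S.lt32 h4.1)] at h5
      rcases h5 with ⟨h6, h7⟩ | ⟨h6, h7⟩
      · rw [h6, h7]; exact h4.2
      · rw [h6, h7]; exact fun h' => h4.2 h'.symm

/-- soundness of the fast checker -/
theorem fast_sound {V : Type*} [DecidableEq V] {G : SimpleGraph V} [DecidableRel G.Adj]
    {k w2 : ℕ} {X : Finset V} (h : LH G k w2 X) (env : List St)
    (he : ∀ t ∈ env, Dead G k X t) (c : Cert) (s : St) (hc : chk k w2 env c s = true) :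
    Dead G k X s := by
  obtain ⟨D, n, A, B, L, H⟩ := s
  exact core_sound h env he c D n A B L H hc

theorem dnil {V : Type*} [DecidableEq V] {G : SimpleGraph V} [DecidableRel G.Adj]
    {k : ℕ} {X : Finset V} : ∀ t ∈ ([] : List St), Dead G k X t := by
  intro t ht; cases ht

theorem dcons {V : Type*} [DecidableEq V] {G : SimpleGraph V} [DecidableRel G.Adj]
    {k : ℕ} {X : Finset V} {s : St} {l : List St} (h1 : Dead G k X s)
    (h2 : ∀ t ∈ l, Dead G k X t) : ∀ t ∈ s :: l, Dead G k X t := by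
  intro t ht
  rcases List.mem_cons.1 ht with rfl | ht
  · exact h1
  · exact h2 t ht

end Pool.Agent.TwoDens.T4
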