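import Pool.Agent.TK4.Snd

/-!
# Two more local hypotheses

For a set `S` with the closed neighbourhoods of an independent set `J`, `|J| = j`, the number
`(4 k - 2) |S| + e2 S - 2 ∑ deg - κ j - 2` bounds the potential of `X \ S`.
-/

open Finset

namespace Pool.Agent.TwoDens.T4

open Pool.Agent.TwoDens Pool.Agent.TwoDens.RK Pool.Agent.TwoDens.DD

variable {V : Type*} [DecidableEq V]

/-- the local hypotheses, with the minimal degree and the transversals of the rest -/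
structure LH2 (G : SimpleGraph V) [DecidableRel G.Adj] (k w2 : ℕ) (X : Finset V) : Prop
    extends LH G k w2 X where
  dd : ∀ S J : Finset V, S ⊆ X → J ⊆ S → J.Nonempty → G.IsIndepSet (J : Set V) →
    (∀ z ∈ J, nb G X z ⊆ S) → ∀ p d : ℕ,
    (4 * k - 2) * S.card + e2 G S ≤
      2 * (∑ v ∈ S, (nb G X v).card) + (3 * k * k + 2 - 3 * k) * J.card + 2 + p →
    (p ≤ 1 ∧ d + 1 = k ∨ p ≤ 2 * k + 3 ∧ d + 2 = k ∨ p ≤ 4 * k - 3 ∧ d + 3 = k) →
    ∀ v ∈ X, v ∉ S → d ≤ (nb G X v \ S).card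
  tt : ∀ S J : Finset V, S ⊆ X → J ⊆ S → J.Nonempty → G.IsIndepSet (J : Set V) →
    (∀ z ∈ J, nb G X z ⊆ S) → ∀ p t : ℕ,
    (4 * k - 2) * S.card + e2 G S ≤
      2 * (∑ v ∈ S, (nb G X v).card) + (3 * k * k + 2 - 3 * k) * J.card + 2 + p →
    (p ≤ 1 ∧ t = k ∨ p ≤ 2 * k + 1 ∧ t + 1 = k ∨ p ≤ 4 * k - 3 ∧ t + 2 = k) →
    ∀ T ⊆ S, G.IsIndepSet (T : Set V) → T.card = J.card + 1 →
    t ≤ (T.biUnion (fun z => nb G X z) \ S).card

end Pool.Agent.TwoDens.T4
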