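import Pool.Agent.TK4.Fast
import Pool.Agent.TK4.LH2

/-!
# The fast checker with two more rules
-/

open Finset

namespace Pool.Agent.TwoDens.T4

open Pool.Agent.TwoDens Pool.Agent.TwoDens.RK Pool.Agent.TwoDens.DD

/-- certificates -/
inductive Cert2 where
  | kF (F : ℕ) : Cert2
  | kI (I : ℕ) : Cert2
  | kP (u w : ℕ) : Cert2
  | kH (u : ℕ) : Cert2
  | kT (I T : ℕ) : Cert2
  | kD (I w : ℕ) : Cert2
  | sb (j p : ℕ) : Cert2
  | ad (u v : ℕ) (c d : Cert2) : Cert2
  | dg (v d : ℕ) (c e : Cert2) : Cert2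
  | nw (v K : ℕ) (c : Cert2) : Cert2
  | fl (v : ℕ) (c : Cert2) : Cert2

noncomputable section

/-- minimum -/
def mn (a b : ℕ) : ℕ := Bool.rec (motive := fun _ => ℕ) b a (Nat.ble a b)

/-- a bound for the potential of the complement of `W` -/
def sl (k D A B L W c j : ℕ) : ℕ :=
  fc (Nat.mul (c4 k) c) fun x => fc (Nat.add (Nat.mul (kp k) j) (nat_lit 2)) fun y =>
    fc (Nat.sub x (ls (tw' k D A B L W c) (nat_lit 32) W y)) fun p =>
      ite' (Nat.ble (nat_lit 3) c)
        (fc (Nat.sub (Nat.add x (Nat.mul (Nat.succ k) c))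
          (ls (fun w => Nat.mul (nat_lit 2) (mx (lo' k L w) (dg' D A w))) (nat_lit 32) W
            (Nat.add y (Nat.succ (Nat.mul (nat_lit 2) k))))) fun q => mn p q) p

/-- lower bound of the number of neighbours of an independent set outside `W` -/
def tq (k p : ℕ) : ℕ :=
  ite' (Nat.ble p (nat_lit 1)) k (ite' (Nat.ble p (Nat.add (Nat.mul (nat_lit 2) k) (nat_lit 1)))
    (Nat.sub k (nat_lit 1))
    (ite' (Nat.ble p (Nat.sub (Nat.mul (nat_lit 4) k) (nat_lit 3))) (Nat.sub k (nat_lit 2))
      (nat_lit 0)))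

/-- lower bound of the degree outside `W` -/
def dq (k p : ℕ) : ℕ :=
  ite' (Nat.ble p (nat_lit 1)) (Nat.sub k (nat_lit 1))
    (ite' (Nat.ble p (Nat.add (Nat.mul (nat_lit 2) k) (nat_lit 3))) (Nat.sub k (nat_lit 2))
    (ite' (Nat.ble p (Nat.sub (Nat.mul (nat_lit 4) k) (nat_lit 3))) (Nat.sub k (nat_lit 3))
      (nat_lit 0)))

/-- common part: `I` is closed and independent, `W` its closed neighbourhood, `j = |I|`,
`p` the bound for the potential -/
def pr (k D A B L H I : ℕ) (g : ℕ → ℕ → ℕ → Bool) : Bool :=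
  an (Nat.beq (Nat.land I D) I) (an
    (la (fun i => an (Nat.beq (dg' D A i) (hi' k H i)) (Nat.beq (Nat.land (rr A i) I) (nat_lit 0)))
      (nat_lit 32) I)
    (fc (Nat.land (Nat.lor (lu (rr A) (nat_lit 32) I (nat_lit 0)) I) D) fun W =>
      fc (pp I) fun j => an (Nat.ble (nat_lit 1) j)
        (fc (sl k D A B L W (pp W) j) fun p => g W j p)))

/-- rule: an independent set `T` in `W` with too few neighbours outside -/
def fT (k D A B L H I T : ℕ) : Bool :=
  pr k D A B L H I fun W j p => an (Nat.beq (Nat.land T W) T) (an (Nat.beq (pp T) (Nat.succ j))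
    (an (la (fun i => Nat.beq (Nat.land T (Nat.lor (rr B i) (bi i))) T) (nat_lit 32) T)
      (Nat.ble (Nat.succ (ls (fun i => Nat.sub (hi' k H i) (dg' D A i)) (nat_lit 32) T
        (pp (Nat.land (lu (rr A) (nat_lit 32) T (nat_lit 0)) (Nat.xor D W))))) (tq k p))))

/-- rule: a vertex `w` outside `W` with too few neighbours outside -/
def fD (k D A B L H I w : ℕ) : Bool :=
  pr k D A B L H I fun W _ p => an (tb D w) (an (ite' (tb W w) false true)
    (Nat.ble (Nat.succ (hi' k H w)) (Nat.add (dq k p) (pp (Nat.land (rr A w) W)))))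

/-- the checker -/
def core2 (k w2 : ℕ) (env : List St) (c : Cert2) : ℕ → ℕ → ℕ → ℕ → ℕ → ℕ → Bool :=
  Cert2.rec (motive := fun _ => ℕ → ℕ → ℕ → ℕ → ℕ → ℕ → Bool)
    (fun F D _ A _ _ _ => fF k D A F)
    (fun I D _ A B L H => fI k w2 D A B L H I)
    (fun u w D _ A B _ H => fP k w2 D A B H u w)
    (fun u D _ A _ L H => fH k D A L H u)
    (fun I T D _ A B L H => fT k D A B L H I T)
    (fun I w D _ A B L H => fD k D A B L H I w)
    (fun j p D _ A B L H => nth env j (fS k D A B L H p))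
    (fun u v _ _ ihc ihd D n A B L H => an (tb D u) (an (tb D v)
      (an (fc (Nat.lor A (sy' u v)) fun A' => ihc D n A' B L H)
        (fc (Nat.lor B (sy' u v)) fun B' => ihd D n A B' L H))))
    (fun v d _ _ ihc ihe D n A B L H => an (tb D v) (an (Nat.ble (Nat.succ d) (nat_lit 31))
      (an (fc (Nat.lor H (bi (Nat.add (Nat.mul (nat_lit 32) v) d))) fun H' => ihc D n A B L H')
        (fc (Nat.lor L (bi (Nat.add (Nat.mul (nat_lit 32) v) (Nat.succ d)))) fun L' =>
          ihe D n A B L' H))))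
    (fun v K _ ihc D n A B L H => fc (Nat.land D K) fun D' => an (tb D' v)
      (an (Nat.ble (Nat.succ n) (nat_lit 32))
      (an (Nat.beq (Nat.land (Nat.lor (Nat.lor (rr A v) (rr B v)) (bi v)) D') D')
      (an (Nat.ble (Nat.succ (pp (Nat.land (rr A v) D'))) (lo' k L v))
      (an (Nat.beq (rr L n) (nat_lit 0)) (an (Nat.beq (rr H n) (nat_lit 0))
      (an (Nat.beq (rr A n) (nat_lit 0)) (an (Nat.beq (rr B n) (nat_lit 0))
      (an (Nat.beq (Nat.land A (cm n)) (nat_lit 0)) (an (Nat.beq (Nat.land B (cm n)) (nat_lit 0))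
        (fc (Nat.lor A (sy' v n)) fun A' => fc (Nat.lor D' (bi n)) fun D'' =>
          fc (Nat.succ n) fun n' => ihc D'' n' A' B L H)))))))))))
    (fun v _ ihc D n A B L H => an (tb D v) (an (Nat.beq (dg' D A v) (hi' k H v))
      (fc (lv (fun m => sy' v m) (nat_lit 32) (nm D A B v) B) fun B' => ihc D n A B' L H))) c

/-- the checker for a state -/
def chk2 (k w2 : ℕ) (env : List St) (c : Cert2) (s : St) : Bool :=
  St.rec (motive := fun _ => Bool) (fun D n A B L H => core2 k w2 env c D n A B L H) s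

end

/-! ### Soundness -/

theorem mn_le_or (a b : ℕ) : mn a b = a ∨ mn a b = b := by
  unfold mn
  cases Nat.ble a b
  · exact Or.inr rfl
  · exact Or.inl rfl

theorem tq_spec {k p : ℕ} (h : tq k p ≠ 0) (hk : 4 ≤ k) :
    (p ≤ 1 ∧ tq k p = k ∨ p ≤ 2 * k + 1 ∧ tq k p + 1 = k ∨ p ≤ 4 * k - 3 ∧ tq k p + 2 = k) := by
  unfold tq at h ⊢
  cases h1 : Nat.ble p 1 with
  | true => exact Or.inl ⟨ble_le h1, rfl⟩
  | false =>
    rw [h1, ite'_false] at h
    rw [ite'_false]
    cases h2 : Nat.ble p (Nat.add (Nat.mul 2 k) 1) with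
    | true =>
      refine Or.inr (Or.inl ⟨ble_le h2, ?_⟩)
      rw [ite'_true]
      change k - 1 + 1 = k
      omega
    | false =>
      rw [h2, ite'_false] at h
      rw [ite'_false]
      cases h3 : Nat.ble p (Nat.sub (Nat.mul 4 k) 3) with
      | true =>
        refine Or.inr (Or.inr ⟨ble_le h3, ?_⟩)
        rw [ite'_true]
        change k - 2 + 2 = k
        omega
      | false =>
        rw [h3, ite'_false] at h
        exact (h rfl).elim

theorem dq_spec {k p : ℕ} (h : dq k p ≠ 0) (hk : 4 ≤ k) :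
    (p ≤ 1 ∧ dq k p + 1 = k ∨ p ≤ 2 * k + 3 ∧ dq k p + 2 = k ∨
      p ≤ 4 * k - 3 ∧ dq k p + 3 = k) := by
  unfold dq at h ⊢
  cases h1 : Nat.ble p 1 with
  | true =>
    refine Or.inl ⟨ble_le h1, ?_⟩
    rw [ite'_true]
    change k - 1 + 1 = k
    omega
  | false =>
    rw [h1, ite'_false] at h
    rw [ite'_false]
    cases h2 : Nat.ble p (Nat.add (Nat.mul 2 k) 3) with
    | true =>
      refine Or.inr (Or.inl ⟨ble_le h2, ?_⟩)
      rw [ite'_true]
      change k - 2 + 2 = k
      omega
    | false =>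
      rw [h2, ite'_false] at h
      rw [ite'_false]
      cases h3 : Nat.ble p (Nat.sub (Nat.mul 4 k) 3) with
      | true =>
        refine Or.inr (Or.inr ⟨ble_le h3, ?_⟩)
        rw [ite'_true]
        change k - 3 + 3 = k
        omega
      | false =>
        rw [h3, ite'_false] at h
        exact (h rfl).elim

theorem ls_eq (g : ℕ → ℕ) : ∀ t p a, p < 2 ^ 32 → (msk p 32).card ≤ t →
    ls g t p a = a + ∑ i ∈ msk p 32, g i := by
  intro t
  induction t with
  | zero =>
    intro p a hp hc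
    have h1 : msk p 32 = ∅ := Finset.card_eq_zero.1 (by omega)
    rw [h1]; rfl
  | succ t ih =>
    intro p a hp hc
    have h2 : ls g (t + 1) p a = ite' (Nat.beq p (nat_lit 0)) a
      (fc (Nat.log2 p) fun i => fc (Nat.add a (g i)) fun a' => fc (Nat.xor p (bi i)) fun p' =>
        ls g t p' a') := rfl
    rw [h2]
    by_cases h0 : p = 0
    · have h1 : msk p 32 = ∅ := by
        ext i; rw [mem_msk, h0]; simp
      rw [h1, h0]; rfl
    · have h1 : Nat.beq p (nat_lit 0) = false := by
        rw [Bool.eq_false_iff]; exact fun h' => h0 (beq_zero.1 h')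
      rw [h1, ite'_false, fc_eq, fc_eq, fc_eq]
      have h3 := Nat.testBit_log2 h0
      have h4 : Nat.log2 p < 32 := by
        by_contra hcon
        have := Nat.testBit_lt_two_pow (i := Nat.log2 p) (x := p)
          (lt_of_lt_of_le hp (Nat.pow_le_pow_right (by norm_num) (by omega)))
        rw [this] at h3; cases h3
      have h5 : msk (Nat.xor p (bi (Nat.log2 p))) 32 = (msk p 32).erase (Nat.log2 p) := by
        ext j
        rw [mem_erase, mem_msk, mem_msk, testBit_xor_bi h3]
        tauto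
      have h6 : Nat.xor p (bi (Nat.log2 p)) < 2 ^ 32 := by
        change p ^^^ bi (Nat.log2 p) < 2 ^ 32
        refine Nat.xor_lt_two_pow hp ?_
        rw [bi_eq]; exact Nat.pow_lt_pow_right (by norm_num) h4
      have h9 : (msk (Nat.xor p (bi (Nat.log2 p))) 32).card ≤ t := by
        rw [h5, card_erase_of_mem (mem_msk.2 ⟨h4, h3⟩)]; omega
      have h7 := ih (Nat.xor p (bi (Nat.log2 p))) (Nat.add a (g (Nat.log2 p))) h6 h9
      have h8 := Finset.add_sum_erase (msk p 32) g (mem_msk.2 ⟨h4, h3⟩)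
      rw [h7, h5]
      change a + g (Nat.log2 p) + _ = _
      omega

theorem msk_card_le (p : ℕ) : (msk p 32).card ≤ 32 := by
  have := card_filter_le (range 32) (fun i => Nat.testBit p i = true)
  rwa [card_range] at this

section
variable {V : Type*} [DecidableEq V]
variable {G : SimpleGraph V} [DecidableRel G.Adj] {k : ℕ} {X : Finset V} {f : ℕ → V}
variable {D n A B L H : ℕ}

theorem sl_sound {w2 : ℕ} (h : LH G k w2 X) (S : Sat G k X f ⟨D, n, A, B, L, H⟩) {W : ℕ} (j : ℕ)
    (hWD : ∀ i, Nat.testBit W i = true → Nat.testBit D i = true) :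
    (4 * k - 2) * pp W + e2 G ((msk W 32).image f) ≤
      2 * (∑ i ∈ msk W 32, (nb G X (f i)).card) + (3 * k * k + 2 - 3 * k) * j + 2 +
        sl k D A B L W (pp W) j := by
  have hW : ∀ i ∈ msk W 32, Nat.testBit D i = true := fun i hi => hWD i (mem_msk.1 hi).2
  have hcW : pp W = (msk W 32).card := T4.pp_eq (sub_lt S hWD)
  have hA : (4 * k - 2) * pp W + e2 G ((msk W 32).image f) ≤
      2 * (∑ i ∈ msk W 32, (nb G X (f i)).card) + (3 * k * k + 2 - 3 * k) * j + 2 +
        ((4 * k - 2) * pp W - ls (tw' k D A B L W (pp W)) 32 W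
          ((3 * k * k + 2 - 3 * k) * j + 2)) := by
    have h8 := ls_le (tw' k D A B L W (pp W)) 32 W ((3 * k * k + 2 - 3 * k) * j + 2)
      (sub_lt S hWD)
    have h7 : ∑ i ∈ msk W 32, tw' k D A B L W (pp W) i + e2 G ((msk W 32).image f) ≤
        2 * ∑ i ∈ msk W 32, (nb G X (f i)).card := by
      rw [S.e2 hW, ← sum_add_distrib, mul_sum]
      refine sum_le_sum fun i hi => ?_
      have h9 := S.msk_eq hWD
      rw [S.tw'_eq h.k16 hWD, hcW, ← h9]
      refine S.tw_le (W := W) (w := i) ?_ ?_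
      · intro j hj
        exact hWD j (mem_msk.1 hj).2
      · change i ∈ msk W n
        rw [h9]; exact hi
    generalize (4 * k - 2) * pp W = a1 at *
    generalize (3 * k * k + 2 - 3 * k) * j = a2 at *
    omega
  have hB : 3 ≤ pp W → (4 * k - 2) * pp W + e2 G ((msk W 32).image f) ≤
      2 * (∑ i ∈ msk W 32, (nb G X (f i)).card) + (3 * k * k + 2 - 3 * k) * j + 2 +
        ((4 * k - 2) * pp W + (k + 1) * pp W -
          ls (fun w => Nat.mul 2 (mx (lo' k L w) (dg' D A w))) 32 W
          ((3 * k * k + 2 - 3 * k) * j + 2 + (2 * k + 1))) := by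
    intro h5'
    have h8 := ls_le (fun w => Nat.mul 2 (mx (lo' k L w) (dg' D A w))) 32 W
      ((3 * k * k + 2 - 3 * k) * j + 2 + (2 * k + 1)) (sub_lt S hWD)
    have h7 : ∑ i ∈ msk W 32, Nat.mul 2 (mx (lo' k L i) (dg' D A i)) ≤
        2 * ∑ i ∈ msk W 32, (nb G X (f i)).card := by
      rw [mul_sum]
      refine sum_le_sum fun i hi => ?_
      rw [mx_eq, S.dg'_eq, lo'_eq h.k16]
      have := max_le (S.lo i (hW i hi)) (S.dg_le (hW i hi))
      exact Nat.mul_le_mul_left 2 this
    have h9 := h.sp _ (S.sub hW) (by rw [S.card hW, ← hcW]; exact h5')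
    rw [S.card hW, ← hcW] at h9
    generalize (4 * k - 2) * pp W = a1 at *
    generalize (3 * k * k + 2 - 3 * k) * j = a2 at *
    generalize (k + 1) * pp W = a3 at *
    omega
  unfold sl
  rw [fc_eq, fc_eq, fc_eq, fc_eq]
  cases h3 : Nat.ble 3 (pp W) with
  | false =>
    rw [ite'_false]; exact hA
  | true =>
    rw [ite'_true]
    rcases mn_le_or (Nat.sub (Nat.mul (c4 k) (pp W)) (ls (tw' k D A B L W (pp W)) 32 W
      (Nat.add (Nat.mul (kp k) j) 2))) (Nat.sub (Nat.add (Nat.mul (c4 k) (pp W))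
        (Nat.mul (Nat.succ k) (pp W)))
        (ls (fun w => Nat.mul 2 (mx (lo' k L w) (dg' D A w))) 32 W
          (Nat.add (Nat.add (Nat.mul (kp k) j) 2) (Nat.succ (Nat.mul 2 k))))) with h4 | h4
    · rw [h4]; exact hA
    · rw [h4]; exact hB (ble_le h3)

theorem pr_sound {w2 : ℕ} (h : LH G k w2 X) (S : Sat G k X f ⟨D, n, A, B, L, H⟩) {I : ℕ}
    {g : ℕ → ℕ → ℕ → Bool} (hc : pr k D A B L H I g = true) :
    ∃ W p : ℕ, (∀ i, Nat.testBit W i = true → Nat.testBit D i = true) ∧
      g W (msk I 32).card p = true ∧ (msk I 32).image f ⊆ (msk W 32).image f ∧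
      ((msk I 32).image f).Nonempty ∧ ((msk I 32).image f).card = (msk I 32).card ∧
      G.IsIndepSet (((msk I 32).image f : Finset V) : Set V) ∧
      (∀ z ∈ (msk I 32).image f, nb G X z ⊆ (msk W 32).image f) ∧
      (4 * k - 2) * ((msk W 32).image f).card + e2 G ((msk W 32).image f) ≤
        2 * (∑ v ∈ (msk W 32).image f, (nb G X v).card) +
          (3 * k * k + 2 - 3 * k) * ((msk I 32).image f).card + 2 + p := by
  unfold pr at hc
  rw [an_eq, Bool.and_eq_true, an_eq, Bool.and_eq_true, fc_eq, fc_eq, an_eq, Bool.and_eq_true,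
    fc_eq] at hc
  obtain ⟨h1, h2, h3, h4⟩ := hc
  have hID := sub_of_land h1
  have hI : ∀ i, Nat.testBit I i = true → Nat.testBit D i = true ∧
      St.cl k ⟨D, n, A, B, L, H⟩ i = true ∧ row A i &&& I = 0 := by
    intro i hi
    have := la_sound _ _ _ h2 i hi
    rw [an_eq, Bool.and_eq_true] at this
    refine ⟨hID i hi, ?_, beq_eq' this.2⟩
    unfold St.cl
    rw [← S.dg'_eq i]
    have h5 : St.hi k ⟨D, n, A, B, L, H⟩ i = hi' k H i := (hi'_eq H i h.k4 h.k16).symm
    rw [h5]; exact this.1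
  set W := Nat.land (Nat.lor (lu (rr A) (nat_lit 32) I (nat_lit 0)) I) D with hWdef
  have hWD : ∀ i, Nat.testBit W i = true → Nat.testBit D i = true := by
    intro i hi; rw [hWdef] at hi; exact land_right i hi
  have hW : ∀ i ∈ msk W 32, Nat.testBit D i = true := fun i hi => hWD i (mem_msk.1 hi).2
  have hW2 : ∀ j, Nat.testBit W j = ((Nat.testBit (lu (rr A) 32 I 0) j || Nat.testBit I j) &&
      Nat.testBit D j) := by
    intro j
    have : W = ((lu (rr A) 32 I 0) ||| I) &&& D := hWdef
    rw [this, Nat.testBit_and, Nat.testBit_or]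
  have hI32 : ∀ i, Nat.testBit I i = true → i < 32 := fun i hi => S.lt32 (i := i) (hID i hi)
  have hIW : msk I 32 ⊆ msk W 32 := by
    intro i hi
    have h5 := mem_msk.1 hi
    rw [mem_msk, hW2, h5.2, hID i h5.2]
    exact ⟨h5.1, by simp⟩
  have hD : ∀ i ∈ msk I 32, Nat.testBit D i = true := fun i hi => hID i (mem_msk.1 hi).2
  have hJS : (msk I 32).image f ⊆ (msk W 32).image f := image_subset_image hIW
  have hind : G.IsIndepSet (((msk I 32).image f : Finset V) : Set V) := by
    intro x hx y hy _ hadj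
    rw [Finset.mem_coe] at hx hy
    obtain ⟨i, hi, rfl⟩ := Finset.mem_image.1 hx
    obtain ⟨j, hj, rfl⟩ := Finset.mem_image.1 hy
    have hi2 := hI i (mem_msk.1 hi).2
    have h5 := S.closed_adj hi2.1 hi2.2.1 (hD j hj) hadj
    have h7 := testBit_nbr.1 h5
    have h6 : Nat.testBit (row A i &&& I) j = true := by
      rw [Nat.testBit_and, (mem_msk.1 hj).2, testBit_row, h7.2.1]
      simp [h7.1]
    rw [hi2.2.2] at h6
    simp at h6
  have hnb : ∀ z ∈ (msk I 32).image f, nb G X z ⊆ (msk W 32).image f := by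
    intro z hz
    obtain ⟨i, hi, rfl⟩ := Finset.mem_image.1 hz
    have hi2 := hI i (mem_msk.1 hi).2
    rw [← S.closed hi2.1 hi2.2.1]
    refine image_subset_image fun j hj => ?_
    have h5 := (mem_msk.1 hj)
    have h6 := testBit_nbr.1 h5.2
    rw [mem_msk, hW2, h6.2.2]
    refine ⟨h6.1, ?_⟩
    have h7 : Nat.testBit (lu (rr A) 32 I 0) j = true := by
      apply lu_sound _ _ _ _ _ h6.1
      refine Or.inr ⟨i, (mem_msk.1 hi).2, ?_⟩
      rw [rr_eq, testBit_row, h6.2.1]
      simp [h6.1]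
    rw [h7]; rfl
  have hcI : pp I = (msk I 32).card := T4.pp_eq (sub_lt S hID)
  have hcW : pp W = (msk W 32).card := T4.pp_eq (sub_lt S hWD)
  have h3' : 1 ≤ pp I := ble_le h3
  have hne : ((msk I 32).image f).Nonempty := by
    rw [← card_pos, S.card hD]; omega
  have hsum : ∑ v ∈ (msk W 32).image f, (nb G X v).card =
      ∑ i ∈ msk W 32, (nb G X (f i)).card := sum_image (S.injOn hW)
  have h5 := sl_sound h S (pp I) hWD
  refine ⟨W, sl k D A B L W (pp W) (pp I), hWD, ?_, hJS, hne, S.card hD, hind, hnb, ?_⟩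
  · rw [← hcI]; exact h4
  · rw [hsum, S.card hW, S.card hD, ← hcW, ← hcI]
    exact h5

theorem fD_sound {w2 : ℕ} (h : LH2 G k w2 X) (S : Sat G k X f ⟨D, n, A, B, L, H⟩) {I w : ℕ}
    (hc : fD k D A B L H I w = true) : False := by
  unfold fD at hc
  obtain ⟨W, p, hWD, hg, hJS, hne, _, hind, hnb, hsl⟩ := pr_sound h.toLH S hc
  rw [an_eq, Bool.and_eq_true, an_eq, Bool.and_eq_true, tb_eq, tb_eq] at hg
  obtain ⟨h1, h2, h3⟩ := hg
  have hW : ∀ i ∈ msk W 32, Nat.testBit D i = true := fun i hi => hWD i (mem_msk.1 hi).2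
  have hw32 : w < 32 := S.lt32 (i := w) h1
  have h2' : Nat.testBit W w = false := by
    cases hb : Nat.testBit W w with
    | false => rfl
    | true => rw [hb] at h2; cases h2
  have h3' := ble_le h3
  have hwS : f w ∉ (msk W 32).image f := by
    intro h4
    have h5 := (mem_msk.1 (S.mem_image hW h1 h4)).2
    rw [h2'] at h5; cases h5
  have hd0 : dq k p ≠ 0 := by
    intro h0
    rw [h0] at h3'
    have h4 : pp (Nat.land (rr A w) W) ≤ hi' k H w := by
      rw [S.pp_eq (fun i hi => hWD i (land_right i hi)), hi'_eq H w h.k4 h.k16]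
      refine le_trans ?_ (S.hi w h1)
      refine le_trans ?_ (S.dg_le (i := w) h1)
      rw [dg_eq, pc_eq]
      refine card_le_card fun j hj => ?_
      have h5 := mem_msk.1 hj
      rw [mem_msk]
      refine ⟨h5.1, ?_⟩
      have h6 : Nat.testBit (row A w &&& W) j = true := h5.2
      rw [Nat.testBit_and, Bool.and_eq_true] at h6
      change Nat.testBit (row A w &&& D) j = true
      rw [Nat.testBit_and, Bool.and_eq_true]
      exact ⟨h6.1, hWD j h6.2⟩
    change hi' k H w + 1 ≤ 0 + _ at h3'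
    omega
  have h5 := h.dd _ _ (S.sub hW) hJS hne hind hnb p (dq k p) hsl (dq_spec hd0 h.k4) (f w)
    (S.mem w h1).2 hwS
  -- neighbours inside
  have h6 : (msk (row A w &&& W) 32).card + (nb G X (f w) \ (msk W 32).image f).card ≤
      (nb G X (f w)).card := by
    have h7 : ∀ j ∈ msk (row A w &&& W) 32, Nat.testBit D j = true := fun j hj =>
      hWD j (mem_msk.1 (mem_msk_and.1 hj).2).2
    rw [← S.card h7, ← card_union_of_disjoint]
    · refine card_le_card (union_subset ?_ sdiff_subset)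
      intro z hz
      obtain ⟨j, hj, rfl⟩ := Finset.mem_image.1 hz
      have h8 := mem_msk_and.1 hj
      have h9 := (mem_msk.1 h8.1).2
      rw [testBit_row, Bool.and_eq_true] at h9
      exact mem_nb.2 ⟨(S.mem j (h7 j hj)).2, S.adj w j h1 (h7 j hj) h9.2⟩
    · rw [Finset.disjoint_left]
      intro z hz hz2
      obtain ⟨j, hj, rfl⟩ := Finset.mem_image.1 hz
      exact (mem_sdiff.1 hz2).2 (Finset.mem_image_of_mem f (mem_msk_and.1 hj).2)
  have h7 : pp (Nat.land (rr A w) W) = (msk (row A w &&& W) 32).card :=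
    T4.pp_eq (sub_lt S (fun i hi => hWD i (land_right i hi)))
  have h8 := S.hi w h1
  have h9 : St.hi k ⟨D, n, A, B, L, H⟩ w = hi' k H w := (hi'_eq H w h.k4 h.k16).symm
  rw [h9] at h8
  rw [h7] at h3'
  change hi' k H w + 1 ≤ dq k p + _ at h3'
  omega

theorem fT_sound {w2 : ℕ} (h : LH2 G k w2 X) (S : Sat G k X f ⟨D, n, A, B, L, H⟩) {I T : ℕ}
    (hc : fT k D A B L H I T = true) : False := by
  unfold fT at hc
  obtain ⟨W, p, hWD, hg, hJS, hne, hcard, hind, hnb, hsl⟩ := pr_sound h.toLH S hc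
  rw [an_eq, Bool.and_eq_true, an_eq, Bool.and_eq_true, an_eq, Bool.and_eq_true] at hg
  obtain ⟨h1, h2, h3, h4⟩ := hg
  have hW : ∀ i ∈ msk W 32, Nat.testBit D i = true := fun i hi => hWD i (mem_msk.1 hi).2
  have hTW := sub_of_land h1
  have hTD : ∀ i, Nat.testBit T i = true → Nat.testBit D i = true := fun i hi => hWD i (hTW i hi)
  have hT : ∀ i ∈ msk T 32, Nat.testBit D i = true := fun i hi => hTD i (mem_msk.1 hi).2
  have hcT : pp T = (msk T 32).card := T4.pp_eq (sub_lt S hTD)
  have h2' : pp T = (msk I 32).card + 1 := beq_eq' h2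
  have h4' := ble_le h4
  have ht0 : tq k p ≠ 0 := by
    intro h0
    rw [h0] at h4'
    exact Nat.not_succ_le_zero _ h4'
  have hTS : (msk T 32).image f ⊆ (msk W 32).image f := by
    refine image_subset_image fun i hi => ?_
    have h5 := mem_msk.1 hi
    exact mem_msk.2 ⟨h5.1, hTW i h5.2⟩
  have hTi : G.IsIndepSet (((msk T 32).image f : Finset V) : Set V) := by
    intro x hx y hy hxy hadj
    rw [Finset.mem_coe] at hx hy
    obtain ⟨i, hi, rfl⟩ := Finset.mem_image.1 hx
    obtain ⟨j, hj, rfl⟩ := Finset.mem_image.1 hy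
    have h5 := la_sound _ _ _ h3 i (mem_msk.1 hi).2
    have h6 : T &&& (row B i ||| bi i) = T := beq_eq' h5
    have h7 : Nat.testBit (T &&& (row B i ||| bi i)) j = true := by
      rw [h6]; exact (mem_msk.1 hj).2
    rw [Nat.testBit_and, Nat.testBit_or, Bool.and_eq_true, Bool.or_eq_true, testBit_row,
      Bool.and_eq_true, testBit_bi] at h7
    rcases h7.2 with h8 | h8
    · exact S.non i j (hT i hi) (hT j hj) h8.2 hadj
    · exact hxy (by rw [h8])
  have h5 := h.tt _ _ (S.sub hW) hJS hne hind hnb p (tq k p) hsl (tq_spec ht0 h.k4)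
    ((msk T 32).image f) hTS hTi (by rw [S.card hT, ← hcT, h2', hcard])
  set U := lu (rr A) (nat_lit 32) T (nat_lit 0) with hU
  have h6 : ((msk T 32).image f).biUnion (fun z => nb G X z) \ (msk W 32).image f ⊆
      (msk (Nat.land U (Nat.xor D W)) 32).image f ∪
        (msk T 32).biUnion (fun i => nb G X (f i) \ (msk (row A i &&& D) 32).image f) := by
    intro z hz
    obtain ⟨hz1, hz2⟩ := mem_sdiff.1 hz
    obtain ⟨y, hy, hz3⟩ := Finset.mem_biUnion.1 hz1
    obtain ⟨i, hi, rfl⟩ := Finset.mem_image.1 hy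
    rw [mem_union]
    by_cases h7 : z ∈ (msk (row A i &&& D) 32).image f
    · left
      obtain ⟨j, hj, rfl⟩ := Finset.mem_image.1 h7
      refine Finset.mem_image_of_mem f ?_
      obtain ⟨h8, h9⟩ := mem_msk_and.1 hj
      have h10 := mem_msk.1 h8
      have h11 := mem_msk.1 h9
      rw [mem_msk]
      refine ⟨h10.1, ?_⟩
      change Nat.testBit (U &&& (D ^^^ W)) j = true
      rw [Nat.testBit_and, Nat.testBit_xor, h11.2]
      have h12 : Nat.testBit U j = true := by
        rw [hU]
        apply lu_sound _ _ _ _ _ h10.1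
        exact Or.inr ⟨i, (mem_msk.1 hi).2, h10.2⟩
      have h13 : Nat.testBit W j = false := by
        rw [Bool.eq_false_iff]
        intro h14
        exact hz2 (Finset.mem_image_of_mem f (mem_msk.2 ⟨h10.1, h14⟩))
      rw [h12, h13]; rfl
    · right
      exact Finset.mem_biUnion.2 ⟨i, hi, mem_sdiff.2 ⟨hz3, h7⟩⟩
  have h7 := (card_le_card h6).trans ((card_union_le _ _).trans
    (Nat.add_le_add_left card_biUnion_le _))
  have hUD : ∀ j, Nat.testBit (Nat.land U (Nat.xor D W)) j = true → Nat.testBit D j = true := by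
    intro j hj
    have h8 : Nat.testBit (U &&& (D ^^^ W)) j = true := hj
    rw [Nat.testBit_and, Bool.and_eq_true, Nat.testBit_xor] at h8
    cases hD : Nat.testBit D j with
    | true => rfl
    | false =>
      have h9 : Nat.testBit W j = false := by
        rw [Bool.eq_false_iff]; intro h10; rw [hWD j h10] at hD; cases hD
      rw [hD, h9] at h8
      exact absurd h8.2 (by simp)
  have h8 : ((msk (Nat.land U (Nat.xor D W)) 32).image f).card = pp (Nat.land U (Nat.xor D W)) := by
    rw [S.card (fun i hi => hUD i (mem_msk.1 hi).2)]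
    exact (T4.pp_eq (sub_lt S hUD)).symm
  rw [h8] at h7
  have h9 : ∑ i ∈ msk T 32, (nb G X (f i) \ (msk (row A i &&& D) 32).image f).card ≤
      ∑ i ∈ msk T 32, Nat.sub (hi' k H i) (dg' D A i) := by
    refine sum_le_sum fun i hi => ?_
    have hiD := hT i hi
    have h10 : (msk (row A i &&& D) 32).image f ⊆ nb G X (f i) := by
      intro z hz
      obtain ⟨j, hj, rfl⟩ := Finset.mem_image.1 hz
      obtain ⟨g1, g2⟩ := mem_msk_and.1 hj
      have g3 := (mem_msk.1 g1).2
      rw [testBit_row, Bool.and_eq_true] at g3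
      have g4 := (mem_msk.1 g2).2
      exact mem_nb.2 ⟨(S.mem j g4).2, S.adj i j hiD g4 g3.2⟩
    have h11 : ((msk (row A i &&& D) 32).image f).card = dg' D A i := by
      rw [S.card (fun j hj => (mem_msk.1 (mem_msk_and.1 hj).2).2)]
      exact (T4.pp_eq (sub_lt S land_right)).symm
    rw [card_sdiff_of_subset h10, h11]
    have h12 := S.hi i hiD
    have h13 : St.hi k ⟨D, n, A, B, L, H⟩ i = hi' k H i := (hi'_eq H i h.k4 h.k16).symm
    rw [h13] at h12
    exact Nat.sub_le_sub_right h12 _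
  rw [ls_eq _ _ _ _ (sub_lt S hTD) (msk_card_le T)] at h4'
  change pp (Nat.land U (Nat.xor D W)) + _ + 1 ≤ _ at h4'
  omega

end

theorem core2_sound {V : Type*} [DecidableEq V] {G : SimpleGraph V} [DecidableRel G.Adj]
    {k w2 : ℕ} {X : Finset V} (h : LH2 G k w2 X) (env : List St)
    (he : ∀ t ∈ env, Dead G k X t) : ∀ (c : Cert2) (D n A B L H : ℕ),
    core2 k w2 env c D n A B L H = true → Dead G k X ⟨D, n, A, B, L, H⟩ := by
  intro c
  induction c with
  | kF F => exact fun D n A B L H hc f S => fF_sound h.toLH S hc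
  | kI I => exact fun D n A B L H hc f S => fI_sound h.toLH S hc
  | kP u w => exact fun D n A B L H hc f S => fP_sound h.toLH S hc
  | kH u => exact fun D n A B L H hc f S => fH_sound h.k4 h.k16 S hc
  | kT I T => exact fun D n A B L H hc f S => fT_sound h S hc
  | kD I w => exact fun D n A B L H hc f S => fD_sound h S hc
  | sb j p =>
    intro D n A B L H hc f S
    obtain ⟨t, h1, h2⟩ := nth_sound env j hc
    exact he t h1 _ (fS_sound h.k4 h.k16 S h2)
  | ad u v c d ihc ihd =>
    intro D n A B L H hc f S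
    change an (tb D u) (an (tb D v)
      (an (fc (Nat.lor A (sy' u v)) fun A' => core2 k w2 env c D n A' B L H)
        (fc (Nat.lor B (sy' u v)) fun B' => core2 k w2 env d D n A B' L H))) = true at hc
    rw [an_eq, Bool.and_eq_true, an_eq, Bool.and_eq_true, an_eq, Bool.and_eq_true, fc_eq, fc_eq,
      tb_eq, tb_eq] at hc
    obtain ⟨hu, hv, h1, h2⟩ := hc
    by_cases ha : G.Adj (f u) (f v)
    · exact ihc _ _ _ _ _ _ h1 f (S.ad_pos hu hv ha)
    · exact ihd _ _ _ _ _ _ h2 f (S.ad_neg hu hv ha)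
  | dg v d c e ihc ihe =>
    intro D n A B L H hc f S
    change an (tb D v) (an (Nat.ble (Nat.succ d) (nat_lit 31))
      (an (fc (Nat.lor H (bi (Nat.add (Nat.mul (nat_lit 32) v) d))) fun H' =>
          core2 k w2 env c D n A B L H')
        (fc (Nat.lor L (bi (Nat.add (Nat.mul (nat_lit 32) v) (Nat.succ d)))) fun L' =>
          core2 k w2 env e D n A B L' H))) = true at hc
    rw [an_eq, Bool.and_eq_true, an_eq, Bool.and_eq_true, an_eq, Bool.and_eq_true, fc_eq, fc_eq,
      tb_eq] at hc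
    obtain ⟨hv, hd, h1, h2⟩ := hc
    have hd' : d < 31 := ble_le hd
    rcases le_or_gt (nb G X (f v)).card d with ha | ha
    · exact ihc _ _ _ _ _ _ h1 f (S.dg_pos h.k4 h.k16 hd' ha)
    · exact ihe _ _ _ _ _ _ h2 f (S.dg_neg h.k4 h.k16 hd' ha)
  | nw v K c ihc =>
    intro D n A B L H hc f S
    change fc (Nat.land D K) (fun D' => an (tb D' v)
      (an (Nat.ble (Nat.succ n) (nat_lit 32))
      (an (Nat.beq (Nat.land (Nat.lor (Nat.lor (rr A v) (rr B v)) (bi v)) D') D')
      (an (Nat.ble (Nat.succ (pp (Nat.land (rr A v) D'))) (lo' k L v))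
      (an (Nat.beq (rr L n) (nat_lit 0)) (an (Nat.beq (rr H n) (nat_lit 0))
      (an (Nat.beq (rr A n) (nat_lit 0)) (an (Nat.beq (rr B n) (nat_lit 0))
      (an (Nat.beq (Nat.land A (cm n)) (nat_lit 0)) (an (Nat.beq (Nat.land B (cm n)) (nat_lit 0))
        (fc (Nat.lor A (sy' v n)) fun A' => fc (Nat.lor D' (bi n)) fun D'' =>
          fc (Nat.succ n) fun n' => core2 k w2 env c D'' n' A' B L H))))))))))) = true at hc
    rw [fc_eq, an_eq, Bool.and_eq_true, an_eq, Bool.and_eq_true, an_eq, Bool.and_eq_true, an_eq,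
      Bool.and_eq_true, an_eq, Bool.and_eq_true, an_eq, Bool.and_eq_true, an_eq,
      Bool.and_eq_true, an_eq, Bool.and_eq_true, an_eq, Bool.and_eq_true, an_eq,
      Bool.and_eq_true, fc_eq, fc_eq, fc_eq, tb_eq] at hc
    obtain ⟨hv, hn, hdec, hlt, hL, hH, hA, hB, hcA, hcB, hrec⟩ := hc
    have hn' : n < 32 := ble_le hn
    have S' := S.drop K
    have hvD : Nat.testBit D v = true := land_left v hv
    have hlt32 : ∀ j, Nat.testBit (D &&& K) j = true → j < 32 := fun j hj => S'.lt32 hj
    have hdec' : ∀ j, Nat.testBit (D &&& K) j = true → j = v ∨ bt A v j = true ∨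
        bt B v j = true := by
      intro j hj
      have h1 : ((row A v ||| row B v) ||| bi v) &&& (D &&& K) = D &&& K := beq_eq' hdec
      have h2 : Nat.testBit (((row A v ||| row B v) ||| bi v) &&& (D &&& K)) j = true := by
        rw [h1]; exact hj
      rw [Nat.testBit_and, Nat.testBit_or, Nat.testBit_or, Bool.and_eq_true, Bool.or_eq_true,
        Bool.or_eq_true, testBit_row, testBit_row, Bool.and_eq_true, Bool.and_eq_true,
        testBit_bi] at h2
      rcases h2.1 with (h3 | h3) | h3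
      · exact Or.inr (Or.inl h3.2)
      · exact Or.inr (Or.inr h3.2)
      · exact Or.inl h3.symm
    have hlo : loA k L n (k - 2) = k := by
      have h2 := (loA_iff (k := k) (L := L) (i := n) (c := k) (k - 2)).2
        ⟨le_rfl, fun d h3 h4 h5 => by
          rw [row_bit (by have := h.k16; omega) hL] at h5; cases h5⟩
      have h3 := (loA_iff (k := k) (L := L) (i := n) (c := loA k L n (k - 2)) (k - 2)).1 le_rfl
      omega
    have hhi : hiA k H n (k - 2) = 2 * k - 2 := by
      have hk4 := h.k4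
      have h2 := (hiA_iff (k := k) (H := H) (i := n) (c := 2 * k - 2) (k - 2) (by omega)).2
        ⟨le_rfl, fun d h3 h4 h5 => by
          rw [row_bit (by have := h.k16; omega) hH] at h5; cases h5⟩
      have h3 := (hiA_iff (k := k) (H := H) (i := n) (c := hiA k H n (k - 2)) (k - 2)
        (by omega)).1 le_rfl
      omega
    have hlt' := ble_le hlt
    rw [lo'_eq h.k16, T4.pp_eq (by
      apply Nat.lt_pow_two_of_testBit
      intro i hi
      rw [Bool.eq_false_iff]
      intro h'
      have := hlt32 i (land_right i h')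
      omega)] at hlt'
    obtain ⟨g, hg⟩ := S'.nw h.toLH (v := v) hv hn' (by
        intro j hj
        exact hdec' j (mem_msk.1 hj).2) (by
        have h1 : msk (row A v &&& (D &&& K)) n = msk (row A v &&& (D &&& K)) 32 := by
          ext i
          rw [mem_msk, mem_msk]
          constructor
          · rintro ⟨h1, h2⟩
            exact ⟨by omega, h2⟩
          · rintro ⟨h1, h2⟩
            rw [Nat.testBit_and, Bool.and_eq_true] at h2
            exact ⟨(S'.mem i h2.2).1, by rw [Nat.testBit_and, Bool.and_eq_true]; exact h2⟩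
        change (msk (row A v &&& (D &&& K)) n).card < loA k L v (k - 2)
        rw [h1]
        exact hlt') hlo hhi (by
        intro j hj
        have hj' := hlt32 j (mem_msk.1 hj).2
        exact ⟨row_bit hj' hA, cm_bit hj' hcA, row_bit hj' hB, cm_bit hj' hcB⟩)
        (row_bit hn' hA)
    have h9 : Nat.lor (Nat.land D K) (bi n) = (D &&& K) ||| (1 <<< n) := rfl
    rw [h9] at hrec
    exact ihc _ _ _ _ _ _ hrec g hg
  | fl v c ihc =>
    intro D n A B L H hc f S
    change an (tb D v) (an (Nat.beq (dg' D A v) (hi' k H v))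
      (fc (lv (fun m => sy' v m) (nat_lit 32) (nm D A B v) B) fun B' =>
        core2 k w2 env c D n A B' L H)) = true at hc
    rw [an_eq, Bool.and_eq_true, an_eq, Bool.and_eq_true, fc_eq, tb_eq] at hc
    obtain ⟨hv, hcl, h1⟩ := hc
    refine ihc _ _ _ _ _ _ h1 f ⟨S.n32, S.mem, S.inj, S.adj, ?_, S.lo, S.hi⟩
    have hcl' : St.cl k ⟨D, n, A, B, L, H⟩ v = true := by
      unfold St.cl
      rw [← S.dg'_eq v]
      have h5 : St.hi k ⟨D, n, A, B, L, H⟩ v = hi' k H v := (hi'_eq H v h.k4 h.k16).symm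
      rw [h5]; exact hcl
    have hnm : ∀ m, Nat.testBit (nm D A B v) m = true → Nat.testBit D m = true ∧
        ¬ G.Adj (f v) (f m) := by
      intro m hm
      have h2 : nm D A B v = ((2 ^ 32 - 1) ^^^ ((row A v ||| row B v) ||| bi v)) &&& D := rfl
      rw [h2, Nat.testBit_and, Nat.testBit_xor, Nat.testBit_or, Nat.testBit_or,
        Bool.and_eq_true] at hm
      have hmD := hm.2
      refine ⟨hmD, fun hadj => ?_⟩
      have h3 := testBit_nbr.1 (S.closed_adj hv hcl' hmD hadj)
      have h4 := hm.1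
      rw [Nat.testBit_two_pow_sub_one, testBit_row, h3.2.1] at h4
      simp [h3.1] at h4
    intro i j hi hj hb
    have hb' : Nat.testBit (lv (fun m => sy' v m) 32 (nm D A B v) B) (32 * i + j) = true := hb
    rcases lv_sound _ _ _ _ _ hb' with h2 | ⟨m, h2, h3⟩
    · exact S.non i j hi hj h2
    · have h4 := hnm m h2
      have h5 : bt (sy v m) i j = true := h3
      rw [bt_sy (S.lt32 hj) (S.lt32 hv) (S.lt32 h4.1)] at h5
      rcases h5 with ⟨h6, h7⟩ | ⟨h6, h7⟩
      · rw [h6, h7]; exact h4.2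
      · rw [h6, h7]; exact fun h' => h4.2 h'.symm

/-- soundness of the fast checker -/
theorem fast2_sound {V : Type*} [DecidableEq V] {G : SimpleGraph V} [DecidableRel G.Adj]
    {k w2 : ℕ} {X : Finset V} (h : LH2 G k w2 X) (env : List St)
    (he : ∀ t ∈ env, Dead G k X t) (c : Cert2) (s : St) (hc : chk2 k w2 env c s = true) :
    Dead G k X s := by
  obtain ⟨D, n, A, B, L, H⟩ := s
  exact core2_sound h env he c D n A B L H hc

end Pool.Agent.TwoDens.T4
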