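import Pool.Agent.TK4.Fast2

/-!
# The fast checker with rules for open vertices
-/

open Finset

namespace Pool.Agent.TwoDens.T4

open Pool.Agent.TwoDens Pool.Agent.TwoDens.RK Pool.Agent.TwoDens.DD

/-- certificates -/
inductive Cert3 where
  | kF (F : ℕ) : Cert3
  | kI (I : ℕ) : Cert3
  | kP (u w : ℕ) : Cert3
  | kH (u : ℕ) : Cert3
  | kO (J W : ℕ) : Cert3
  | kD (J W w : ℕ) : Cert3
  | kT (J W T : ℕ) : Cert3
  | sb (j p : ℕ) : Cert3
  | ad (u v : ℕ) (c d : Cert3) : Cert3
  | dg (v d : ℕ) (c e : Cert3) : Cert3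
  | nw (v K m : ℕ) (c : Cert3) : Cert3
  | fl (v : ℕ) (c : Cert3) : Cert3

noncomputable section

/-- the bound for a vertex of `W` outside `J` -/
def tw3 (k D A B L W O c w : ℕ) : ℕ :=
  fc (Nat.land (rr A w) D) fun nb => fc (pp nb) fun d => fc (mx (lo' k L w) d) fun l =>
    fc (pp (Nat.land nb O)) fun o => fc (pp (Nat.land (Nat.lor (rr B w) (bi w)) W)) fun b =>
      mx (Nat.add l o) (Nat.sub (Nat.add (Nat.mul (nat_lit 2) l) b) c)

/-- all 32 bits -/
def a32 : ℕ := nat_lit 4294967295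

/-- the vertices certainly outside the closed neighbourhood -/
def oo' (D B J W : ℕ) : ℕ :=
  Nat.land (Nat.xor D W)
    (Nat.xor a32 (lu (fun i => Nat.xor a32 (rr B i)) (nat_lit 32) J (nat_lit 0)))

def X1 (k c u : ℕ) : ℕ :=
  Nat.add (Nat.mul (c4 k) c) (Nat.mul (Nat.sub (Nat.mul (nat_lit 3) k) (nat_lit 3)) u)

def X2 (k c u : ℕ) : ℕ :=
  Nat.add (Nat.mul (Nat.add (c4 k) (Nat.succ k)) c)
    (Nat.mul (Nat.sub (Nat.mul (nat_lit 3) k) (nat_lit 3)) u)

/-- `κ j + 2` -/
def kj (k j : ℕ) : ℕ := Nat.add (Nat.mul (kp k) j) (nat_lit 2)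

def B1 (k D A B L J W O c j : ℕ) : ℕ :=
  fc (kj k j) fun y => ls (fun w => ite' (tb J w) (dg' D A w) (tw3 k D A B L W O c w))
    (nat_lit 32) W y

def B2 (k D A L J W j : ℕ) : ℕ :=
  fc (Nat.add (kj k j) (Nat.succ (Nat.mul (nat_lit 2) k))) fun y =>
    ls (fun w => Nat.mul (nat_lit 2)
      (ite' (tb J w) (dg' D A w) (mx (lo' k L w) (dg' D A w)))) (nat_lit 32) W y

/-- common part: `j = |J|`, `c = |W|`, `u` possible new vertices, `O` certainly outside -/
def co (k D A B H J W : ℕ) (g : ℕ → ℕ → ℕ → ℕ → Bool) : Bool :=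
  an (Nat.beq (Nat.land J W) J) (an (Nat.beq (Nat.land W D) W)
    (an (la (fun i => an (Nat.beq (Nat.land J (Nat.lor (rr B i) (bi i))) J)
      (Nat.beq (Nat.land (Nat.land (rr A i) D) W) (Nat.land (rr A i) D))) (nat_lit 32) J)
    (fc (pp J) fun j => an (Nat.ble (nat_lit 1) j) (fc (pp W) fun c =>
      fc (ls (fun i => Nat.sub (hi' k H i) (dg' D A i)) (nat_lit 32) J (nat_lit 0)) fun u =>
        fc (oo' D B J W) fun O => g j c u O))))

def fO (k w2 D A B L H J W : ℕ) : Bool :=
  co k D A B H J W fun j c u O =>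
    oo (an (Nat.beq j (nat_lit 2)) (Nat.ble (Nat.succ (Nat.add c u)) w2))
      (oo (Nat.ble (Nat.succ (X1 k c u)) (B1 k D A B L J W O (Nat.add c u) j))
        (an (Nat.ble (nat_lit 3) c) (Nat.ble (Nat.succ (X2 k c u)) (B2 k D A L J W j))))

/-- the bound for the potential -/
def pb (k D A B L J W O j c u : ℕ) : ℕ :=
  fc (Nat.sub (X1 k c u) (B1 k D A B L J W O (Nat.add c u) j)) fun p =>
    ite' (Nat.ble (nat_lit 3) c)
      (fc (Nat.sub (X2 k c u) (B2 k D A L J W j)) fun q => mn p q) p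

def fD3 (k D A B L H J W w : ℕ) : Bool :=
  co k D A B H J W fun j c u O => an (tb O w)
    (fc (pb k D A B L J W O j c u) fun p =>
      Nat.ble (Nat.succ (hi' k H w)) (Nat.add (dq k p) (pp (Nat.land (rr A w) W))))

def fT3 (k D A B L H J W T : ℕ) : Bool :=
  co k D A B H J W fun j c u O => an (Nat.beq (Nat.land T W) T) (an (Nat.beq (pp T) (Nat.succ j))
    (an (la (fun i => Nat.beq (Nat.land T (Nat.lor (rr B i) (bi i))) T) (nat_lit 32) T)
      (fc (pb k D A B L J W O j c u) fun p =>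
      (Nat.ble (Nat.succ (ls (fun i => Nat.sub (hi' k H i) (dg' D A i)) (nat_lit 32) T
        (pp (Nat.land (lu (rr A) (nat_lit 32) T (nat_lit 0)) (Nat.xor D W))))) (tq k p)))))

/-- all 1024 bits -/
def allb : ℕ := nat_lit 179769313486231590772930519078902473361797697894230657273430081157732675805500963132708477322407536021120113879871393357658789768814416622492847430639474124377767893424865485276302219601246094119453082952085005768838150682342462881473913110540827237163350510684586298239947245938479716304835356329624224137215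

/-- remove the row and the column `m` -/
def clr (M m : ℕ) : ℕ :=
  Nat.land M (Nat.xor allb (Nat.lor (Nat.shiftLeft a32 (Nat.mul (nat_lit 32) m))
    (cm m)))

/-- the checker -/
def core3 (k w2 : ℕ) (env : List St) (c : Cert3) : ℕ → ℕ → ℕ → ℕ → ℕ → ℕ → Bool :=
  Cert3.rec (motive := fun _ => ℕ → ℕ → ℕ → ℕ → ℕ → ℕ → Bool)
    (fun F D _ A _ _ _ => fF k D A F)
    (fun I D _ A B L H => fI k w2 D A B L H I)
    (fun u w D _ A B _ H => fP k w2 D A B H u w)
    (fun u D _ A _ L H => fH k D A L H u)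
    (fun J W D _ A B L H => fO k w2 D A B L H J W)
    (fun J W w D _ A B L H => fD3 k D A B L H J W w)
    (fun J W T D _ A B L H => fT3 k D A B L H J W T)
    (fun j p D _ A B L H => nth env j (fS k D A B L H p))
    (fun u v _ _ ihc ihd D n A B L H => an (tb D u) (an (tb D v)
      (an (fc (Nat.lor A (sy' u v)) fun A' => ihc D n A' B L H)
        (fc (Nat.lor B (sy' u v)) fun B' => ihd D n A B' L H))))
    (fun v d _ _ ihc ihe D n A B L H => an (tb D v) (an (Nat.ble (Nat.succ d) (nat_lit 31))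
      (an (fc (Nat.lor H (bi (Nat.add (Nat.mul (nat_lit 32) v) d))) fun H' => ihc D n A B L H')
        (fc (Nat.lor L (bi (Nat.add (Nat.mul (nat_lit 32) v) (Nat.succ d)))) fun L' =>
          ihe D n A B L' H))))
    (fun v K m _ ihc D _ A B L H => fc (Nat.land D K) fun D' => an (tb D' v)
      (an (Nat.ble (Nat.succ m) (nat_lit 32)) (an (ite' (tb D' m) false true)
      (an (Nat.beq (Nat.land (Nat.lor (Nat.lor (rr A v) (rr B v)) (bi v)) D') D')
      (an (Nat.ble (Nat.succ (pp (Nat.land (rr A v) D'))) (lo' k L v))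
        (fc (Nat.lor (clr A m) (sy' v m)) fun A' => fc (Nat.lor D' (bi m)) fun D'' =>
          fc (clr B m) fun B' => fc (clr L m) fun L' => fc (clr H m) fun H' =>
            ihc D'' (nat_lit 32) A' B' L' H'))))))
    (fun v _ ihc D n A B L H => an (tb D v) (an (Nat.beq (dg' D A v) (hi' k H v))
      (fc (lv (fun m => sy' v m) (nat_lit 32) (nm D A B v) B) fun B' => ihc D n A B' L H))) c

/-- the checker for a state -/
def chk3 (k w2 : ℕ) (env : List St) (c : Cert3) (s : St) : Bool :=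
  St.rec (motive := fun _ => Bool) (fun D n A B L H => core3 k w2 env c D n A B L H) s

end

/-! ### Soundness -/

theorem ar1 {k t E u : ℕ} (hk : 4 ≤ k) (h1 : t ≤ E) (h2 : E ≤ u) :
    (4 * k - 2) * t ≤ (3 * k - 3) * u + E + k * t := by
  obtain ⟨m, rfl⟩ : ∃ m, k = m + 4 := ⟨k - 4, by omega⟩
  have e1 : 4 * (m + 4) - 2 = 4 * m + 14 := by omega
  have e2 : 3 * (m + 4) - 3 = 3 * m + 9 := by omega
  rw [e1, e2]
  have := Nat.mul_le_mul_left (3 * m + 9) (h1.trans h2)
  nlinarith

theorem ar2 {k t E u : ℕ} (hk : 4 ≤ k) (h1 : t ≤ E) (h2 : E ≤ u) :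
    (4 * k - 2) * t + (k + 1) * t ≤ (3 * k - 3) * u + 2 * E + 2 * (k * t) := by
  obtain ⟨m, rfl⟩ : ∃ m, k = m + 4 := ⟨k - 4, by omega⟩
  have e1 : 4 * (m + 4) - 2 = 4 * m + 14 := by omega
  have e2 : 3 * (m + 4) - 3 = 3 * m + 9 := by omega
  rw [e1, e2]
  have := Nat.mul_le_mul_left (3 * m + 9) (h1.trans h2)
  nlinarith

section
variable {V : Type*} [DecidableEq V]
variable {G : SimpleGraph V} [DecidableRel G.Adj] {k : ℕ} {X : Finset V} {f : ℕ → V}
variable {D n A B L H : ℕ}

theorem lnot_bit {M j : ℕ} (hj : j < 32) (h : Nat.testBit (Nat.xor a32 M) j = false) :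
    Nat.testBit M j = true := by
  have h1 : Nat.xor a32 M = (2 ^ 32 - 1) ^^^ M := rfl
  rw [h1, Nat.testBit_xor, Nat.testBit_two_pow_sub_one] at h
  simpa [hj] using h

theorem xor_alive {D W : ℕ} (hWD : ∀ i, Nat.testBit W i = true → Nat.testBit D i = true) {j : ℕ}
    (h : Nat.testBit (D ^^^ W) j = true) :
    Nat.testBit D j = true ∧ Nat.testBit W j = false := by
  rw [Nat.testBit_xor] at h
  cases hD : Nat.testBit D j with
  | true => rw [hD] at h; exact ⟨rfl, by simpa using h⟩
  | false =>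
    have h9 : Nat.testBit W j = false := by
      rw [Bool.eq_false_iff]; intro h10; rw [hWD j h10] at hD; cases hD
    rw [hD, h9] at h
    exact absurd h (by simp)

/-- the known neighbours and the others -/
theorem Sat.known (S : Sat G k X f ⟨D, n, A, B, L, H⟩) {i : ℕ} (hi : Nat.testBit D i = true) :
    (msk (row A i &&& D) 32).image f ⊆ nb G X (f i) ∧
      ((msk (row A i &&& D) 32).image f).card = dg' D A i := by
  constructor
  · intro z hz
    obtain ⟨j, hj, rfl⟩ := Finset.mem_image.1 hz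
    obtain ⟨g1, g2⟩ := mem_msk_and.1 hj
    have g3 := (mem_msk.1 g1).2
    rw [testBit_row, Bool.and_eq_true] at g3
    have g4 := (mem_msk.1 g2).2
    exact mem_nb.2 ⟨(S.mem j g4).2, S.adj i j hi g4 g3.2⟩
  · rw [S.card (fun j hj => (mem_msk.1 (mem_msk_and.1 hj).2).2)]
    exact (T4.pp_eq (sub_lt S land_right)).symm

theorem co_sound {w2 : ℕ} (h : LH G k w2 X) (S : Sat G k X f ⟨D, n, A, B, L, H⟩) {J W : ℕ}
    {g : ℕ → ℕ → ℕ → ℕ → Bool} (hc : co k D A B H J W g = true) :
    ∃ (u : ℕ) (Z : Finset V), (∀ i, Nat.testBit W i = true → Nat.testBit D i = true) ∧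
      g (msk J 32).card (pp W) u (oo' D B J W) = true ∧ Z ⊆ X ∧ (msk J 32).image f ⊆ Z ∧
      (msk W 32).image f ⊆ Z ∧
      ((msk J 32).image f).Nonempty ∧ ((msk J 32).image f).card = (msk J 32).card ∧
      G.IsIndepSet (((msk J 32).image f : Finset V) : Set V) ∧
      (∀ z ∈ (msk J 32).image f, nb G X z ⊆ Z) ∧
      (∀ w, Nat.testBit (oo' D B J W) w = true → Nat.testBit D w = true ∧ f w ∉ Z) ∧
      Z.card ≤ pp W + u ∧ pp W ≤ Z.card ∧
      (4 * k - 2) * Z.card + e2 G Z + ∑ w ∈ msk W 32,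
          ite' (tb J w) (dg' D A w) (tw3 k D A B L W (oo' D B J W) (pp W + u) w) ≤
        2 * (∑ v ∈ Z, (nb G X v).card) + X1 k (pp W) u ∧
      (3 ≤ pp W → (4 * k - 2) * Z.card + e2 G Z + (2 * k + 1) + ∑ w ∈ msk W 32,
          2 * ite' (tb J w) (dg' D A w) (mx (lo' k L w) (dg' D A w)) ≤
        2 * (∑ v ∈ Z, (nb G X v).card) + X2 k (pp W) u) := by
  unfold co at hc
  rw [an_eq, Bool.and_eq_true, an_eq, Bool.and_eq_true, an_eq, Bool.and_eq_true, fc_eq, an_eq,
    Bool.and_eq_true, fc_eq, fc_eq, fc_eq] at hc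
  obtain ⟨h1, h2, h3, h4, h5⟩ := hc
  have hJW := sub_of_land h1
  have hWD := sub_of_land h2
  have hJD : ∀ i, Nat.testBit J i = true → Nat.testBit D i = true := fun i hi => hWD i (hJW i hi)
  have hW : ∀ i ∈ msk W 32, Nat.testBit D i = true := fun i hi => hWD i (mem_msk.1 hi).2
  have hJ : ∀ i ∈ msk J 32, Nat.testBit D i = true := fun i hi => hJD i (mem_msk.1 hi).2
  have hcJ : pp J = (msk J 32).card := T4.pp_eq (sub_lt S hJD)
  have hcW : pp W = (msk W 32).card := T4.pp_eq (sub_lt S hWD)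
  have hprop : ∀ i, Nat.testBit J i = true →
      (∀ j, Nat.testBit J j = true → j ≠ i → bt B i j = true) ∧
      (∀ j, Nat.testBit (row A i &&& D) j = true → Nat.testBit W j = true) := by
    intro i hi
    have h6 := la_sound _ _ _ h3 i hi
    rw [an_eq, Bool.and_eq_true] at h6
    refine ⟨fun j hj hji => ?_, fun j hj => ?_⟩
    · have h7 := sub_of_land h6.1 j hj
      have h8 : Nat.testBit (row B i ||| bi i) j = true := h7
      rw [Nat.testBit_or, Bool.or_eq_true, testBit_row, Bool.and_eq_true, testBit_bi] at h8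
      rcases h8 with h8 | h8
      · exact h8.2
      · exact (hji h8.symm).elim
    · have h7 : (row A i &&& D) &&& W = row A i &&& D := beq_eq' h6.2
      rw [← h7, Nat.testBit_and, Bool.and_eq_true] at hj
      exact hj.2
  have hJsub : msk J 32 ⊆ msk W 32 := by
    intro i hi
    have h6 := mem_msk.1 hi
    exact mem_msk.2 ⟨h6.1, hJW i h6.2⟩
  have h4' : 1 ≤ pp J := ble_le h4
  set u := ls (fun i => Nat.sub (hi' k H i) (dg' D A i)) (nat_lit 32) J (nat_lit 0) with hu
  have hu' : u = ∑ i ∈ msk J 32, Nat.sub (hi' k H i) (dg' D A i) := by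
    rw [hu, ls_eq _ _ _ _ (sub_lt S hJD) (msk_card_le J)]
    exact Nat.zero_add _
  set O := oo' D B J W with hO
  set P := (msk W 32).image f with hP
  set Z := P ∪ (msk J 32).biUnion (fun i => nb G X (f i)) with hZ
  have hPX : P ⊆ X := S.sub hW
  have hZX : Z ⊆ X := by
    refine union_subset hPX ?_
    intro z hz
    obtain ⟨i, _, hi2⟩ := Finset.mem_biUnion.1 hz
    exact (mem_nb.1 hi2).1
  have hPZ : P ⊆ Z := subset_union_left
  have hPc : P.card = pp W := by rw [hP, S.card hW, hcW]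
  -- extra degrees
  set ex : ℕ → ℕ := fun i => (nb G X (f i) \ (msk (row A i &&& D) 32).image f).card with hex
  have hexd : ∀ i ∈ msk J 32, dg' D A i + ex i = (nb G X (f i)).card := by
    intro i hi
    obtain ⟨k1, k2⟩ := S.known (hJ i hi)
    have k3 := card_sdiff_add_card_eq_card k1
    show dg' D A i + (nb G X (f i) \ (msk (row A i &&& D) 32).image f).card = _
    omega
  have hexu : ∑ i ∈ msk J 32, ex i ≤ u := by
    rw [hu']
    refine sum_le_sum fun i hi => ?_
    have k1 := hexd i hi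
    have k2 := S.hi i (hJ i hi)
    have k3 : St.hi k ⟨D, n, A, B, L, H⟩ i = hi' k H i := (hi'_eq H i h.k4 h.k16).symm
    rw [k3] at k2
    change ex i ≤ hi' k H i - dg' D A i
    omega
  have hUE : (Z \ P).card ≤ ∑ i ∈ msk J 32, ex i := by
    refine le_trans (card_le_card ?_) card_biUnion_le
    intro z hz
    obtain ⟨hz1, hz2⟩ := mem_sdiff.1 hz
    rw [hZ, mem_union] at hz1
    rcases hz1 with hz1 | hz1
    · exact (hz2 hz1).elim
    · obtain ⟨i, hi, hz3⟩ := Finset.mem_biUnion.1 hz1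
      refine Finset.mem_biUnion.2 ⟨i, hi, mem_sdiff.2 ⟨hz3, fun hz4 => hz2 ?_⟩⟩
      obtain ⟨j, hj, rfl⟩ := Finset.mem_image.1 hz4
      have h6 := mem_msk.1 hj
      exact Finset.mem_image_of_mem f (mem_msk.2 ⟨h6.1, (hprop i (mem_msk.1 hi).2).2 j h6.2⟩)
  have hcZ : Z.card = P.card + (Z \ P).card := by
    have := card_sdiff_add_card_eq_card hPZ
    omega
  have hout : ∀ w, Nat.testBit O w = true → Nat.testBit D w = true ∧ f w ∉ Z := by
    intro w hw
    have h6 : Nat.testBit ((D ^^^ W) &&& (a32 ^^^ (lu (fun i => Nat.xor a32 (rr B i)) 32 J 0))) w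
        = true := hw
    rw [Nat.testBit_and, Bool.and_eq_true] at h6
    obtain ⟨h7, h8⟩ := xor_alive hWD h6.1
    have hw32 : w < 32 := S.lt32 (i := w) h7
    refine ⟨h7, fun h9 => ?_⟩
    rw [hZ, mem_union] at h9
    rcases h9 with h9 | h9
    · have h10 := (mem_msk.1 (S.mem_image hW h7 h9)).2
      rw [h8] at h10; cases h10
    · obtain ⟨i, hi, h10⟩ := Finset.mem_biUnion.1 h9
      have hiJ := (mem_msk.1 hi).2
      have h11 : bt B i w = true := by
        by_contra hcon
        have h12 : Nat.testBit (lu (fun i => Nat.xor a32 (rr B i)) 32 J 0) w = true := by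
          apply lu_sound _ _ _ _ _ hw32
          refine Or.inr ⟨i, hiJ, ?_⟩
          by_contra hcon2
          have h13 := lnot_bit hw32 (by rw [Bool.eq_false_iff]; exact hcon2)
          rw [rr_eq, testBit_row, Bool.and_eq_true] at h13
          exact hcon h13.2
        have h14 := h6.2
        rw [Nat.testBit_xor, h12] at h14
        have h15 : a32 = 2 ^ 32 - 1 := rfl
        rw [h15, Nat.testBit_two_pow_sub_one] at h14
        simp [hw32] at h14
      exact S.non i w (hJD i hiJ) h7 h11 (mem_nb.1 h10).2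
  -- inner degrees
  have hnbZ : ∀ v, nb G Z v ⊆ nb G X v := by
    intro v z hz
    rw [mem_nb] at hz ⊢
    exact ⟨hZX hz.1, hz.2⟩
  have hJt : ∀ w ∈ msk J 32, dg' D A w + ex w + (nb G Z (f w)).card ≤
      2 * (nb G X (f w)).card := by
    intro w hw
    have k1 := hexd w hw
    have k2 := card_le_card (hnbZ (f w))
    omega
  have hWt : ∀ w ∈ msk W 32, tw3 k D A B L W O (pp W + u) w + (nb G Z (f w)).card ≤
      2 * (nb G X (f w)).card := by
    intro w hw
    have hwD := hW w hw
    unfold tw3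
    rw [fc_eq, fc_eq, fc_eq, fc_eq, fc_eq, mx_eq, mx_eq]
    have hlo : lo' k L w ≤ (nb G X (f w)).card := by
      rw [lo'_eq h.k16]; exact S.lo w hwD
    have hdg : pp (Nat.land (rr A w) D) ≤ (nb G X (f w)).card := by
      have k1 := S.dg_le (i := w) hwD
      rw [← S.dg'_eq] at k1
      exact k1
    have hle := card_le_card (hnbZ (f w))
    have k3 : pp (Nat.land (Nat.land (rr A w) D) O) + (nb G Z (f w)).card ≤
        (nb G X (f w)).card := by
      have k4 : ∀ j, Nat.testBit (Nat.land (Nat.land (rr A w) D) O) j = true →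
          Nat.testBit D j = true := fun j hj => land_right j (land_left j hj)
      rw [T4.pp_eq (sub_lt S k4), ← S.card (fun j hj => k4 j (mem_msk.1 hj).2),
        ← card_union_of_disjoint]
      · refine card_le_card (union_subset ?_ (hnbZ _))
        refine Subset.trans ?_ (S.known hwD).1
        refine image_subset_image fun j hj => ?_
        have k5 := mem_msk.1 hj
        exact mem_msk.2 ⟨k5.1, land_left j k5.2⟩
      · rw [Finset.disjoint_left]
        intro z hz hz2
        obtain ⟨j, hj, rfl⟩ := Finset.mem_image.1 hz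
        exact (hout j (land_right j (mem_msk.1 hj).2)).2 (mem_nb.1 hz2).1
    have k6 : pp (Nat.land (Nat.lor (rr B w) (bi w)) W) + (nb G Z (f w)).card ≤ pp W + u := by
      have k7 : ∀ j, Nat.testBit (Nat.land (Nat.lor (rr B w) (bi w)) W) j = true →
          Nat.testBit D j = true := fun j hj => hWD j (land_right j hj)
      have k8 : (msk (Nat.land (Nat.lor (rr B w) (bi w)) W) 32).card + (nb G Z (f w)).card ≤
          Z.card := by
        rw [← S.card (fun j hj => k7 j (mem_msk.1 hj).2), ← card_union_of_disjoint]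
        · refine card_le_card (union_subset ?_ (fun z hz => (mem_nb.1 hz).1))
          refine Subset.trans ?_ hPZ
          refine image_subset_image fun j hj => ?_
          have k5 := mem_msk.1 hj
          exact mem_msk.2 ⟨k5.1, land_right j k5.2⟩
        · rw [Finset.disjoint_left]
          intro z hz hz2
          obtain ⟨j, hj, rfl⟩ := Finset.mem_image.1 hz
          have k9 := (mem_msk.1 hj).2
          have k10 := (mem_nb.1 hz2).2
          have k11 : Nat.testBit (row B w ||| bi w) j = true := land_left j k9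
          rw [Nat.testBit_or, Bool.or_eq_true, testBit_row, Bool.and_eq_true, testBit_bi] at k11
          rcases k11 with k11 | k11
          · exact S.non w j hwD (k7 j k9) k11.2 k10
          · rw [k11] at k10
            exact G.loopless.irrefl _ k10
      rw [T4.pp_eq (sub_lt S k7)]
      have := hUE.trans hexu
      omega
    have hl : max (lo' k L w) (pp (Nat.land (rr A w) D)) ≤ (nb G X (f w)).card := max_le hlo hdg
    change max (max (lo' k L w) (pp (Nat.land (rr A w) D)) +
        pp (Nat.land (Nat.land (rr A w) D) O))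
      (2 * max (lo' k L w) (pp (Nat.land (rr A w) D)) +
        pp (Nat.land (Nat.lor (rr B w) (bi w)) W) - (pp W + u)) + _ ≤ _
    generalize max (lo' k L w) (pp (Nat.land (rr A w) D)) = l at *
    generalize pp (Nat.land (Nat.land (rr A w) D) O) = o at *
    generalize pp (Nat.land (Nat.lor (rr B w) (bi w)) W) = b at *
    generalize (nb G Z (f w)).card = x at *
    generalize (nb G X (f w)).card = y at *
    rcases le_total (l + o) (2 * l + b - (pp W + u)) with h9 | h9
    · rw [max_eq_right h9]; omega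
    · rw [max_eq_left h9]; omega
  have hsplit : ∀ F : V → ℕ, ∑ v ∈ Z, F v = ∑ w ∈ msk W 32, F (f w) + ∑ v ∈ Z \ P, F v := by
    intro F
    rw [← sum_sdiff hPZ, Nat.add_comm, hP, sum_image (S.injOn hW)]
  have hJsum : ∀ F : ℕ → ℕ, ∑ w ∈ msk W 32, (if w ∈ msk J 32 then F w else 0) =
      ∑ w ∈ msk J 32, F w := by
    intro F
    rw [← sum_filter]
    congr 1
    ext w
    rw [mem_filter]
    exact ⟨fun h => h.2, fun h => ⟨hJsub h, h⟩⟩
  have htb : ∀ w ∈ msk W 32, (tb J w = true ↔ w ∈ msk J 32) := by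
    intro w hw
    rw [tb_eq, mem_msk]
    exact ⟨fun h => ⟨(mem_msk.1 hw).1, h⟩, fun h => h.2⟩
  have hUk : ∀ v ∈ Z \ P, k + (nb G Z v).card ≤ 2 * (nb G X v).card := by
    intro v hv
    have k1 := h.lo v (hZX (mem_sdiff.1 hv).1)
    have k2 := card_le_card (hnbZ v)
    omega
  have hs1 : ∑ w ∈ msk W 32, ite' (tb J w) (dg' D A w) (tw3 k D A B L W O (pp W + u) w) +
      ∑ i ∈ msk J 32, ex i + k * (Z \ P).card + e2 G Z ≤ 2 * (∑ v ∈ Z, (nb G X v).card) := by
    have k1 : e2 G Z = ∑ v ∈ Z, (nb G Z v).card := rfl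
    rw [k1, hsplit, hsplit, Nat.mul_add, mul_sum, mul_sum]
    have k2 : ∑ w ∈ msk W 32, (ite' (tb J w) (dg' D A w) (tw3 k D A B L W O (pp W + u) w) +
        (if w ∈ msk J 32 then ex w else 0) + (nb G Z (f w)).card) ≤
        ∑ w ∈ msk W 32, 2 * (nb G X (f w)).card := by
      refine sum_le_sum fun w hw => ?_
      by_cases k3 : w ∈ msk J 32
      · rw [if_pos k3, (htb w hw).2 k3, ite'_true]
        exact hJt w k3
      · have k4 : tb J w = false := by
          rw [Bool.eq_false_iff]; exact fun h => k3 ((htb w hw).1 h)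
        rw [if_neg k3, k4, ite'_false, Nat.add_zero]
        exact hWt w hw
    rw [sum_add_distrib, sum_add_distrib, hJsum] at k2
    have k5 : ∑ v ∈ Z \ P, (k + (nb G Z v).card) ≤ ∑ v ∈ Z \ P, 2 * (nb G X v).card :=
      sum_le_sum hUk
    rw [sum_add_distrib, sum_const, smul_eq_mul, Nat.mul_comm] at k5
    omega
  have hs2 : ∑ w ∈ msk W 32, 2 * ite' (tb J w) (dg' D A w) (mx (lo' k L w) (dg' D A w)) +
      2 * ∑ i ∈ msk J 32, ex i + 2 * (k * (Z \ P).card) ≤ 2 * (∑ v ∈ Z, (nb G X v).card) := by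
    rw [hsplit, ← mul_sum, ← Nat.mul_add, ← Nat.mul_add]
    apply Nat.mul_le_mul_left
    have k2 : ∑ w ∈ msk W 32, (ite' (tb J w) (dg' D A w) (mx (lo' k L w) (dg' D A w)) +
        (if w ∈ msk J 32 then ex w else 0)) ≤ ∑ w ∈ msk W 32, (nb G X (f w)).card := by
      refine sum_le_sum fun w hw => ?_
      by_cases k3 : w ∈ msk J 32
      · rw [if_pos k3, (htb w hw).2 k3, ite'_true]
        exact (hexd w k3).le
      · have k4 : tb J w = false := by
          rw [Bool.eq_false_iff]; exact fun h => k3 ((htb w hw).1 h)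
        rw [if_neg k3, k4, ite'_false, Nat.add_zero, mx_eq, S.dg'_eq, lo'_eq h.k16]
        exact max_le (S.lo w (hW w hw)) (S.dg_le (hW w hw))
    rw [sum_add_distrib, hJsum] at k2
    have k5 : ∑ v ∈ Z \ P, k ≤ ∑ v ∈ Z \ P, (nb G X v).card :=
      sum_le_sum fun v hv => h.lo v (hZX (mem_sdiff.1 hv).1)
    rw [sum_const, smul_eq_mul, Nat.mul_comm] at k5
    omega
  have hX1 : X1 k (pp W) u = (4 * k - 2) * pp W + (3 * k - 3) * u := rfl
  have hX2 : X2 k (pp W) u = (4 * k - 2 + (k + 1)) * pp W + (3 * k - 3) * u := rfl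
  refine ⟨u, Z, hWD, ?_, hZX, (image_subset_image hJsub).trans hPZ, hPZ, ?_, S.card hJ, ?_, ?_,
    hout, ?_, ?_, ?_, ?_⟩
  · rw [← hcJ]; exact h5
  · rw [← card_pos, S.card hJ]; omega
  · intro x hx y hy hxy hadj
    rw [Finset.mem_coe] at hx hy
    obtain ⟨i, hi, rfl⟩ := Finset.mem_image.1 hx
    obtain ⟨j, hj, rfl⟩ := Finset.mem_image.1 hy
    have hij : j ≠ i := fun h => hxy (by rw [h])
    exact S.non i j (hJ i hi) (hJ j hj)
      ((hprop i (mem_msk.1 hi).2).1 j (mem_msk.1 hj).2 hij) hadj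
  · intro z hz
    obtain ⟨i, hi, rfl⟩ := Finset.mem_image.1 hz
    intro y hy
    rw [hZ]
    exact mem_union_right _ (Finset.mem_biUnion.2 ⟨i, hi, hy⟩)
  · rw [hcZ, hPc]; have := hUE.trans hexu; omega
  · rw [hcZ, hPc]; omega
  · have k1 := ar1 h.k4 hUE hexu
    rw [hX1, hcZ, hPc, Nat.mul_add]
    generalize (4 * k - 2) * pp W = a1 at *
    generalize (4 * k - 2) * (Z \ P).card = a2 at *
    generalize (3 * k - 3) * u = a3 at *
    generalize k * (Z \ P).card = a4 at *
    omega
  · intro h3c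
    have k1 := ar2 h.k4 hUE hexu
    have k2 := h.sp Z hZX (by rw [hcZ, hPc]; omega)
    rw [hcZ, hPc, Nat.mul_add] at k2
    rw [hX2, hcZ, hPc, Nat.mul_add, Nat.add_mul]
    generalize (4 * k - 2) * pp W = a1 at *
    generalize (k + 1) * pp W = a5 at *
    generalize (4 * k - 2) * (Z \ P).card = a2 at *
    generalize (k + 1) * (Z \ P).card = a6 at *
    generalize (3 * k - 3) * u = a3 at *
    generalize k * (Z \ P).card = a4 at *
    omega

theorem B1_le (S : Sat G k X f ⟨D, n, A, B, L, H⟩) {J W : ℕ} (O c j : ℕ)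
    (hWD : ∀ i, Nat.testBit W i = true → Nat.testBit D i = true) :
    B1 k D A B L J W O c j ≤ (3 * k * k + 2 - 3 * k) * j + 2 + ∑ w ∈ msk W 32,
      ite' (tb J w) (dg' D A w) (tw3 k D A B L W O c w) := by
  unfold B1
  rw [fc_eq]
  exact ls_le _ _ _ _ (sub_lt S hWD)

theorem B2_le (S : Sat G k X f ⟨D, n, A, B, L, H⟩) {J W : ℕ} (j : ℕ)
    (hWD : ∀ i, Nat.testBit W i = true → Nat.testBit D i = true) :
    B2 k D A L J W j ≤ (3 * k * k + 2 - 3 * k) * j + 2 + (2 * k + 1) + ∑ w ∈ msk W 32,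
      2 * ite' (tb J w) (dg' D A w) (mx (lo' k L w) (dg' D A w)) := by
  unfold B2
  rw [fc_eq]
  exact ls_le _ _ _ _ (sub_lt S hWD)

theorem fO_sound {w2 : ℕ} (h : LH G k w2 X) (S : Sat G k X f ⟨D, n, A, B, L, H⟩) {J W : ℕ}
    (hc : fO k w2 D A B L H J W = true) : False := by
  unfold fO at hc
  obtain ⟨u, Z, hWD, hg, hZX, hJZ, _, hne, hcard, hind, hnb, _, hcZ, _, hp1, hp2⟩ :=
    co_sound (L := L) h S hc
  rw [oo_eq, Bool.or_eq_true, oo_eq, Bool.or_eq_true, an_eq, Bool.and_eq_true, an_eq,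
    Bool.and_eq_true] at hg
  have hi2 := h.ind Z _ hZX hJZ hne hind hnb
  rw [hcard] at hi2
  rcases hg with ⟨h1, h2⟩ | h1 | ⟨h1, h2⟩
  · have h1' : (msk J 32).card = 2 := beq_eq' h1
    have h2' : pp W + u + 1 ≤ w2 := ble_le h2
    have h3 := h.two Z _ hZX hJZ (by rw [hcard]; exact h1') hind hnb
    omega
  · have h1' := ble_le h1
    have h3 := B1_le (k := k) (J := J) S (oo' D B J W) (Nat.add (pp W) u) (msk J 32).card hWD
    have h4 := h1'.trans h3
    change X1 k (pp W) u + 1 ≤ (3 * k * k + 2 - 3 * k) * (msk J 32).card + 2 + ∑ w ∈ msk W 32,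
      ite' (tb J w) (dg' D A w) (tw3 k D A B L W (oo' D B J W) (pp W + u) w) at h4
    generalize (3 * k * k + 2 - 3 * k) * (msk J 32).card = a1 at *
    generalize (4 * k - 2) * Z.card = a2 at *
    generalize ∑ w ∈ msk W 32,
      ite' (tb J w) (dg' D A w) (tw3 k D A B L W (oo' D B J W) (pp W + u) w) = a3 at *
    omega
  · have h2' := ble_le h2
    have h3 := B2_le (k := k) (J := J) S (msk J 32).card hWD
    have h4 := h2'.trans h3
    have h5 := hp2 (ble_le h1)
    generalize (3 * k * k + 2 - 3 * k) * (msk J 32).card = a1 at *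
    generalize (4 * k - 2) * Z.card = a2 at *
    generalize ∑ w ∈ msk W 32,
      2 * ite' (tb J w) (dg' D A w) (mx (lo' k L w) (dg' D A w)) = a3 at *
    omega

theorem pb_sound (S : Sat G k X f ⟨D, n, A, B, L, H⟩) {J W : ℕ}
    {u : ℕ} {Z : Finset V} (hWD : ∀ i, Nat.testBit W i = true → Nat.testBit D i = true)
    (hcard : ((msk J 32).image f).card = (msk J 32).card)
    (hp1 : (4 * k - 2) * Z.card + e2 G Z + ∑ w ∈ msk W 32,
          ite' (tb J w) (dg' D A w) (tw3 k D A B L W (oo' D B J W) (pp W + u) w) ≤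
        2 * (∑ v ∈ Z, (nb G X v).card) + X1 k (pp W) u)
    (hp2 : (3 ≤ pp W → (4 * k - 2) * Z.card + e2 G Z + (2 * k + 1) + ∑ w ∈ msk W 32,
          2 * ite' (tb J w) (dg' D A w) (mx (lo' k L w) (dg' D A w)) ≤
        2 * (∑ v ∈ Z, (nb G X v).card) + X2 k (pp W) u)) :
    (4 * k - 2) * Z.card + e2 G Z ≤ 2 * (∑ v ∈ Z, (nb G X v).card) +
      (3 * k * k + 2 - 3 * k) * ((msk J 32).image f).card + 2 +
      pb k D A B L J W (oo' D B J W) (msk J 32).card (pp W) u := by
  have h3 := B1_le (k := k) (J := J) S (oo' D B J W) (Nat.add (pp W) u) (msk J 32).card hWD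
  have h4 := B2_le (k := k) (J := J) S (msk J 32).card hWD
  rw [hcard]
  have hA : (4 * k - 2) * Z.card + e2 G Z ≤ 2 * (∑ v ∈ Z, (nb G X v).card) +
      (3 * k * k + 2 - 3 * k) * (msk J 32).card + 2 +
      (X1 k (pp W) u - B1 k D A B L J W (oo' D B J W) (Nat.add (pp W) u) (msk J 32).card) := by
    change B1 k D A B L J W (oo' D B J W) (Nat.add (pp W) u) (msk J 32).card ≤
      (3 * k * k + 2 - 3 * k) * (msk J 32).card + 2 + ∑ w ∈ msk W 32,
      ite' (tb J w) (dg' D A w) (tw3 k D A B L W (oo' D B J W) (pp W + u) w) at h3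
    generalize (3 * k * k + 2 - 3 * k) * (msk J 32).card = a1 at *
    generalize (4 * k - 2) * Z.card = a2 at *
    generalize ∑ w ∈ msk W 32,
      ite' (tb J w) (dg' D A w) (tw3 k D A B L W (oo' D B J W) (pp W + u) w) = a3 at *
    omega
  have hB : 3 ≤ pp W → (4 * k - 2) * Z.card + e2 G Z ≤ 2 * (∑ v ∈ Z, (nb G X v).card) +
      (3 * k * k + 2 - 3 * k) * (msk J 32).card + 2 +
      (X2 k (pp W) u - B2 k D A L J W (msk J 32).card) := by
    intro h5
    have h6 := hp2 h5
    generalize (3 * k * k + 2 - 3 * k) * (msk J 32).card = a1 at *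
    generalize (4 * k - 2) * Z.card = a2 at *
    generalize ∑ w ∈ msk W 32,
      2 * ite' (tb J w) (dg' D A w) (mx (lo' k L w) (dg' D A w)) = a3 at *
    omega
  unfold pb
  rw [fc_eq, fc_eq]
  cases h5 : Nat.ble 3 (pp W) with
  | false => rw [ite'_false]; exact hA
  | true =>
    rw [ite'_true]
    rcases mn_le_or (Nat.sub (X1 k (pp W) u)
      (B1 k D A B L J W (oo' D B J W) (Nat.add (pp W) u) (msk J 32).card))
      (Nat.sub (X2 k (pp W) u) (B2 k D A L J W (msk J 32).card)) with h6 | h6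
    · rw [h6]; exact hA
    · rw [h6]; exact hB (ble_le h5)

theorem fD3_sound {w2 : ℕ} (h : LH2 G k w2 X) (S : Sat G k X f ⟨D, n, A, B, L, H⟩)
    {J W w : ℕ} (hc : fD3 k D A B L H J W w = true) : False := by
  unfold fD3 at hc
  obtain ⟨u, Z, hWD, hg, hZX, hJZ, hPZ, hne, hcard, hind, hnb, hout, _, _, hp1, hp2⟩ :=
    co_sound (L := L) h.toLH S hc
  rw [an_eq, Bool.and_eq_true, fc_eq, tb_eq] at hg
  obtain ⟨h1, h3⟩ := hg
  obtain ⟨hwD, hwZ⟩ := hout w h1
  have hsl := pb_sound S hWD hcard hp1 hp2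
  set p := pb k D A B L J W (oo' D B J W) (msk J 32).card (pp W) u with hp
  have h3' : hi' k H w + 1 ≤ dq k p + pp (Nat.land (rr A w) W) := ble_le h3
  have h8 := S.hi w hwD
  have h9 : St.hi k ⟨D, n, A, B, L, H⟩ w = hi' k H w := (hi'_eq H w h.k4 h.k16).symm
  rw [h9] at h8
  have h7 : pp (Nat.land (rr A w) W) = (msk (row A w &&& W) 32).card :=
    T4.pp_eq (sub_lt S (fun i hi => hWD i (land_right i hi)))
  have h6 : (msk (row A w &&& W) 32).card + (nb G X (f w) \ Z).card ≤
      (nb G X (f w)).card := by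
    have h7 : ∀ j ∈ msk (row A w &&& W) 32, Nat.testBit D j = true := fun j hj =>
      hWD j (mem_msk.1 (mem_msk_and.1 hj).2).2
    rw [← S.card h7, ← card_union_of_disjoint]
    · refine card_le_card (union_subset ?_ sdiff_subset)
      intro z hz
      obtain ⟨j, hj, rfl⟩ := Finset.mem_image.1 hz
      have h8 := mem_msk_and.1 hj
      have h9 := (mem_msk.1 h8.1).2
      rw [testBit_row, Bool.and_eq_true] at h9
      exact mem_nb.2 ⟨(S.mem j (h7 j hj)).2, S.adj w j hwD (h7 j hj) h9.2⟩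
    · rw [Finset.disjoint_left]
      intro z hz hz2
      obtain ⟨j, hj, rfl⟩ := Finset.mem_image.1 hz
      exact (mem_sdiff.1 hz2).2 (hPZ (Finset.mem_image_of_mem f (mem_msk_and.1 hj).2))
  have hd0 : dq k p ≠ 0 := by
    intro h0
    omega
  have h5 := h.dd _ _ hZX hJZ hne hind hnb p (dq k p) hsl (dq_spec hd0 h.k4) (f w)
    (S.mem w hwD).2 hwZ
  omega

theorem fT3_sound {w2 : ℕ} (h : LH2 G k w2 X) (S : Sat G k X f ⟨D, n, A, B, L, H⟩)
    {J W T : ℕ} (hc : fT3 k D A B L H J W T = true) : False := by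
  unfold fT3 at hc
  obtain ⟨u, Z, hWD, hg, hZX, hJZ, hPZ, hne, hcard, hind, hnb, hout, _, _, hp1, hp2⟩ :=
    co_sound (L := L) h.toLH S hc
  rw [an_eq, Bool.and_eq_true, an_eq, Bool.and_eq_true, an_eq, Bool.and_eq_true, fc_eq] at hg
  obtain ⟨h1, h2, h3, h4⟩ := hg
  have hsl := pb_sound S hWD hcard hp1 hp2
  set p := pb k D A B L J W (oo' D B J W) (msk J 32).card (pp W) u with hp
  have hTW := sub_of_land h1
  have hTD : ∀ i, Nat.testBit T i = true → Nat.testBit D i = true := fun i hi => hWD i (hTW i hi)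
  have hT : ∀ i ∈ msk T 32, Nat.testBit D i = true := fun i hi => hTD i (mem_msk.1 hi).2
  have hcT : pp T = (msk T 32).card := T4.pp_eq (sub_lt S hTD)
  have h2' : pp T = (msk J 32).card + 1 := beq_eq' h2
  have h4' := ble_le h4
  have ht0 : tq k p ≠ 0 := by
    intro h0
    rw [h0] at h4'
    exact Nat.not_succ_le_zero _ h4'
  have hTS : (msk T 32).image f ⊆ Z := by
    refine Subset.trans (image_subset_image fun i hi => ?_) hPZ
    have h5 := mem_msk.1 hi
    exact mem_msk.2 ⟨h5.1, hTW i h5.2⟩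
  have hTi : G.IsIndepSet (((msk T 32).image f : Finset V) : Set V) := by
    intro x hx y hy hxy hadj
    rw [Finset.mem_coe] at hx hy
    obtain ⟨i, hi, rfl⟩ := Finset.mem_image.1 hx
    obtain ⟨j, hj, rfl⟩ := Finset.mem_image.1 hy
    have h5 := la_sound _ _ _ h3 i (mem_msk.1 hi).2
    have h6 : T &&& (row B i ||| bi i) = T := beq_eq' h5
    have h7 : Nat.testBit (T &&& (row B i ||| bi i)) j = true := by
      rw [h6]; exact (mem_msk.1 hj).2
    rw [Nat.testBit_and, Nat.testBit_or, Bool.and_eq_true, Bool.or_eq_true, testBit_row,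
      Bool.and_eq_true, testBit_bi] at h7
    rcases h7.2 with h8 | h8
    · exact S.non i j (hT i hi) (hT j hj) h8.2 hadj
    · exact hxy (by rw [h8])
  have h5 := h.tt _ _ hZX hJZ hne hind hnb p (tq k p) hsl (tq_spec ht0 h.k4)
    ((msk T 32).image f) hTS hTi (by rw [S.card hT, ← hcT, h2', hcard])
  set U := lu (rr A) (nat_lit 32) T (nat_lit 0) with hU
  have h6 : ((msk T 32).image f).biUnion (fun z => nb G X z) \ Z ⊆
      (msk (Nat.land U (Nat.xor D W)) 32).image f ∪
        (msk T 32).biUnion (fun i => nb G X (f i) \ (msk (row A i &&& D) 32).image f) := by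
    intro z hz
    obtain ⟨hz1, hz2⟩ := mem_sdiff.1 hz
    obtain ⟨y, hy, hz3⟩ := Finset.mem_biUnion.1 hz1
    obtain ⟨i, hi, rfl⟩ := Finset.mem_image.1 hy
    rw [mem_union]
    by_cases h7 : z ∈ (msk (row A i &&& D) 32).image f
    · left
      obtain ⟨j, hj, rfl⟩ := Finset.mem_image.1 h7
      refine Finset.mem_image_of_mem f ?_
      obtain ⟨h8, h9⟩ := mem_msk_and.1 hj
      have h10 := mem_msk.1 h8
      have h11 := mem_msk.1 h9
      rw [mem_msk]
      refine ⟨h10.1, ?_⟩
      change Nat.testBit (U &&& (D ^^^ W)) j = true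
      rw [Nat.testBit_and, Nat.testBit_xor, h11.2]
      have h12 : Nat.testBit U j = true := by
        rw [hU]
        apply lu_sound _ _ _ _ _ h10.1
        exact Or.inr ⟨i, (mem_msk.1 hi).2, h10.2⟩
      have h13 : Nat.testBit W j = false := by
        rw [Bool.eq_false_iff]
        intro h14
        exact hz2 (hPZ (Finset.mem_image_of_mem f (mem_msk.2 ⟨h10.1, h14⟩)))
      rw [h12, h13]; rfl
    · right
      exact Finset.mem_biUnion.2 ⟨i, hi, mem_sdiff.2 ⟨hz3, h7⟩⟩
  have h7 := (card_le_card h6).trans ((card_union_le _ _).trans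
    (Nat.add_le_add_left card_biUnion_le _))
  have hUD : ∀ j, Nat.testBit (Nat.land U (Nat.xor D W)) j = true → Nat.testBit D j = true := by
    intro j hj
    have h8 : Nat.testBit (U &&& (D ^^^ W)) j = true := hj
    rw [Nat.testBit_and, Bool.and_eq_true] at h8
    exact (xor_alive hWD h8.2).1
  have h8 : ((msk (Nat.land U (Nat.xor D W)) 32).image f).card = pp (Nat.land U (Nat.xor D W)) := by
    rw [S.card (fun i hi => hUD i (mem_msk.1 hi).2)]
    exact (T4.pp_eq (sub_lt S hUD)).symm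
  rw [h8] at h7
  have h9 : ∑ i ∈ msk T 32, (nb G X (f i) \ (msk (row A i &&& D) 32).image f).card ≤
      ∑ i ∈ msk T 32, Nat.sub (hi' k H i) (dg' D A i) := by
    refine sum_le_sum fun i hi => ?_
    have hiD := hT i hi
    obtain ⟨h10, h11⟩ := S.known hiD
    rw [card_sdiff_of_subset h10, h11]
    have h12 := S.hi i hiD
    have h13 : St.hi k ⟨D, n, A, B, L, H⟩ i = hi' k H i := (hi'_eq H i h.k4 h.k16).symm
    rw [h13] at h12
    exact Nat.sub_le_sub_right h12 _
  rw [ls_eq _ _ _ _ (sub_lt S hTD) (msk_card_le T)] at h4'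
  change pp (Nat.land U (Nat.xor D W)) + _ + 1 ≤ _ at h4'
  omega

/-! ### Clearing a row and a column -/

theorem clr_sub {M m i j : ℕ} (h : bt (clr M m) i j = true) : bt M i j = true := by
  have h1 : Nat.testBit (clr M m) (32 * i + j) = true := h
  exact land_left _ h1

theorem all_eq : allb = 2 ^ 1024 - 1 := by
  decide +kernel

theorem bit_all {j : ℕ} (hj : j < 1024) : Nat.testBit allb j = true := by
  rw [all_eq, Nat.testBit_two_pow_sub_one]
  exact decide_eq_true hj

theorem cm_set {n i : ℕ} (hi : i < 32) : Nat.testBit (cm n) (32 * i + n) = true := by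
  have h3 : cm n = (1 * Mm 32) <<< n := by
    have : Mm 32 = 41855804977958881238216860293671333616475814839523861211015363775367857790754367812411590743534994955327154331653972084008334635948471552329445020986934924815945052132199177846429263578652254701150892687317891618273230805205109921907778604060552511649183701335864607145965996450848344889395800702977 := by decide +kernel
    rw [this]; rfl
  rw [h3, Nat.testBit_shiftLeft]
  have h5 : 32 * i + n - n = 32 * i + 0 := by omega
  rw [h5, testBit_Mm (by norm_num) 32 i 0 (by norm_num)]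
  simp [hi]

theorem row_set {i j : ℕ} (hj : j < 32) :
    Nat.testBit (Nat.shiftLeft a32 (Nat.mul (nat_lit 32) i)) (32 * i + j) = true := by
  have h1 : Nat.shiftLeft a32 (Nat.mul (nat_lit 32) i) = (2 ^ 32 - 1) <<< (32 * i) := rfl
  rw [h1, Nat.testBit_shiftLeft]
  have h4 : 32 * i + j - 32 * i = j := by omega
  have h5 : 32 * i ≤ 32 * i + j := by omega
  rw [h4, Nat.testBit_two_pow_sub_one]
  simp [h5, hj]

theorem clr_row {M m i j : ℕ} (hi : i < 32) (hj : j < 32) (hm : i = m ∨ j = m) :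
    bt (clr M m) i j = false := by
  rw [Bool.eq_false_iff]
  intro h
  have h1 : Nat.testBit (M &&& (allb ^^^
    ((Nat.shiftLeft a32 (Nat.mul (nat_lit 32) m)) ||| (cm m)))) (32 * i + j) = true := h
  rw [Nat.testBit_and, Nat.testBit_xor, Nat.testBit_or, bit_all (by omega),
    Bool.and_eq_true] at h1
  have h2 : (Nat.testBit (Nat.shiftLeft a32 (Nat.mul (nat_lit 32) m)) (32 * i + j) ||
      Nat.testBit (cm m) (32 * i + j)) = true := by
    rw [Bool.or_eq_true]
    rcases hm with rfl | rfl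
    · exact Or.inl (row_set hj)
    · exact Or.inr (cm_set hi)
  rw [h2] at h1
  exact absurd h1.2 (by simp)

theorem Sat.nwm {w2 : ℕ} (h : LH2 G k w2 X) (S : Sat G k X f ⟨D, n, A, B, L, H⟩) {v m : ℕ}
    (hm32 : m < 32) (hmD : Nat.testBit D m = false) (hv : Nat.testBit D v = true)
    (hdec : ∀ j, Nat.testBit D j = true → j = v ∨ bt A v j = true ∨ bt B v j = true)
    (hlt : pp (Nat.land (rr A v) D) + 1 ≤ lo' k L v) :
    ∃ g : ℕ → V, Sat G k X g ⟨Nat.lor D (bi m), 32, Nat.lor (clr A m) (sy' v m), clr B m,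
      clr L m, clr H m⟩ := by
  have hlt32 : ∀ j, Nat.testBit D j = true → j < 32 := fun j hj => S.lt32 hj
  obtain ⟨hk1, hk2⟩ := S.known hv
  have hc : ((msk (row A v &&& D) 32).image f).card < (nb G X (f v)).card := by
    rw [hk2]
    have h1 := S.lo v hv
    have h2 : St.lo k ⟨D, n, A, B, L, H⟩ v = lo' k L v := (lo'_eq h.k16 L v).symm
    rw [h2] at h1
    exact lt_of_lt_of_le hlt h1
  obtain ⟨z, hz, hzn⟩ := exists_mem_notMem_of_card_lt_card hc
  obtain ⟨hzX, hzv⟩ := mem_nb.1 hz
  have hzne : ∀ j, Nat.testBit D j = true → f j ≠ z := by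
    intro j hj hjz
    rcases hdec j hj with h1 | h1 | h1
    · rw [← hjz, h1] at hzv
      exact G.loopless.irrefl _ hzv
    · apply hzn
      rw [← hjz]
      refine Finset.mem_image_of_mem f (mem_msk.2 ⟨hlt32 j hj, ?_⟩)
      rw [Nat.testBit_and, hj, testBit_row, h1]
      simp [hlt32 j hj]
    · rw [← hjz] at hzv
      exact S.non v j hv hj h1 hzv
  have hne : ∀ i, Nat.testBit D i = true → i ≠ m := by
    rintro i hi rfl
    rw [hmD] at hi; cases hi
  have hg : ∀ i, Nat.testBit D i = true → Function.update f m z i = f i :=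
    fun i hi => Function.update_of_ne (hne i hi) _ _
  have hgn : Function.update f m z m = z := Function.update_self _ _ _
  have hD : ∀ i, Nat.testBit (D ||| (bi m)) i = true → Nat.testBit D i = true ∨ i = m := by
    intro i hi
    rw [Nat.testBit_or, Bool.or_eq_true, testBit_bi] at hi
    rcases hi with hi | hi
    · exact Or.inl hi
    · exact Or.inr hi.symm
  have hD32 : ∀ i, Nat.testBit (D ||| (bi m)) i = true → i < 32 := by
    intro i hi
    rcases hD i hi with h1 | h1
    · exact hlt32 i h1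
    · rw [h1]; exact hm32
  have hA : ∀ i j, i < 32 → j < 32 → bt ((clr A m) ||| (sy v m)) i j = true →
      (bt A i j = true ∧ i ≠ m ∧ j ≠ m) ∨ (i = v ∧ j = m) ∨ (i = m ∧ j = v) := by
    intro i j hi hj hb
    rw [bt_or, Bool.or_eq_true, bt_sy hj (hlt32 v hv) hm32] at hb
    rcases hb with hb | hb
    · left
      refine ⟨clr_sub hb, ?_, ?_⟩
      · intro h1
        rw [clr_row hi hj (Or.inl h1)] at hb; cases hb
      · intro h1
        rw [clr_row hi hj (Or.inr h1)] at hb; cases hb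
    · exact Or.inr hb
  have hB : ∀ i j, i < 32 → j < 32 → bt (clr B m) i j = true →
      bt B i j = true ∧ i ≠ m ∧ j ≠ m := by
    intro i j hi hj hb
    refine ⟨clr_sub hb, ?_, ?_⟩
    · intro h1
      rw [clr_row hi hj (Or.inl h1)] at hb; cases hb
    · intro h1
      rw [clr_row hi hj (Or.inr h1)] at hb; cases hb
  have hk16 := h.k16
  have hk4 := h.k4
  refine ⟨Function.update f m z, ⟨?_, ?_, ?_, ?_, ?_, ?_, ?_⟩⟩
  · exact le_refl 32
  · intro i hi
    refine ⟨hD32 i hi, ?_⟩
    rcases hD i hi with h1 | h1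
    · rw [hg i h1]; exact (S.mem i h1).2
    · rw [h1, hgn]; exact hzX
  · intro i j hi hj hij
    rcases hD i hi with h1 | h1 <;> rcases hD j hj with h2 | h2
    · rw [hg i h1, hg j h2] at hij
      exact S.inj i j h1 h2 hij
    · rw [hg i h1, h2, hgn] at hij
      exact (hzne i h1 hij).elim
    · rw [hg j h2, h1, hgn] at hij
      exact (hzne j h2 hij.symm).elim
    · rw [h1, h2]
  · intro i j hi hj hb
    rcases hA i j (hD32 i hi) (hD32 j hj) hb with ⟨h3, h4, h5⟩ | ⟨h3, h4⟩ | ⟨h3, h4⟩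
    · have h1 : Nat.testBit D i = true := (hD i hi).resolve_right h4
      have h2 : Nat.testBit D j = true := (hD j hj).resolve_right h5
      rw [hg i h1, hg j h2]
      exact S.adj i j h1 h2 h3
    · rw [h3, h4, hgn, hg v hv]; exact hzv
    · rw [h3, h4, hgn, hg v hv]; exact hzv.symm
  · intro i j hi hj hb
    obtain ⟨h3, h4, h5⟩ := hB i j (hD32 i hi) (hD32 j hj) hb
    have h1 : Nat.testBit D i = true := (hD i hi).resolve_right h4
    have h2 : Nat.testBit D j = true := (hD j hj).resolve_right h5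
    rw [hg i h1, hg j h2]
    exact S.non i j h1 h2 h3
  · intro i hi
    change loA k (clr L m) i (k - 2) ≤ _
    rw [loA_iff]
    rcases hD i hi with h1 | h1
    · rw [hg i h1]
      have h2 := S.lo i h1
      change loA k L i (k - 2) ≤ _ at h2
      rw [loA_iff] at h2
      exact ⟨h2.1, fun d g1 g2 g3 => h2.2 d g1 g2 (clr_sub g3)⟩
    · rw [h1, hgn]
      refine ⟨h.lo z hzX, fun d g1 g2 g3 => ?_⟩
      rw [clr_row hm32 (by omega) (Or.inl rfl)] at g3; cases g3
  · intro i hi
    change _ ≤ hiA k (clr H m) i (k - 2)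
    rw [hiA_iff _ (by omega)]
    rcases hD i hi with h1 | h1
    · rw [hg i h1]
      have h2 := S.hi i h1
      change _ ≤ hiA k H i (k - 2) at h2
      rw [hiA_iff _ (by omega)] at h2
      exact ⟨h2.1, fun d g1 g2 g3 => h2.2 d g1 g2 (clr_sub g3)⟩
    · rw [h1, hgn]
      refine ⟨h.hi z hzX, fun d g1 g2 g3 => ?_⟩
      rw [clr_row hm32 (by omega) (Or.inl rfl)] at g3; cases g3

end

theorem core3_sound {V : Type*} [DecidableEq V] {G : SimpleGraph V} [DecidableRel G.Adj]
    {k w2 : ℕ} {X : Finset V} (h : LH2 G k w2 X) (env : List St)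
    (he : ∀ t ∈ env, Dead G k X t) : ∀ (c : Cert3) (D n A B L H : ℕ),
    core3 k w2 env c D n A B L H = true → Dead G k X ⟨D, n, A, B, L, H⟩ := by
  intro c
  induction c with
  | kF F => exact fun D n A B L H hc f S => fF_sound h.toLH S hc
  | kI I => exact fun D n A B L H hc f S => fI_sound h.toLH S hc
  | kP u w => exact fun D n A B L H hc f S => fP_sound h.toLH S hc
  | kH u => exact fun D n A B L H hc f S => fH_sound h.k4 h.k16 S hc
  | kO J W => exact fun D n A B L H hc f S => fO_sound h.toLH S hc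
  | kD J W w => exact fun D n A B L H hc f S => fD3_sound h S hc
  | kT J W T => exact fun D n A B L H hc f S => fT3_sound h S hc
  | sb j p =>
    intro D n A B L H hc f S
    obtain ⟨t, h1, h2⟩ := nth_sound env j hc
    exact he t h1 _ (fS_sound h.k4 h.k16 S h2)
  | ad u v c d ihc ihd =>
    intro D n A B L H hc f S
    change an (tb D u) (an (tb D v)
      (an (fc (Nat.lor A (sy' u v)) fun A' => core3 k w2 env c D n A' B L H)
        (fc (Nat.lor B (sy' u v)) fun B' => core3 k w2 env d D n A B' L H))) = true at hc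
    rw [an_eq, Bool.and_eq_true, an_eq, Bool.and_eq_true, an_eq, Bool.and_eq_true, fc_eq, fc_eq,
      tb_eq, tb_eq] at hc
    obtain ⟨hu, hv, h1, h2⟩ := hc
    by_cases ha : G.Adj (f u) (f v)
    · exact ihc _ _ _ _ _ _ h1 f (S.ad_pos hu hv ha)
    · exact ihd _ _ _ _ _ _ h2 f (S.ad_neg hu hv ha)
  | dg v d c e ihc ihe =>
    intro D n A B L H hc f S
    change an (tb D v) (an (Nat.ble (Nat.succ d) (nat_lit 31))
      (an (fc (Nat.lor H (bi (Nat.add (Nat.mul (nat_lit 32) v) d))) fun H' =>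
          core3 k w2 env c D n A B L H')
        (fc (Nat.lor L (bi (Nat.add (Nat.mul (nat_lit 32) v) (Nat.succ d)))) fun L' =>
          core3 k w2 env e D n A B L' H))) = true at hc
    rw [an_eq, Bool.and_eq_true, an_eq, Bool.and_eq_true, an_eq, Bool.and_eq_true, fc_eq, fc_eq,
      tb_eq] at hc
    obtain ⟨hv, hd, h1, h2⟩ := hc
    have hd' : d < 31 := ble_le hd
    rcases le_or_gt (nb G X (f v)).card d with ha | ha
    · exact ihc _ _ _ _ _ _ h1 f (S.dg_pos h.k4 h.k16 hd' ha)
    · exact ihe _ _ _ _ _ _ h2 f (S.dg_neg h.k4 h.k16 hd' ha)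
  | nw v K m c ihc =>
    intro D n A B L H hc f S
    change fc (Nat.land D K) (fun D' => an (tb D' v)
      (an (Nat.ble (Nat.succ m) (nat_lit 32)) (an (ite' (tb D' m) false true)
      (an (Nat.beq (Nat.land (Nat.lor (Nat.lor (rr A v) (rr B v)) (bi v)) D') D')
      (an (Nat.ble (Nat.succ (pp (Nat.land (rr A v) D'))) (lo' k L v))
        (fc (Nat.lor (clr A m) (sy' v m)) fun A' => fc (Nat.lor D' (bi m)) fun D'' =>
          fc (clr B m) fun B' => fc (clr L m) fun L' => fc (clr H m) fun H' =>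
            core3 k w2 env c D'' (nat_lit 32) A' B' L' H')))))) = true at hc
    rw [fc_eq, an_eq, Bool.and_eq_true, an_eq, Bool.and_eq_true, an_eq, Bool.and_eq_true, an_eq,
      Bool.and_eq_true, an_eq, Bool.and_eq_true, fc_eq, fc_eq, fc_eq, fc_eq, fc_eq, tb_eq,
      tb_eq] at hc
    obtain ⟨hv, hn, hm, hdec, hlt, hrec⟩ := hc
    have hm32 : m < 32 := ble_le hn
    have hmD : Nat.testBit (Nat.land D K) m = false := by
      cases hb : Nat.testBit (Nat.land D K) m with
      | false => rfl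
      | true => rw [hb] at hm; cases hm
    refine ihc _ _ _ _ _ _ hrec _ (Sat.nwm h (S.drop K) hm32 hmD hv ?_ ?_).choose_spec
    · intro j hj
      have h1 : ((row A v ||| row B v) ||| bi v) &&& (D &&& K) = D &&& K := beq_eq' hdec
      have h2 : Nat.testBit (((row A v ||| row B v) ||| bi v) &&& (D &&& K)) j = true := by
        rw [h1]; exact hj
      rw [Nat.testBit_and, Nat.testBit_or, Nat.testBit_or, Bool.and_eq_true, Bool.or_eq_true,
        Bool.or_eq_true, testBit_row, testBit_row, Bool.and_eq_true, Bool.and_eq_true,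
        testBit_bi] at h2
      rcases h2.1 with (h3 | h3) | h3
      · exact Or.inr (Or.inl h3.2)
      · exact Or.inr (Or.inr h3.2)
      · exact Or.inl h3.symm
    · exact ble_le hlt
  | fl v c ihc =>
    intro D n A B L H hc f S
    change an (tb D v) (an (Nat.beq (dg' D A v) (hi' k H v))
      (fc (lv (fun m => sy' v m) (nat_lit 32) (nm D A B v) B) fun B' =>
        core3 k w2 env c D n A B' L H)) = true at hc
    rw [an_eq, Bool.and_eq_true, an_eq, Bool.and_eq_true, fc_eq, tb_eq] at hc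
    obtain ⟨hv, hcl, h1⟩ := hc
    refine ihc _ _ _ _ _ _ h1 f ⟨S.n32, S.mem, S.inj, S.adj, ?_, S.lo, S.hi⟩
    have hcl' : St.cl k ⟨D, n, A, B, L, H⟩ v = true := by
      unfold St.cl
      rw [← S.dg'_eq v]
      have h5 : St.hi k ⟨D, n, A, B, L, H⟩ v = hi' k H v := (hi'_eq H v h.k4 h.k16).symm
      rw [h5]; exact hcl
    have hnm : ∀ m, Nat.testBit (nm D A B v) m = true → Nat.testBit D m = true ∧
        ¬ G.Adj (f v) (f m) := by
      intro m hm
      have h2 : nm D A B v = ((2 ^ 32 - 1) ^^^ ((row A v ||| row B v) ||| bi v)) &&& D := rfl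
      rw [h2, Nat.testBit_and, Nat.testBit_xor, Nat.testBit_or, Nat.testBit_or,
        Bool.and_eq_true] at hm
      have hmD := hm.2
      refine ⟨hmD, fun hadj => ?_⟩
      have h3 := testBit_nbr.1 (S.closed_adj hv hcl' hmD hadj)
      have h4 := hm.1
      rw [Nat.testBit_two_pow_sub_one, testBit_row, h3.2.1] at h4
      simp [h3.1] at h4
    intro i j hi hj hb
    have hb' : Nat.testBit (lv (fun m => sy' v m) 32 (nm D A B v) B) (32 * i + j) = true := hb
    rcases lv_sound _ _ _ _ _ hb' with h2 | ⟨m, h2, h3⟩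
    · exact S.non i j hi hj h2
    · have h4 := hnm m h2
      have h5 : bt (sy v m) i j = true := h3
      rw [bt_sy (S.lt32 hj) (S.lt32 hv) (S.lt32 h4.1)] at h5
      rcases h5 with ⟨h6, h7⟩ | ⟨h6, h7⟩
      · rw [h6, h7]; exact h4.2
      · rw [h6, h7]; exact fun h' => h4.2 h'.symm


/-- soundness of the fast checker -/
theorem fast3_sound {V : Type*} [DecidableEq V] {G : SimpleGraph V} [DecidableRel G.Adj]
    {k w2 : ℕ} {X : Finset V} (h : LH2 G k w2 X) (env : List St)
    (he : ∀ t ∈ env, Dead G k X t) (c : Cert3) (s : St) (hc : chk3 k w2 env c s = true) :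
    Dead G k X s := by
  obtain ⟨D, n, A, B, L, H⟩ := s
  exact core3_sound h env he c D n A B L H hc

end Pool.Agent.TwoDens.T4
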