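import Pool.Agent.TK4.Loc
import Pool.Agent.TK4.F.P10

/-!
# There is no minimal counterexample for `k = 4`
-/

set_option autoImplicit false

namespace Pool.Agent.TwoDens.T4

open Pool.Agent.TwoDens Pool.Agent.TwoDens.TS

variable {V : Type*} [DecidableEq V] {G : SimpleGraph V} [DecidableRel G.Adj]

theorem root_dead {X : Finset V} (h : LH G 4 9 X) : Dead G 4 X (root 4) :=
  F.L1090 h

/-- the inequality `2 e ≥ 14 n - 38 α` for sparse graphs, `k = 4` -/
theorem no_mc4 (X : Finset V) : ¬ MC G 4 X :=
  no_mc_of_dead (by omega) (fun _ H => root_dead (lh_of_mc H)) X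

end Pool.Agent.TwoDens.T4
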