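import Pool.Agent.TK4.Bits

/-!
# A population count with three operations
-/

open Finset

namespace Pool.Agent.TwoDens.T4

/-- population count of a number below `2 ^ 32` -/
def pp (x : ℕ) : ℕ :=
  Nat.mod (Nat.land (Nat.mul x (nat_lit 41855804977958881238216860293671333616475814839523861211015363775367857790754367812411590743534994955327154331653972084008334635948471552329445020986934924815945052132199177846429263578652254701150892687317891618273230805205109921907778604060552511649183701335864607145965996450848344889395800702977))
    (nat_lit 89884656753579746629736815597155012919053819629231300169974335991435450977486621650048908736992967772721990730446448769367134891609248586294102283987248318133409806745129229874119254163662133418774586415890932689074208702293128176862083988238658039439619087220031745900668614540680756795837844127798509174785))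
    (nat_lit 8589934591)

theorem testBit_one' (i : ℕ) : Nat.testBit 1 i = decide (i = 0) := by
  rw [Bool.eq_iff_iff, Nat.testBit_one_eq_true_iff_self_eq_zero, decide_eq_true_eq]

/-- copies of a number at the multiples of 32 -/
def Mm : ℕ → ℕ
  | 0 => 0
  | m + 1 => Mm m + 2 ^ (32 * m)

/-- the bits at the multiples of 33 -/
def Km : ℕ → ℕ
  | 0 => 0
  | m + 1 => Km m + 2 ^ (33 * m)

/-- the bits of `x`, spread to the multiples of 33 -/
def Tm (x : ℕ) : ℕ → ℕ
  | 0 => 0
  | m + 1 => Tm x m + 2 ^ (33 * m) * (Nat.testBit x m).toNat

theorem Mm_lt {x : ℕ} (hx : x < 2 ^ 32) : ∀ m, x * Mm m < 2 ^ (32 * m) := by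
  intro m
  induction m with
  | zero => simp [Mm]
  | succ m ih =>
    rw [Mm, Nat.mul_add]
    have h1 : (2 : ℕ) ^ (32 * (m + 1)) = 2 ^ 32 * 2 ^ (32 * m) := by ring
    rw [h1]
    have h2 : x * 2 ^ (32 * m) + 2 ^ (32 * m) ≤ 2 ^ 32 * 2 ^ (32 * m) := by
      have : (x + 1) * 2 ^ (32 * m) ≤ 2 ^ 32 * 2 ^ (32 * m) := Nat.mul_le_mul_right _ hx
      linarith
    omega

theorem testBit_Mm {x : ℕ} (hx : x < 2 ^ 32) : ∀ m a b, b < 32 →
    Nat.testBit (x * Mm m) (32 * a + b) = (decide (a < m) && Nat.testBit x b) := by
  intro m
  induction m with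
  | zero => intro a b _; simp [Mm]
  | succ m ih =>
    intro a b hb
    rw [Mm, Nat.mul_add, Nat.add_comm, Nat.mul_comm x (2 ^ (32 * m)),
      Nat.testBit_two_pow_mul_add _ (Mm_lt hx m)]
    split_ifs with h
    · rw [ih a b hb]
      have h1 : a < m := by omega
      have h2 : a < m + 1 := by omega
      simp [h1, h2]
    · by_cases h1 : a = m
      · subst h1
        have h2 : 32 * a + b - 32 * a = b := by omega
        rw [h2]; simp
      · have h2 : ¬ a < m + 1 := by omega
        have h3 : Nat.testBit x (32 * a + b - 32 * m) = false := by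
          apply Nat.testBit_lt_two_pow
          exact lt_of_lt_of_le hx (Nat.pow_le_pow_right (by norm_num) (by omega))
        rw [h3]; simp [h2]

theorem Km_lt : ∀ m, Km m < 2 ^ (33 * m) := by
  intro m
  induction m with
  | zero => simp [Km]
  | succ m ih =>
    rw [Km]
    have h1 : (2 : ℕ) ^ (33 * (m + 1)) = 2 ^ 33 * 2 ^ (33 * m) := by ring
    have h2 : 0 < (2 : ℕ) ^ (33 * m) := by positivity
    omega

theorem testBit_Km : ∀ m j, Nat.testBit (Km m) j = true ↔ ∃ i < m, j = 33 * i := by
  intro m
  induction m with
  | zero => intro j; simp [Km]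
  | succ m ih =>
    intro j
    have h0 : Km (m + 1) = 2 ^ (33 * m) * 1 + Km m := by rw [Km]; ring
    rw [h0, Nat.testBit_two_pow_mul_add _ (Km_lt m)]
    split_ifs with h
    · rw [ih]
      constructor
      · rintro ⟨i, h1, h2⟩
        exact ⟨i, by omega, h2⟩
      · rintro ⟨i, h1, h2⟩
        exact ⟨i, by omega, h2⟩
    · rw [testBit_one', decide_eq_true_eq]
      constructor
      · intro h1
        exact ⟨m, by omega, by omega⟩
      · rintro ⟨i, h1, h2⟩
        omega

theorem Tm_lt (x : ℕ) : ∀ m, Tm x m < 2 ^ (33 * m) := by
  intro m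
  induction m with
  | zero => simp [Tm]
  | succ m ih =>
    rw [Tm]
    have h1 : (2 : ℕ) ^ (33 * (m + 1)) = 2 ^ 33 * 2 ^ (33 * m) := by ring
    have h2 : 0 < (2 : ℕ) ^ (33 * m) := by positivity
    have h3 : 2 ^ (33 * m) * (Nat.testBit x m).toNat ≤ 2 ^ (33 * m) * 1 :=
      Nat.mul_le_mul_left _ (Bool.toNat_le _)
    omega

theorem testBit_Tm (x : ℕ) : ∀ m j, Nat.testBit (Tm x m) j = true ↔
    ∃ i < m, j = 33 * i ∧ Nat.testBit x i = true := by
  intro m
  induction m with
  | zero => intro j; simp [Tm]
  | succ m ih =>
    intro j
    rw [Tm, Nat.add_comm, Nat.testBit_two_pow_mul_add _ (Tm_lt x m)]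
    split_ifs with h
    · rw [ih]
      constructor
      · rintro ⟨i, h1, h2⟩
        exact ⟨i, by omega, h2⟩
      · rintro ⟨i, h1, h2⟩
        exact ⟨i, by omega, h2⟩
    · constructor
      · intro h1
        cases hb : Nat.testBit x m with
        | false => rw [hb] at h1; simp at h1
        | true =>
          rw [hb] at h1
          rw [Bool.toNat_true, testBit_one', decide_eq_true_eq] at h1
          exact ⟨m, by omega, by omega, hb⟩
      · rintro ⟨i, h1, h2, h3⟩
        have h4 : i = m := by omega
        subst h4
        rw [h3, Bool.toNat_true, testBit_one', decide_eq_true_eq]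
        omega

theorem Tm_mod (x : ℕ) : ∀ m, Tm x m ≡ (msk x m).card [MOD 8589934591] := by
  intro m
  induction m with
  | zero => rw [msk_zero]; rfl
  | succ m ih =>
    have h1 : 2 ^ (33 * m) ≡ 1 [MOD 8589934591] := by
      rw [pow_mul]
      have h2 : (2 : ℕ) ^ 33 ≡ 1 [MOD 8589934591] := by decide
      simpa using h2.pow m
    rw [Tm]
    cases hb : Nat.testBit x m with
    | false =>
      rw [msk_succ_neg (by rw [hb]; exact Bool.noConfusion)]
      simpa using ih
    | true =>
      rw [msk_succ_pos hb, card_insert_of_notMem (by rw [mem_msk]; omega)]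
      rw [Bool.toNat_true, Nat.mul_one]
      exact ih.add h1

theorem pp_eq {x : ℕ} (hx : x < 2 ^ 32) : pp x = (msk x 32).card := by
  have h1 : pp x = ((x * Mm 32) &&& Km 32) % 8589934591 := by
    have h2 : Mm 32 = 41855804977958881238216860293671333616475814839523861211015363775367857790754367812411590743534994955327154331653972084008334635948471552329445020986934924815945052132199177846429263578652254701150892687317891618273230805205109921907778604060552511649183701335864607145965996450848344889395800702977 := by
      decide +kernel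
    have h3 : Km 32 = 89884656753579746629736815597155012919053819629231300169974335991435450977486621650048908736992967772721990730446448769367134891609248586294102283987248318133409806745129229874119254163662133418774586415890932689074208702293128176862083988238658039439619087220031745900668614540680756795837844127798509174785 := by
      decide +kernel
    rw [h2, h3]
    rfl
  have h4 : (x * Mm 32) &&& Km 32 = Tm x 32 := by
    apply Nat.eq_of_testBit_eq
    intro j
    rw [Bool.eq_iff_iff, Nat.testBit_and, Bool.and_eq_true, testBit_Km, testBit_Tm]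
    constructor
    · rintro ⟨h5, i, h6, rfl⟩
      have h7 : 33 * i = 32 * i + i := by ring
      rw [h7, testBit_Mm hx 32 i i h6] at h5
      rw [Bool.and_eq_true] at h5
      exact ⟨i, h6, rfl, h5.2⟩
    · rintro ⟨i, h6, rfl, h8⟩
      refine ⟨?_, i, h6, rfl⟩
      have h7 : 33 * i = 32 * i + i := by ring
      rw [h7, testBit_Mm hx 32 i i h6, h8]
      simp [h6]
  rw [h1, h4]
  have h9 : (msk x 32).card ≤ 32 := by
    have := card_filter_le (range 32) (fun i => Nat.testBit x i = true)
    rwa [card_range] at this
  have h10 : Tm x 32 % 8589934591 = (msk x 32).card % 8589934591 := Tm_mod x 32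
  rw [h10, Nat.mod_eq_of_lt (by omega)]

end Pool.Agent.TwoDens.T4
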