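import Pool.Agent.TK4.Snd
import Pool.Agent.TK4.Pop

/-!
# The fast checker

The same rules as `check`, written with the operations on natural numbers which the kernel
evaluates directly.
-/

open Finset

namespace Pool.Agent.TwoDens.T4

noncomputable section

/-- force a natural number -/
def fc {α : Type} (x : ℕ) (g : ℕ → α) : α :=
  Nat.rec (motive := fun _ => α) (g (nat_lit 0)) (fun m _ => g (Nat.succ m)) x

/-- if then else -/
def ite' {α : Type} (b : Bool) (x y : α) : α := Bool.rec (motive := fun _ => α) y x b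

/-- conjunction -/
def an (b c : Bool) : Bool := Bool.rec (motive := fun _ => Bool) false c b

/-- disjunction -/
def oo (b c : Bool) : Bool := Bool.rec (motive := fun _ => Bool) c true b

/-- maximum -/
def mx (a b : ℕ) : ℕ := Bool.rec (motive := fun _ => ℕ) a b (Nat.ble a b)

/-- row of a matrix -/
def rr (M i : ℕ) : ℕ :=
  Nat.mod (Nat.shiftRight M (Nat.mul (nat_lit 32) i)) (nat_lit 4294967296)

/-- bit -/
def tb (M j : ℕ) : Bool := Nat.beq (Nat.land (Nat.shiftRight M j) (nat_lit 1)) (nat_lit 1)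

/-- a power of two -/
def bi (i : ℕ) : ℕ := Nat.shiftLeft (nat_lit 1) i

/-- the two entries `(u, v)`, `(v, u)` -/
def sy' (u v : ℕ) : ℕ :=
  Nat.lor (bi (Nat.add (Nat.mul (nat_lit 32) u) v)) (bi (Nat.add (Nat.mul (nat_lit 32) v) u))

/-- all bits of `p` -/
def la (q : ℕ → Bool) (t : ℕ) : ℕ → Bool :=
  Nat.rec (motive := fun _ => ℕ → Bool) (fun p => Nat.beq p (nat_lit 0))
    (fun _ ih p => ite' (Nat.beq p (nat_lit 0)) true
      (fc (Nat.log2 p) fun i => an (q i) (fc (Nat.xor p (bi i)) ih))) t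

/-- sum over the bits of `p` -/
def ls (g : ℕ → ℕ) (t : ℕ) : ℕ → ℕ → ℕ :=
  Nat.rec (motive := fun _ => ℕ → ℕ → ℕ) (fun _ a => a)
    (fun _ ih p a => ite' (Nat.beq p (nat_lit 0)) a
      (fc (Nat.log2 p) fun i => fc (Nat.add a (g i)) fun a' => fc (Nat.xor p (bi i)) fun p' =>
        ih p' a')) t

/-- union over the bits of `p` -/
def lu (g : ℕ → ℕ) (t : ℕ) : ℕ → ℕ → ℕ :=
  Nat.rec (motive := fun _ => ℕ → ℕ → ℕ)
    (fun p a => ite' (Nat.beq p (nat_lit 0)) a (nat_lit 4294967295))
    (fun _ ih p a => ite' (Nat.beq p (nat_lit 0)) a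
      (fc (Nat.log2 p) fun i => fc (Nat.lor a (g i)) fun a' => fc (Nat.xor p (bi i)) fun p' =>
        ih p' a')) t

/-- union over the bits of `p`, partial (sound as a lower bound) -/
def lv (g : ℕ → ℕ) (t : ℕ) : ℕ → ℕ → ℕ :=
  Nat.rec (motive := fun _ => ℕ → ℕ → ℕ) (fun _ a => a)
    (fun _ ih p a => ite' (Nat.beq p (nat_lit 0)) a
      (fc (Nat.log2 p) fun i => fc (Nat.lor a (g i)) fun a' => fc (Nat.xor p (bi i)) fun p' =>
        ih p' a')) t

/-- lower bound of a degree -/
def lo' (k L i : ℕ) : ℕ :=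
  fc (Nat.land (rr L i)
    (Nat.sub (bi (Nat.sub (Nat.mul (nat_lit 2) k) (nat_lit 1))) (nat_lit 1))) fun x =>
    mx k (Nat.log2 x)

/-- upper bound of a degree -/
def hf (c r t : ℕ) : ℕ :=
  Nat.rec (motive := fun _ => ℕ) c
    (fun m ih => ite' (tb r (Nat.sub c (Nat.succ m))) (Nat.sub c (Nat.succ m)) ih) t

def hi' (k H i : ℕ) : ℕ :=
  fc (rr H i) fun r => ite' (Nat.beq r (nat_lit 0)) (Nat.sub (Nat.mul (nat_lit 2) k) (nat_lit 2))
    (hf (Nat.sub (Nat.mul (nat_lit 2) k) (nat_lit 2)) r (Nat.sub k (nat_lit 2)))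

/-! ### Lemmas -/

theorem fc_eq {α : Type} (x : ℕ) (g : ℕ → α) : fc x g = g x := by cases x <;> rfl

theorem ite'_true {α : Type} (x y : α) : ite' true x y = x := rfl
theorem ite'_false {α : Type} (x y : α) : ite' false x y = y := rfl

theorem an_eq (b c : Bool) : an b c = (b && c) := by cases b <;> rfl
theorem oo_eq (b c : Bool) : oo b c = (b || c) := by cases b <;> rfl

theorem mx_eq (a b : ℕ) : mx a b = max a b := by
  unfold mx
  cases h : Nat.ble a b with
  | false =>
    have h1 : ¬ a ≤ b := fun h' => by rw [Nat.ble_eq_true_of_le h'] at h; cases h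
    show a = max a b
    omega
  | true =>
    have h1 : a ≤ b := Nat.le_of_ble_eq_true h
    show b = max a b
    omega

theorem rr_eq (M i : ℕ) : rr M i = row M i := rfl

theorem tb_eq (M j : ℕ) : tb M j = Nat.testBit M j := by
  have h : tb M j = Nat.beq ((M >>> j) &&& 1) 1 := rfl
  rw [h, Nat.and_one_is_mod, Nat.testBit, Nat.and_comm, Nat.and_one_is_mod]
  rcases Nat.mod_two_eq_zero_or_one (M >>> j) with h1 | h1 <;> rw [h1] <;> rfl

theorem bi_eq (i : ℕ) : bi i = 2 ^ i := by
  show 1 <<< i = 2 ^ i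
  rw [Nat.one_shiftLeft]

theorem testBit_bi (i j : ℕ) : Nat.testBit (bi i) j = true ↔ i = j := by
  rw [bi_eq, Nat.testBit_two_pow, decide_eq_true_eq]

theorem sy'_eq (u v : ℕ) : sy' u v = sy u v := rfl

theorem beq_zero {p : ℕ} : Nat.beq p (nat_lit 0) = true ↔ p = 0 := by
  constructor
  · exact fun h => Nat.eq_of_beq_eq_true h
  · rintro rfl; rfl

theorem testBit_xor_bi {p i j : ℕ} (hi : Nat.testBit p i = true) :
    Nat.testBit (Nat.xor p (bi i)) j = true ↔ j ≠ i ∧ Nat.testBit p j = true := by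
  change Nat.testBit (p ^^^ (bi i)) j = true ↔ _
  rw [Nat.testBit_xor]
  by_cases h : i = j
  · subst h
    have h1 : Nat.testBit (bi i) i = true := (testBit_bi i i).2 rfl
    rw [hi, h1]; simp
  · have h1 : Nat.testBit (bi i) j = false := by
      rw [Bool.eq_false_iff]; exact fun h' => h ((testBit_bi i j).1 h')
    rw [h1, Bool.xor_false]
    constructor
    · exact fun h2 => ⟨fun h3 => h h3.symm, h2⟩
    · exact fun h2 => h2.2

theorem la_sound (q : ℕ → Bool) : ∀ t p, la q t p = true →
    ∀ i, Nat.testBit p i = true → q i = true := by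
  intro t
  induction t with
  | zero =>
    intro p h i hi
    have h1 : p = 0 := beq_zero.1 h
    rw [h1] at hi
    simp at hi
  | succ t ih =>
    intro p h i hi
    by_cases h0 : p = 0
    · rw [h0] at hi; simp at hi
    · have h1 : Nat.beq p (nat_lit 0) = false := by
        rw [Bool.eq_false_iff]; exact fun h' => h0 (beq_zero.1 h')
      have h2 : la q (t + 1) p = ite' (Nat.beq p (nat_lit 0)) true
        (fc (Nat.log2 p) fun i => an (q i) (fc (Nat.xor p (bi i)) (la q t))) := rfl
      rw [h2, h1, ite'_false, fc_eq, fc_eq, an_eq, Bool.and_eq_true] at h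
      have h3 := Nat.testBit_log2 h0
      by_cases h4 : i = Nat.log2 p
      · rw [h4]; exact h.1
      · exact ih _ h.2 i ((testBit_xor_bi h3).2 ⟨h4, hi⟩)

theorem ls_le (g : ℕ → ℕ) : ∀ t p a, p < 2 ^ 32 →
    ls g t p a ≤ a + ∑ i ∈ msk p 32, g i := by
  intro t
  induction t with
  | zero => intro p a _; exact Nat.le_add_right _ _
  | succ t ih =>
    intro p a hp
    have h2 : ls g (t + 1) p a = ite' (Nat.beq p (nat_lit 0)) a
      (fc (Nat.log2 p) fun i => fc (Nat.add a (g i)) fun a' => fc (Nat.xor p (bi i)) fun p' =>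
        ls g t p' a') := rfl
    rw [h2]
    by_cases h0 : p = 0
    · rw [h0]; exact Nat.le_add_right _ _
    · have h1 : Nat.beq p (nat_lit 0) = false := by
        rw [Bool.eq_false_iff]; exact fun h' => h0 (beq_zero.1 h')
      rw [h1, ite'_false, fc_eq, fc_eq, fc_eq]
      have h3 := Nat.testBit_log2 h0
      have h4 : Nat.log2 p < 32 := by
        by_contra hcon
        have := Nat.testBit_lt_two_pow (i := Nat.log2 p) (x := p)
          (lt_of_lt_of_le hp (Nat.pow_le_pow_right (by norm_num) (by omega)))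
        rw [this] at h3; cases h3
      have h5 : msk (Nat.xor p (bi (Nat.log2 p))) 32 = (msk p 32).erase (Nat.log2 p) := by
        ext j
        rw [mem_erase, mem_msk, mem_msk, testBit_xor_bi h3]
        tauto
      have h6 : Nat.xor p (bi (Nat.log2 p)) < 2 ^ 32 := by
        change p ^^^ bi (Nat.log2 p) < 2 ^ 32
        refine Nat.xor_lt_two_pow hp ?_
        rw [bi_eq]; exact Nat.pow_lt_pow_right (by norm_num) h4
      have h7 := ih (Nat.xor p (bi (Nat.log2 p))) (Nat.add a (g (Nat.log2 p))) h6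
      have h8 := Finset.add_sum_erase (msk p 32) g (mem_msk.2 ⟨h4, h3⟩)
      rw [h5] at h7
      change _ ≤ a + g (Nat.log2 p) + _ at h7
      omega

theorem lu_sound (g : ℕ → ℕ) : ∀ t p a j, j < 32 →
    (Nat.testBit a j = true ∨ ∃ i, Nat.testBit p i = true ∧ Nat.testBit (g i) j = true) →
    Nat.testBit (lu g t p a) j = true := by
  intro t
  induction t with
  | zero =>
    intro p a j hj h
    have h2 : lu g 0 p a = ite' (Nat.beq p (nat_lit 0)) a (nat_lit 4294967295) := rfl
    rw [h2]
    by_cases h0 : p = 0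
    · rw [h0] at h ⊢
      rcases h with h | ⟨i, h, _⟩
      · exact h
      · simp at h
    · have h1 : Nat.beq p (nat_lit 0) = false := by
        rw [Bool.eq_false_iff]; exact fun h' => h0 (beq_zero.1 h')
      rw [h1, ite'_false]
      have h3 : (4294967295 : ℕ) = 2 ^ 32 - 1 := by norm_num
      change Nat.testBit 4294967295 j = true
      rw [h3, Nat.testBit_two_pow_sub_one]
      simpa using hj
  | succ t ih =>
    intro p a j hj h
    have h2 : lu g (t + 1) p a = ite' (Nat.beq p (nat_lit 0)) a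
      (fc (Nat.log2 p) fun i => fc (Nat.lor a (g i)) fun a' => fc (Nat.xor p (bi i)) fun p' =>
        lu g t p' a') := rfl
    rw [h2]
    by_cases h0 : p = 0
    · rw [h0] at h ⊢
      rcases h with h | ⟨i, h, _⟩
      · exact h
      · simp at h
    · have h1 : Nat.beq p (nat_lit 0) = false := by
        rw [Bool.eq_false_iff]; exact fun h' => h0 (beq_zero.1 h')
      rw [h1, ite'_false, fc_eq, fc_eq, fc_eq]
      have h3 := Nat.testBit_log2 h0
      apply ih _ _ j hj
      have h4 : Nat.testBit (Nat.lor a (g (Nat.log2 p))) j =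
        (Nat.testBit a j || Nat.testBit (g (Nat.log2 p)) j) := Nat.testBit_or _ _ _
      rw [h4, Bool.or_eq_true]
      rcases h with h | ⟨i, h5, h6⟩
      · exact Or.inl (Or.inl h)
      · by_cases h7 : i = Nat.log2 p
        · exact Or.inl (Or.inr (h7 ▸ h6))
        · exact Or.inr ⟨i, (testBit_xor_bi h3).2 ⟨h7, h5⟩, h6⟩

theorem lv_sound (g : ℕ → ℕ) : ∀ t p a j,
    Nat.testBit (lv g t p a) j = true →
    (Nat.testBit a j = true ∨ ∃ i, Nat.testBit p i = true ∧ Nat.testBit (g i) j = true) := by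
  intro t
  induction t with
  | zero => intro p a j h; exact Or.inl h
  | succ t ih =>
    intro p a j h
    have h2 : lv g (t + 1) p a = ite' (Nat.beq p (nat_lit 0)) a
      (fc (Nat.log2 p) fun i => fc (Nat.lor a (g i)) fun a' => fc (Nat.xor p (bi i)) fun p' =>
        lv g t p' a') := rfl
    rw [h2] at h
    by_cases h0 : p = 0
    · rw [h0] at h
      exact Or.inl h
    · have h1 : Nat.beq p (nat_lit 0) = false := by
        rw [Bool.eq_false_iff]; exact fun h' => h0 (beq_zero.1 h')
      rw [h1, ite'_false, fc_eq, fc_eq, fc_eq] at h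
      have h3 := Nat.testBit_log2 h0
      rcases ih _ _ j h with h5 | ⟨i, h5, h6⟩
      · have h4 : Nat.testBit (Nat.lor a (g (Nat.log2 p))) j =
          (Nat.testBit a j || Nat.testBit (g (Nat.log2 p)) j) := Nat.testBit_or _ _ _
        rw [h4, Bool.or_eq_true] at h5
        rcases h5 with h5 | h5
        · exact Or.inl h5
        · exact Or.inr ⟨_, h3, h5⟩
      · exact Or.inr ⟨i, ((testBit_xor_bi h3).1 h5).2, h6⟩

theorem lo'_le (k L i : ℕ) : lo' k L i ≤ loA k L i (k - 2) := by
  unfold lo'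
  rw [fc_eq, mx_eq]
  have h1 := (loA_iff (k := k) (L := L) (i := i) (c := loA k L i (k - 2)) (k - 2)).1 le_rfl
  refine max_le h1.1 ?_
  set x := Nat.land (rr L i)
    (Nat.sub (bi (Nat.sub (Nat.mul (nat_lit 2) k) (nat_lit 1))) (nat_lit 1)) with hx
  by_cases h0 : x = 0
  · rw [h0]
    have : Nat.log2 0 = 0 := by decide
    rw [this]; exact Nat.zero_le _
  · have h2 := Nat.testBit_log2 h0
    have h3 : x = (row L i) &&& (2 ^ (2 * k - 1) - 1) := by
      rw [hx, bi_eq]; rfl
    have h4 : Nat.testBit x (Nat.log2 x) = (Nat.testBit (row L i) (Nat.log2 x) &&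
        Nat.testBit (2 ^ (2 * k - 1) - 1) (Nat.log2 x)) := by
      conv_lhs => rw [h3]
      rw [Nat.testBit_and]
      rw [← h3]
    rw [h4, Bool.and_eq_true, Nat.testBit_two_pow_sub_one, decide_eq_true_eq, testBit_row,
      Bool.and_eq_true] at h2
    by_cases h5 : Nat.log2 x ≤ k
    · exact h5.trans h1.1
    · exact h1.2 _ (by omega) (by omega) h2.1.2

theorem hf_eq {k H i : ℕ} (hk : 4 ≤ k) (hk' : k ≤ 16) : ∀ t, t + 1 ≤ 2 * k - 2 →
    hf (2 * k - 2) (row H i) t = hiA k H i t := by
  intro t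
  induction t with
  | zero => intro _; rfl
  | succ t ih =>
    intro ht
    have h1 : hf (2 * k - 2) (row H i) (t + 1) = ite' (tb (row H i) (2 * k - 2 - (t + 1)))
      (2 * k - 2 - (t + 1)) (hf (2 * k - 2) (row H i) t) := rfl
    rw [h1, hiA, tb_eq, testBit_row, ih (by omega)]
    have h2 : 2 * k - 2 - (t + 1) < 32 := by omega
    simp only [h2, decide_true, Bool.true_and]
    cases bt H i (2 * k - 2 - (t + 1)) <;> rfl

theorem hi'_eq {k : ℕ} (H i : ℕ) (hk : 4 ≤ k) (hk' : k ≤ 16) : hi' k H i = hiA k H i (k - 2) := by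
  unfold hi'
  rw [fc_eq]
  by_cases h : rr H i = 0
  · rw [h]
    change 2 * k - 2 = _
    have h2 := (hiA_iff (k := k) (H := H) (i := i) (c := 2 * k - 2) (k - 2) (by omega)).2
      ⟨le_rfl, fun d h3 h4 h5 => by
        have h6 : Nat.testBit (row H i) d = true := by
          rw [testBit_row, h5]
          have : d < 32 := by omega
          simp [this]
        rw [← rr_eq, h] at h6
        simp at h6⟩
    have h3 := (hiA_iff (k := k) (H := H) (i := i) (c := hiA k H i (k - 2)) (k - 2)
      (by omega)).1 le_rfl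
    omega
  · have h1 : Nat.beq (rr H i) (nat_lit 0) = false := by
      rw [Bool.eq_false_iff]; exact fun h' => h (beq_zero.1 h')
    rw [h1, ite'_false]
    exact hf_eq hk hk' (k - 2) (by omega)

end

end Pool.Agent.TwoDens.T4
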