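import Pool.Agent.TwoDens.DDE
import Pool.Agent.TK4.Bits

/-!
# Soundness of the checker
-/

open Finset

namespace Pool.Agent.TwoDens.T4

open Pool.Agent.TwoDens Pool.Agent.TwoDens.RK Pool.Agent.TwoDens.DD

variable {V : Type*} [DecidableEq V]

/-- the local hypotheses on the graph induced on `X` (true for a minimal counterexample) -/
structure LH (G : SimpleGraph V) [DecidableRel G.Adj] (k w2 : ℕ) (X : Finset V) : Prop where
  k4 : 4 ≤ k
  k16 : k ≤ 16
  sp : ∀ F ⊆ X, 3 ≤ F.card → e2 G F + (2 * k + 1) ≤ (k + 1) * F.card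
  lo : ∀ v ∈ X, k ≤ (nb G X v).card
  hi : ∀ v ∈ X, (nb G X v).card ≤ 2 * k - 2
  ind : ∀ S J : Finset V, S ⊆ X → J ⊆ S → J.Nonempty → G.IsIndepSet (J : Set V) →
    (∀ z ∈ J, nb G X z ⊆ S) →
    2 * (∑ v ∈ S, (nb G X v).card) + (3 * k * k + 2 - 3 * k) * J.card + 2 ≤
      (4 * k - 2) * S.card + e2 G S
  two : ∀ S J : Finset V, S ⊆ X → J ⊆ S → J.card = 2 → G.IsIndepSet (J : Set V) →
    (∀ z ∈ J, nb G X z ⊆ S) → w2 ≤ S.card

/-- `f` realizes the state `s` -/
structure Sat (G : SimpleGraph V) [DecidableRel G.Adj] (k : ℕ) (X : Finset V) (f : ℕ → V)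
    (s : St) : Prop where
  n32 : s.n ≤ 32
  mem : ∀ i, Nat.testBit s.D i = true → i < s.n ∧ f i ∈ X
  inj : ∀ i j, Nat.testBit s.D i = true → Nat.testBit s.D j = true → f i = f j → i = j
  adj : ∀ i j, Nat.testBit s.D i = true → Nat.testBit s.D j = true → bt s.A i j = true →
    G.Adj (f i) (f j)
  non : ∀ i j, Nat.testBit s.D i = true → Nat.testBit s.D j = true → bt s.B i j = true →
    ¬ G.Adj (f i) (f j)
  lo : ∀ i, Nat.testBit s.D i = true → s.lo k i ≤ (nb G X (f i)).card
  hi : ∀ i, Nat.testBit s.D i = true → (nb G X (f i)).card ≤ s.hi k i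

/-- the state `s` cannot be realized -/
def Dead (G : SimpleGraph V) [DecidableRel G.Adj] (k : ℕ) (X : Finset V) (s : St) : Prop :=
  ∀ f : ℕ → V, ¬ Sat G k X f s

section
variable {G : SimpleGraph V} [DecidableRel G.Adj] {k : ℕ} {X : Finset V} {f : ℕ → V} {s : St}

theorem Sat.lt32 (S : Sat G k X f s) {i : ℕ} (h : Nat.testBit s.D i = true) : i < 32 :=
  lt_of_lt_of_le (S.mem i h).1 S.n32

theorem Sat.sub (S : Sat G k X f s) {P : Finset ℕ}
    (hp : ∀ i ∈ P, Nat.testBit s.D i = true) : P.image f ⊆ X := by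
  intro z hz
  obtain ⟨i, hi, rfl⟩ := mem_image.1 hz
  exact (S.mem i (hp i hi)).2

theorem Sat.injOn (S : Sat G k X f s) {P : Finset ℕ}
    (hp : ∀ i ∈ P, Nat.testBit s.D i = true) : Set.InjOn f (P : Set ℕ) := by
  intro i hi j hj h
  exact S.inj i j (hp i hi) (hp j hj) h

theorem Sat.card (S : Sat G k X f s) {P : Finset ℕ}
    (hp : ∀ i ∈ P, Nat.testBit s.D i = true) : (P.image f).card = P.card :=
  card_image_of_injOn (S.injOn hp)

theorem Sat.mem_image (S : Sat G k X f s) {P : Finset ℕ}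
    (hp : ∀ i ∈ P, Nat.testBit s.D i = true) {j : ℕ} (hj : Nat.testBit s.D j = true)
    (h : f j ∈ P.image f) : j ∈ P := by
  obtain ⟨i, hi, h1⟩ := Finset.mem_image.1 h
  rwa [← S.inj i j (hp i hi) hj h1]

theorem nbr_alive {i j : ℕ} (h : Nat.testBit (s.nbr i) j = true) : Nat.testBit s.D j = true :=
  (testBit_nbr.1 h).2.2

theorem nbrs_alive {i : ℕ} : ∀ j ∈ msk (s.nbr i) s.n, Nat.testBit s.D j = true :=
  fun _ hj => nbr_alive (mem_msk.1 hj).2

theorem Sat.nbr_adj (S : Sat G k X f s) {i j : ℕ} (hi : Nat.testBit s.D i = true)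
    (h : Nat.testBit (s.nbr i) j = true) : G.Adj (f i) (f j) := by
  obtain ⟨_, h1, h2⟩ := testBit_nbr.1 h
  exact S.adj i j hi h2 h1

theorem Sat.nbr_sub (S : Sat G k X f s) {i : ℕ} (hi : Nat.testBit s.D i = true) :
    (msk (s.nbr i) s.n).image f ⊆ nb G X (f i) := by
  intro z hz
  obtain ⟨j, hj, rfl⟩ := Finset.mem_image.1 hz
  have h1 := (mem_msk.1 hj).2
  exact mem_nb.2 ⟨(S.mem j (nbr_alive h1)).2, S.nbr_adj hi h1⟩

theorem Sat.dg_le (S : Sat G k X f s) {i : ℕ} (hi : Nat.testBit s.D i = true) :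
    s.dg i ≤ (nb G X (f i)).card := by
  rw [dg_eq, ← S.card nbrs_alive]
  exact card_le_card (S.nbr_sub hi)

theorem Sat.closed (S : Sat G k X f s) {i : ℕ} (hi : Nat.testBit s.D i = true)
    (hc : s.cl k i = true) : (msk (s.nbr i) s.n).image f = nb G X (f i) := by
  refine eq_of_subset_of_card_le (S.nbr_sub hi) ?_
  have h1 : s.dg i = s.hi k i := Nat.eq_of_beq_eq_true hc
  rw [S.card nbrs_alive, ← dg_eq, h1]
  exact S.hi i hi

theorem Sat.closed_adj (S : Sat G k X f s) {i j : ℕ} (hi : Nat.testBit s.D i = true)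
    (hc : s.cl k i = true) (hj : Nat.testBit s.D j = true) (h : G.Adj (f i) (f j)) :
    Nat.testBit (s.nbr i) j = true := by
  have h1 : f j ∈ (msk (s.nbr i) s.n).image f := by
    rw [S.closed hi hc]
    exact mem_nb.2 ⟨(S.mem j hj).2, h⟩
  exact (mem_msk.1 (S.mem_image nbrs_alive hj h1)).2

theorem msk_and_sub {p q n : ℕ} : msk (p &&& q) n = (msk p n).filter (fun j => Nat.testBit q j = true) := by
  ext j
  rw [mem_filter, mem_msk, mem_msk, Nat.testBit_and, Bool.and_eq_true]
  tauto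

theorem mem_msk_and {p q n j : ℕ} : j ∈ msk (p &&& q) n ↔ j ∈ msk p n ∧ j ∈ msk q n := by
  rw [mem_msk, mem_msk, mem_msk, Nat.testBit_and, Bool.and_eq_true]
  tauto

/-- the number of edges inside an image -/
theorem Sat.e2 (S : Sat G k X f s) {P : Finset ℕ}
    (hp : ∀ i ∈ P, Nat.testBit s.D i = true) :
    e2 G (P.image f) = ∑ i ∈ P, (nb G (P.image f) (f i)).card := by
  unfold Pool.Agent.TwoDens.e2
  rw [sum_image (S.injOn hp)]
  rfl

theorem chF_sound {w2 : ℕ} (h : LH G k w2 X) (S : Sat G k X f s) {F : ℕ}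
    (hc : chF k s F = true) : False := by
  unfold chF at hc
  rw [Bool.and_eq_true, al_iff, fn_eq, Bool.and_eq_true] at hc
  obtain ⟨h1, h2, h3⟩ := hc
  have h2' := Nat.le_of_ble_eq_true h2
  have h3' := Nat.le_of_ble_eq_true h3
  rw [pc_eq] at h2' h3'
  rw [sm_eq] at h3'
  have hsp := h.sp ((msk F s.n).image f) (S.sub h1) (by rw [S.card h1]; exact h2')
  rw [S.card h1, S.e2 h1] at hsp
  have h4 : ∑ i ∈ msk F s.n, pc (s.nbr i &&& F) s.n ≤
      ∑ i ∈ msk F s.n, (nb G ((msk F s.n).image f) (f i)).card := by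
    refine sum_le_sum fun i hi => ?_
    have h5 : ∀ j ∈ msk (s.nbr i &&& F) s.n, Nat.testBit s.D j = true := fun j hj =>
      nbrs_alive j (mem_msk_and.1 hj).1
    rw [pc_eq, ← S.card h5]
    refine card_le_card fun z hz => ?_
    obtain ⟨j, hj, rfl⟩ := Finset.mem_image.1 hz
    obtain ⟨h6, h7⟩ := mem_msk_and.1 hj
    exact mem_nb.2 ⟨Finset.mem_image_of_mem f h7, S.nbr_adj (h1 i hi) (mem_msk.1 h6).2⟩
  omega

theorem Sat.tw_le (S : Sat G k X f s) {W w : ℕ}
    (hW : ∀ i ∈ msk W s.n, Nat.testBit s.D i = true) (hw : w ∈ msk W s.n) :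
    s.tw k W (msk W s.n).card w + (nb G ((msk W s.n).image f) (f w)).card ≤
      2 * (nb G X (f w)).card := by
  have hwD := hW w hw
  have hsub : nb G ((msk W s.n).image f) (f w) ⊆ nb G X (f w) := by
    intro z hz
    rw [mem_nb] at hz ⊢
    exact ⟨S.sub hW hz.1, hz.2⟩
  have hle := card_le_card hsub
  have hlo := S.lo w hwD
  have hdg := S.dg_le hwD
  unfold St.tw
  rw [fn_eq, fn_eq, fn_eq, fn_eq, pc_eq, pc_eq]
  have e1 : s.dg w = (msk (s.nbr w) s.n).card := dg_eq s w
  -- known neighbours outside `W`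
  have h1 : (msk (s.nbr w) s.n).card - (msk (s.nbr w &&& W) s.n).card +
      (nb G ((msk W s.n).image f) (f w)).card ≤ (nb G X (f w)).card := by
    have h2 : ((msk (s.nbr w) s.n).filter (fun j => ¬ Nat.testBit W j = true)).card =
        (msk (s.nbr w) s.n).card - (msk (s.nbr w &&& W) s.n).card := by
      have := card_filter_add_card_filter_not (s := msk (s.nbr w) s.n)
        (fun j => Nat.testBit W j = true)
      rw [msk_and_sub]
      omega
    have h3 : ∀ j ∈ (msk (s.nbr w) s.n).filter (fun j => ¬ Nat.testBit W j = true),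
        Nat.testBit s.D j = true := fun j hj => nbrs_alive j (mem_filter.1 hj).1
    rw [← h2, ← S.card h3, ← card_union_of_disjoint]
    · refine card_le_card (union_subset ?_ hsub)
      refine Subset.trans ?_ (S.nbr_sub hwD)
      exact image_subset_image (filter_subset _ _)
    · rw [Finset.disjoint_left]
      intro z hz hz2
      obtain ⟨j, hj, rfl⟩ := Finset.mem_image.1 hz
      have h4 := S.mem_image hW (h3 j hj) (mem_nb.1 hz2).1
      exact (mem_filter.1 hj).2 (mem_msk.1 h4).2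
  -- known non-neighbours inside `W`
  have h5 : (msk ((row s.B w ||| (1 <<< w)) &&& W) s.n).card +
      (nb G ((msk W s.n).image f) (f w)).card ≤ (msk W s.n).card := by
    have h6 : ∀ j ∈ msk ((row s.B w ||| (1 <<< w)) &&& W) s.n, Nat.testBit s.D j = true :=
      fun j hj => hW j (mem_msk_and.1 hj).2
    rw [← S.card h6, ← S.card hW, ← card_union_of_disjoint]
    · refine card_le_card (union_subset ?_ ?_)
      · exact image_subset_image fun j hj => (mem_msk_and.1 hj).2
      · exact fun z hz => (mem_nb.1 hz).1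
    · rw [Finset.disjoint_left]
      intro z hz hz2
      obtain ⟨j, hj, rfl⟩ := Finset.mem_image.1 hz
      have h7 := (mem_msk.1 (mem_msk_and.1 hj).1).2
      have h8 := (mem_nb.1 hz2).2
      rw [Nat.testBit_or, Bool.or_eq_true] at h7
      rcases h7 with h7 | h7
      · rw [testBit_row, Bool.and_eq_true] at h7
        exact S.non w j hwD (h6 j hj) h7.2 h8
      · rw [Nat.one_shiftLeft, Nat.testBit_two_pow, decide_eq_true_eq] at h7
        rw [h7] at h8
        exact G.loopless.irrefl _ h8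
  rw [← e1] at h1
  generalize s.dg w = d at *
  generalize (msk (s.nbr w &&& W) s.n).card = i at *
  generalize (msk ((row s.B w ||| (1 <<< w)) &&& W) s.n).card = b at *
  generalize s.lo k w = l at *
  generalize (nb G ((msk W s.n).image f) (f w)).card = x at *
  generalize (nb G X (f w)).card = y at *
  generalize (msk W s.n).card = c at *
  have hl : max l d ≤ y := max_le hlo hdg
  rcases le_total (max l d + (d - i)) (2 * max l d + b - c) with h9 | h9
  · rw [max_eq_right h9]; omega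
  · rw [max_eq_left h9]; omega

theorem chI_sound {w2 : ℕ} (h : LH G k w2 X) (S : Sat G k X f s) {I : ℕ}
    (hc : chI k w2 s I = true) : False := by
  unfold chI at hc
  rw [Bool.and_eq_true, al_iff, fn_eq] at hc
  obtain ⟨h1, h2⟩ := hc
  have hI : ∀ i ∈ msk I s.n, Nat.testBit s.D i = true ∧ s.cl k i = true ∧ s.nbr i &&& I = 0 := by
    intro i hi
    have := h1 i hi
    rw [Bool.and_eq_true, Bool.and_eq_true] at this
    exact ⟨this.1.1, this.1.2, Nat.eq_of_beq_eq_true this.2⟩
  set W := (ur s.A I s.n ||| I) &&& s.D with hWdef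
  have hW : ∀ i ∈ msk W s.n, Nat.testBit s.D i = true := by
    intro i hi
    rw [hWdef] at hi
    exact (mem_msk.1 (mem_msk_and.1 hi).2).2
  have hIW : msk I s.n ⊆ msk W s.n := by
    intro i hi
    have h3 := mem_msk.1 hi
    rw [mem_msk, hWdef, Nat.testBit_and, Nat.testBit_or, h3.2, (hI i hi).1]
    exact ⟨h3.1, by simp⟩
  rw [fn_eq, fn_eq, pc_eq, pc_eq, Bool.and_eq_true] at h2
  obtain ⟨h3, h4⟩ := h2
  have h3' := Nat.le_of_ble_eq_true h3
  have hD : ∀ i ∈ msk I s.n, Nat.testBit s.D i = true := fun i hi => (hI i hi).1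
  have hJS : (msk I s.n).image f ⊆ (msk W s.n).image f := image_subset_image hIW
  have hind : G.IsIndepSet (((msk I s.n).image f : Finset V) : Set V) := by
    intro x hx y hy _ hadj
    rw [Finset.mem_coe] at hx hy
    obtain ⟨i, hi, rfl⟩ := Finset.mem_image.1 hx
    obtain ⟨j, hj, rfl⟩ := Finset.mem_image.1 hy
    have h5 := S.closed_adj (hD i hi) (hI i hi).2.1 (hD j hj) hadj
    have h6 : Nat.testBit (s.nbr i &&& I) j = true := by
      rw [Nat.testBit_and, h5, (mem_msk.1 hj).2]; rfl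
    rw [(hI i hi).2.2] at h6
    simp at h6
  have hnb : ∀ z ∈ (msk I s.n).image f, nb G X z ⊆ (msk W s.n).image f := by
    intro z hz
    obtain ⟨i, hi, rfl⟩ := Finset.mem_image.1 hz
    rw [← S.closed (hD i hi) (hI i hi).2.1]
    refine image_subset_image fun j hj => ?_
    have h5 := (mem_msk.1 hj)
    have h6 := testBit_nbr.1 h5.2
    rw [mem_msk, hWdef, Nat.testBit_and, Nat.testBit_or, h6.2.2]
    refine ⟨h5.1, ?_⟩
    have h7 : Nat.testBit (ur s.A I s.n) j = true := by
      rw [testBit_ur]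
      refine ⟨i, hi, ?_⟩
      rw [testBit_row, h6.2.1]
      simp [h6.1]
    rw [h7]; rfl
  have hne : ((msk I s.n).image f).Nonempty := by
    rw [← card_pos, S.card hD]; omega
  have hind2 := h.ind _ _ (S.sub hW) hJS hne hind hnb
  have htwo := h.two _ _ (S.sub hW) hJS
  rw [S.card hD] at hind2 htwo
  rw [S.card hW] at hind2 htwo
  have hsum : ∑ v ∈ (msk W s.n).image f, (nb G X v).card =
      ∑ i ∈ msk W s.n, (nb G X (f i)).card := sum_image (S.injOn hW)
  rw [hsum] at hind2
  rw [Bool.or_eq_true, Bool.or_eq_true, Bool.and_eq_true, Bool.and_eq_true] at h4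
  rcases h4 with (⟨h5, h6⟩ | h5) | ⟨h5, h6⟩
  · have h5' := Nat.eq_of_beq_eq_true h5
    have h6' := Nat.le_of_ble_eq_true h6
    have := htwo h5' hind hnb
    omega
  · have h5' := Nat.le_of_ble_eq_true h5
    rw [sm_eq] at h5'
    have h7 : ∑ i ∈ msk W s.n, s.tw k W (msk W s.n).card i + e2 G ((msk W s.n).image f) ≤
        2 * ∑ i ∈ msk W s.n, (nb G X (f i)).card := by
      rw [S.e2 hW, ← sum_add_distrib, mul_sum]
      exact sum_le_sum fun i hi => S.tw_le hW hi
    omega
  · have h5' := Nat.le_of_ble_eq_true h5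
    have h6' := Nat.le_of_ble_eq_true h6
    rw [sm_eq] at h6'
    have h7 : ∑ i ∈ msk W s.n, 2 * max (s.lo k i) (s.dg i) ≤
        2 * ∑ i ∈ msk W s.n, (nb G X (f i)).card := by
      rw [mul_sum]
      refine sum_le_sum fun i hi => ?_
      have := max_le (S.lo i (hW i hi)) (S.dg_le (hW i hi))
      omega
    have h8 := h.sp _ (S.sub hW) (by rw [S.card hW]; exact h5')
    rw [S.card hW] at h8
    omega

theorem chP_sound {w2 : ℕ} (h : LH G k w2 X) (S : Sat G k X f s) {u w : ℕ}
    (hc : chP k w2 s u w = true) : False := by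
  unfold chP at hc
  rw [Bool.and_eq_true, Bool.and_eq_true, Bool.and_eq_true, Bool.and_eq_true,
    Bool.not_eq_true'] at hc
  obtain ⟨⟨⟨⟨h1, h2⟩, h3⟩, h4⟩, h5⟩ := hc
  have h1' : u ≠ w := Nat.ne_of_beq_eq_false h1
  have h5' := Nat.le_of_ble_eq_true h5
  rw [pc_eq] at h5'
  have hna := S.non u w h2 h3 h4
  have hne : f u ≠ f w := fun h' => h1' (S.inj u w h2 h3 h')
  have hXu := (S.mem u h2).2
  have hXw := (S.mem w h3).2
  have hA : insert (f u) (nb G X (f u)) ⊆ X :=
    insert_subset hXu fun z hz => (mem_nb.1 hz).1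
  have hB : insert (f w) (nb G X (f w)) ⊆ X :=
    insert_subset hXw fun z hz => (mem_nb.1 hz).1
  have h6 := h.two (insert (f u) (nb G X (f u)) ∪ insert (f w) (nb G X (f w))) {f u, f w}
    (union_subset hA hB) (by
      intro z hz
      rw [mem_insert, mem_singleton] at hz
      rcases hz with rfl | rfl
      · exact mem_union_left _ (mem_insert_self _ _)
      · exact mem_union_right _ (mem_insert_self _ _)) (card_pair hne) (by
      intro x hx y hy hxy hadj
      simp only [coe_insert, coe_singleton, Set.mem_insert_iff, Set.mem_singleton_iff] at hx hy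
      rcases hx with rfl | rfl <;> rcases hy with rfl | rfl
      · exact hxy rfl
      · exact hna hadj
      · exact hna hadj.symm
      · exact hxy rfl) (by
      intro z hz
      rw [mem_insert, mem_singleton] at hz
      rcases hz with rfl | rfl
      · exact fun t ht => mem_union_left _ (mem_insert_of_mem ht)
      · exact fun t ht => mem_union_right _ (mem_insert_of_mem ht))
  have h7 := card_union_add_card_inter (insert (f u) (nb G X (f u)))
    (insert (f w) (nb G X (f w)))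
  have h8 := card_insert_le (f u) (nb G X (f u))
  have h9 := card_insert_le (f w) (nb G X (f w))
  have h10 : ∀ j ∈ msk (s.nbr u &&& s.nbr w) s.n, Nat.testBit s.D j = true := fun j hj =>
    nbrs_alive j (mem_msk_and.1 hj).1
  have h11 : (msk (s.nbr u &&& s.nbr w) s.n).card ≤
      (insert (f u) (nb G X (f u)) ∩ insert (f w) (nb G X (f w))).card := by
    rw [← S.card h10]
    refine card_le_card fun z hz => ?_
    obtain ⟨j, hj, rfl⟩ := Finset.mem_image.1 hz
    obtain ⟨g1, g2⟩ := mem_msk_and.1 hj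
    rw [mem_inter]
    exact ⟨mem_insert_of_mem (S.nbr_sub h2 (Finset.mem_image_of_mem f g1)),
      mem_insert_of_mem (S.nbr_sub h3 (Finset.mem_image_of_mem f g2))⟩
  have h12 := S.hi u h2
  have h13 := S.hi w h3
  omega

theorem chH_sound (S : Sat G k X f s) {u : ℕ} (hc : chH k s u = true) : False := by
  unfold chH at hc
  rw [Bool.and_eq_true] at hc
  have h1 := Nat.le_of_ble_eq_true hc.2
  have h2 := max_le (S.lo u hc.1) (S.dg_le hc.1)
  have h3 := S.hi u hc.1
  omega

theorem chS_sound {t : St} {p : ℕ} (S : Sat G k X f s) (hc : chS k t s p = true) :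
    Sat G k X (fun i => f (im p i)) t := by
  unfold chS at hc
  rw [Bool.and_eq_true, Bool.and_eq_true, al_iff] at hc
  obtain ⟨⟨h1, h2⟩, h3⟩ := hc
  have h1' := Nat.le_of_ble_eq_true h1
  have h2' : t.D >>> t.n = 0 := Nat.eq_of_beq_eq_true h2
  have hlt : ∀ i, Nat.testBit t.D i = true → i < t.n := by
    intro i hi
    by_contra hcon
    have h4 : Nat.testBit (t.D >>> t.n) (i - t.n) = true := by
      rw [Nat.testBit_shiftRight]
      rwa [Nat.add_sub_cancel' (by omega)]
    rw [h2'] at h4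
    simp at h4
  have hk : ∀ i, Nat.testBit t.D i = true → Nat.testBit s.D (im p i) = true ∧
      t.lo k i ≤ max (s.lo k (im p i)) (s.dg (im p i)) ∧ s.hi k (im p i) ≤ t.hi k i ∧
      ∀ j, Nat.testBit t.D j = true → (i = j ∨ im p i ≠ im p j) ∧
        (bt t.A i j = true → bt s.A (im p i) (im p j) = true) ∧
        (bt t.B i j = true → bt s.B (im p i) (im p j) = true) := by
    intro i hi
    have h4 := h3 i (mem_msk.2 ⟨hlt i hi, hi⟩)
    rw [Bool.and_eq_true, Bool.and_eq_true, Bool.and_eq_true, al_iff] at h4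
    obtain ⟨⟨⟨h5, h6⟩, h7⟩, h8⟩ := h4
    refine ⟨h5, Nat.le_of_ble_eq_true h6, Nat.le_of_ble_eq_true h7, fun j hj => ?_⟩
    have h9 := h8 j (mem_msk.2 ⟨hlt j hj, hj⟩)
    rw [Bool.and_eq_true, Bool.and_eq_true, Bool.or_eq_true, Bool.or_eq_true, Bool.or_eq_true,
      Bool.not_eq_true', Bool.not_eq_true', Bool.not_eq_true'] at h9
    obtain ⟨⟨h10, h11⟩, h12⟩ := h9
    refine ⟨?_, ?_, ?_⟩
    · rcases h10 with h | h
      · exact Or.inl (Nat.eq_of_beq_eq_true h)
      · exact Or.inr (Nat.ne_of_beq_eq_false h)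
    · intro h; rcases h11 with h' | h'
      · rw [h] at h'; cases h'
      · exact h'
    · intro h; rcases h12 with h' | h'
      · rw [h] at h'; cases h'
      · exact h'
  refine ⟨h1', fun i hi => ⟨hlt i hi, (S.mem _ (hk i hi).1).2⟩, ?_, ?_, ?_, ?_, ?_⟩
  · intro i j hi hj h
    rcases ((hk i hi).2.2.2 j hj).1 with h' | h'
    · exact h'
    · exact (h' (S.inj _ _ (hk i hi).1 (hk j hj).1 h)).elim
  · intro i j hi hj h
    exact S.adj _ _ (hk i hi).1 (hk j hj).1 (((hk i hi).2.2.2 j hj).2.1 h)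
  · intro i j hi hj h
    exact S.non _ _ (hk i hi).1 (hk j hj).1 (((hk i hi).2.2.2 j hj).2.2 h)
  · intro i hi
    exact (hk i hi).2.1.trans (max_le (S.lo _ (hk i hi).1) (S.dg_le (hk i hi).1))
  · intro i hi
    exact (S.hi _ (hk i hi).1).trans (hk i hi).2.2.1

theorem Sat.ad_pos (S : Sat G k X f s) {u v : ℕ} (hu : Nat.testBit s.D u = true)
    (hv : Nat.testBit s.D v = true) (ha : G.Adj (f u) (f v)) :
    Sat G k X f { s with A := s.A ||| sy u v } := by
  refine ⟨S.n32, S.mem, S.inj, ?_, S.non, S.lo, S.hi⟩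
  intro i j hi hj h
  rw [bt_or, Bool.or_eq_true, bt_sy (S.lt32 hj) (S.lt32 hu) (S.lt32 hv)] at h
  rcases h with h | ⟨h1, h2⟩ | ⟨h1, h2⟩
  · exact S.adj i j hi hj h
  · rw [h1, h2]; exact ha
  · rw [h1, h2]; exact ha.symm

theorem Sat.ad_neg (S : Sat G k X f s) {u v : ℕ} (hu : Nat.testBit s.D u = true)
    (hv : Nat.testBit s.D v = true) (ha : ¬ G.Adj (f u) (f v)) :
    Sat G k X f { s with B := s.B ||| sy u v } := by
  refine ⟨S.n32, S.mem, S.inj, S.adj, ?_, S.lo, S.hi⟩
  intro i j hi hj h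
  rw [bt_or, Bool.or_eq_true, bt_sy (S.lt32 hj) (S.lt32 hu) (S.lt32 hv)] at h
  rcases h with h | ⟨h1, h2⟩ | ⟨h1, h2⟩
  · exact S.non i j hi hj h
  · rw [h1, h2]; exact ha
  · rw [h1, h2]; exact fun h' => ha h'.symm

theorem Sat.dg_pos (hk4 : 4 ≤ k) (hk16 : k ≤ 16) (S : Sat G k X f s) {v d : ℕ} (hd : d < 31)
    (ha : (nb G X (f v)).card ≤ d) :
    Sat G k X f { s with H := s.H ||| (1 <<< (32 * v + d)) } := by
  refine ⟨S.n32, S.mem, S.inj, S.adj, S.non, S.lo, ?_⟩
  intro i hi
  have h1 := S.hi i hi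
  unfold St.hi at h1 ⊢
  rw [hiA_iff _ (by omega)] at h1 ⊢
  refine ⟨h1.1, fun e h2 h3 h4 => ?_⟩
  rw [bt_or, Bool.or_eq_true, bt_one] at h4
  rcases h4 with h4 | h4
  · exact h1.2 e h2 h3 h4
  · obtain ⟨h5, h6⟩ : i = v ∧ e = d := by omega
    rw [h5, h6]; exact ha

theorem Sat.dg_neg (hk4 : 4 ≤ k) (hk16 : k ≤ 16) (S : Sat G k X f s) {v d : ℕ} (hd : d < 31)
    (ha : d < (nb G X (f v)).card) :
    Sat G k X f { s with L := s.L ||| (1 <<< (32 * v + (d + 1))) } := by
  refine ⟨S.n32, S.mem, S.inj, S.adj, S.non, ?_, S.hi⟩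
  intro i hi
  have h1 := S.lo i hi
  unfold St.lo at h1 ⊢
  rw [loA_iff _] at h1 ⊢
  refine ⟨h1.1, fun e h2 h3 h4 => ?_⟩
  rw [bt_or, Bool.or_eq_true, bt_one] at h4
  rcases h4 with h4 | h4
  · exact h1.2 e h2 h3 h4
  · obtain ⟨h5, h6⟩ : i = v ∧ e = d + 1 := by omega
    rw [h5, h6]; exact ha

theorem fr_sound (S : Sat G k X f s) {v : ℕ} (hv : Nat.testBit s.D v = true)
    (hc : s.cl k v = true) : ∀ m, Sat G k X f { s with B := check.fr s v m } := by
  intro m
  induction m with
  | zero => exact S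
  | succ m ih =>
    rw [check.fr]
    split_ifs with h
    · rw [Bool.and_eq_true, Bool.and_eq_true, Bool.not_eq_true', Bool.not_eq_true'] at h
      obtain ⟨⟨h1, h2⟩, h3⟩ := h
      refine ih.ad_neg (u := v) (v := m) hv h1 ?_
      intro hadj
      have h4 := testBit_nbr.1 (S.closed_adj hv hc h1 hadj)
      rw [h2] at h4
      exact Bool.noConfusion h4.2.1
    · exact ih

theorem Sat.drop (S : Sat G k X f s) (K : ℕ) : Sat G k X f { s with D := s.D &&& K } := by
  have h : ∀ i, Nat.testBit (s.D &&& K) i = true → Nat.testBit s.D i = true := by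
    intro i hi
    rw [Nat.testBit_and, Bool.and_eq_true] at hi
    exact hi.1
  exact ⟨S.n32, fun i hi => S.mem i (h i hi), fun i j hi hj => S.inj i j (h i hi) (h j hj),
    fun i j hi hj => S.adj i j (h i hi) (h j hj), fun i j hi hj => S.non i j (h i hi) (h j hj),
    fun i hi => S.lo i (h i hi), fun i hi => S.hi i (h i hi)⟩

theorem Sat.nw {w2 : ℕ} (h : LH G k w2 X) (S : Sat G k X f s) {v : ℕ}
    (hv : Nat.testBit s.D v = true) (hn : s.n < 32)
    (hdec : ∀ j ∈ msk s.D s.n, j = v ∨ bt s.A v j = true ∨ bt s.B v j = true)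
    (hlt : (msk (row s.A v &&& s.D) s.n).card < s.lo k v)
    (hlo : s.lo k s.n = k) (hhi : s.hi k s.n = 2 * k - 2)
    (hfree : ∀ j ∈ msk s.D s.n, bt s.A s.n j = false ∧ bt s.A j s.n = false ∧
      bt s.B s.n j = false ∧ bt s.B j s.n = false) (hnn : bt s.A s.n s.n = false) :
    ∃ g : ℕ → V, Sat G k X g
      { s with D := s.D ||| (1 <<< s.n), n := s.n + 1, A := s.A ||| sy v s.n } := by
  have hsub := S.nbr_sub hv
  have hc : ((msk (s.nbr v) s.n).image f).card < (nb G X (f v)).card := by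
    rw [S.card nbrs_alive]
    have := S.lo v hv
    unfold St.nbr
    omega
  obtain ⟨z, hz, hzn⟩ := exists_mem_notMem_of_card_lt_card hc
  obtain ⟨hzX, hzv⟩ := mem_nb.1 hz
  have hlt' : ∀ i, Nat.testBit s.D i = true → i < s.n := fun i hi => (S.mem i hi).1
  have hzne : ∀ j, Nat.testBit s.D j = true → f j ≠ z := by
    intro j hj hjz
    rcases hdec j (mem_msk.2 ⟨hlt' j hj, hj⟩) with h1 | h1 | h1
    · rw [← hjz, h1] at hzv
      exact G.loopless.irrefl _ hzv
    · apply hzn
      rw [← hjz]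
      refine Finset.mem_image_of_mem f (mem_msk.2 ⟨hlt' j hj, ?_⟩)
      exact testBit_nbr.2 ⟨S.lt32 hj, h1, hj⟩
    · rw [← hjz] at hzv
      exact S.non v j hv hj h1 hzv
  refine ⟨Function.update f s.n z, ?_⟩
  have hg : ∀ i, Nat.testBit s.D i = true → Function.update f s.n z i = f i := by
    intro i hi
    exact Function.update_of_ne (by have := hlt' i hi; omega) _ _
  have hgn : Function.update f s.n z s.n = z := Function.update_self _ _ _
  have hD : ∀ i, Nat.testBit (s.D ||| (1 <<< s.n)) i = true →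
      Nat.testBit s.D i = true ∨ i = s.n := by
    intro i hi
    rw [Nat.testBit_or, Bool.or_eq_true, Nat.one_shiftLeft, Nat.testBit_two_pow,
      decide_eq_true_eq] at hi
    rcases hi with hi | hi
    · exact Or.inl hi
    · exact Or.inr hi.symm
  refine ⟨?_, ?_, ?_, ?_, ?_, ?_, ?_⟩
  · show s.n + 1 ≤ 32
    omega
  · intro i hi
    show i < s.n + 1 ∧ _
    rcases hD i hi with h1 | h1
    · rw [hg i h1]
      exact ⟨by have := hlt' i h1; omega, (S.mem i h1).2⟩
    · rw [h1, hgn]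
      exact ⟨by omega, hzX⟩
  · intro i j hi hj hij
    rcases hD i hi with h1 | h1 <;> rcases hD j hj with h2 | h2
    · rw [hg i h1, hg j h2] at hij
      exact S.inj i j h1 h2 hij
    · rw [hg i h1, h2, hgn] at hij
      exact (hzne i h1 hij).elim
    · rw [hg j h2, h1, hgn] at hij
      exact (hzne j h2 hij.symm).elim
    · rw [h1, h2]
  · intro i j hi hj hb
    have hjn : j < 32 := by
      rcases hD j hj with h2 | h2
      · exact S.lt32 h2
      · omega
    change bt (s.A ||| sy v s.n) i j = true at hb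
    rw [bt_or, Bool.or_eq_true, bt_sy hjn (S.lt32 hv) hn] at hb
    rcases hb with hb | ⟨h3, h4⟩ | ⟨h3, h4⟩
    · rcases hD i hi with h1 | h1 <;> rcases hD j hj with h2 | h2
      · rw [hg i h1, hg j h2]
        exact S.adj i j h1 h2 hb
      · rw [h2, (hfree i (mem_msk.2 ⟨hlt' i h1, h1⟩)).2.1] at hb
        exact Bool.noConfusion hb
      · rw [h1, (hfree j (mem_msk.2 ⟨hlt' j h2, h2⟩)).1] at hb
        exact Bool.noConfusion hb
      · rw [h1, h2, hnn] at hb
        exact Bool.noConfusion hb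
    · rw [h3, h4, hgn, hg v hv]
      exact hzv
    · rw [h3, h4, hgn, hg v hv]
      exact hzv.symm
  · intro i j hi hj hb
    change bt s.B i j = true at hb
    rcases hD i hi with h1 | h1 <;> rcases hD j hj with h2 | h2
    · rw [hg i h1, hg j h2]
      exact S.non i j h1 h2 hb
    · rw [h2, (hfree i (mem_msk.2 ⟨hlt' i h1, h1⟩)).2.2.2] at hb
      exact Bool.noConfusion hb
    · rw [h1, (hfree j (mem_msk.2 ⟨hlt' j h2, h2⟩)).2.2.1] at hb
      exact Bool.noConfusion hb
    · rw [h1, h2, hgn]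
      exact G.loopless.irrefl z
  · intro i hi
    change s.lo k i ≤ _
    rcases hD i hi with h1 | h1
    · rw [hg i h1]; exact S.lo i h1
    · rw [h1, hgn, hlo]; exact h.lo z hzX
  · intro i hi
    change _ ≤ s.hi k i
    rcases hD i hi with h1 | h1
    · rw [hg i h1]; exact S.hi i h1
    · rw [h1, hgn, hhi]; exact h.hi z hzX

end

theorem check_sound {G : SimpleGraph V} [DecidableRel G.Adj] {k w2 : ℕ} {X : Finset V}
    (h : LH G k w2 X) (env : List St) (he : ∀ t ∈ env, Dead G k X t) :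
    ∀ (c : Cert) (s : St), check k w2 env c s = true → Dead G k X s := by
  intro c
  induction c with
  | kF F => exact fun s hc f S => chF_sound h S hc
  | kI I => exact fun s hc f S => chI_sound h S hc
  | kP u w => exact fun s hc f S => chP_sound h S hc
  | kH u => exact fun s hc f S => chH_sound S hc
  | sb j p =>
    intro s hc f S
    rw [check] at hc
    split at hc
    · exact Bool.noConfusion hc
    · rename_i t ht
      exact he t (List.mem_of_getElem? ht) _ (chS_sound S hc)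
  | ad u v c d ihc ihd =>
    intro s hc f S
    rw [check, Bool.and_eq_true, Bool.and_eq_true, Bool.and_eq_true, Bool.and_eq_true, fn_eq,
      fn_eq] at hc
    obtain ⟨⟨⟨⟨_, hu⟩, hv⟩, h1⟩, h2⟩ := hc
    by_cases ha : G.Adj (f u) (f v)
    · exact ihc _ h1 f (S.ad_pos hu hv ha)
    · exact ihd _ h2 f (S.ad_neg hu hv ha)
  | dg v d c e ihc ihe =>
    intro s hc f S
    rw [check, Bool.and_eq_true, Bool.and_eq_true, Bool.and_eq_true, fn_eq, fn_eq] at hc
    obtain ⟨⟨⟨hv, hd⟩, h1⟩, h2⟩ := hc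
    have hd' : d < 31 := Nat.le_of_ble_eq_true hd
    rcases le_or_gt (nb G X (f v)).card d with ha | ha
    · exact ihc _ h1 f (S.dg_pos h.k4 h.k16 hd' ha)
    · exact ihe _ h2 f (S.dg_neg h.k4 h.k16 hd' ha)
  | nw v K c ihc =>
    intro s hc f S
    rw [check, fn_eq, Bool.and_eq_true, Bool.and_eq_true, Bool.and_eq_true, Bool.and_eq_true,
      Bool.and_eq_true, Bool.and_eq_true, Bool.and_eq_true, Bool.and_eq_true, Bool.and_eq_true,
      al_iff, al_iff, fn_eq, fn_eq, fn_eq, pc_eq, Bool.not_eq_true'] at hc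
    obtain ⟨⟨⟨⟨⟨⟨⟨⟨⟨hv, hn⟩, _⟩, hdec⟩, hlt⟩, hlo⟩, hhi⟩, hfree⟩, hnn⟩, hrec⟩ := hc
    have hn' : s.n < 32 := Nat.le_of_ble_eq_true hn
    obtain ⟨g, hg⟩ := (S.drop K).nw h (v := v) hv hn' (by
        intro j hj
        have h1 := hdec j hj
        rw [Bool.or_eq_true, Bool.or_eq_true] at h1
        rcases h1 with (h1 | h1) | h1
        · exact Or.inl (Nat.eq_of_beq_eq_true h1)
        · exact Or.inr (Or.inl h1)
        · exact Or.inr (Or.inr h1)) (Nat.le_of_ble_eq_true hlt) (Nat.eq_of_beq_eq_true hlo)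
      (Nat.eq_of_beq_eq_true hhi) (by
        intro j hj
        have h1 := hfree j hj
        rw [Bool.and_eq_true, Bool.and_eq_true, Bool.and_eq_true, Bool.not_eq_true',
          Bool.not_eq_true', Bool.not_eq_true', Bool.not_eq_true'] at h1
        exact ⟨h1.1.1.1, h1.1.1.2, h1.1.2, h1.2⟩) hnn
    exact ihc _ hrec g hg
  | fl v c ihc =>
    intro s hc f S
    rw [check, Bool.and_eq_true, Bool.and_eq_true, fn_eq] at hc
    obtain ⟨⟨hv, hcl⟩, h1⟩ := hc
    exact ihc _ h1 f (fr_sound S hv hcl s.n)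

theorem checkAll_sound {G : SimpleGraph V} [DecidableRel G.Adj] {k w2 : ℕ} {X : Finset V}
    (h : LH G k w2 X) : ∀ (l : List (St × Cert)) (env : List St),
    (∀ t ∈ env, Dead G k X t) → checkAll k w2 env l = true →
    ∀ t ∈ env ++ l.map Prod.fst, Dead G k X t := by
  intro l
  induction l with
  | nil =>
    intro env he _ t ht
    rw [List.map_nil, List.append_nil] at ht
    exact he t ht
  | cons a l ih =>
    intro env he hc t ht
    obtain ⟨s, c⟩ := a
    rw [checkAll, Bool.and_eq_true] at hc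
    have h1 : ∀ t ∈ env ++ [s], Dead G k X t := by
      intro t ht
      rw [List.mem_append, List.mem_singleton] at ht
      rcases ht with ht | rfl
      · exact he t ht
      · exact check_sound h env he c _ hc.1
    refine ih (env ++ [s]) h1 hc.2 t ?_
    rw [List.append_assoc]
    exact ht

end Pool.Agent.TwoDens.T4
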