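import Pool.Agent.TKS.Deg
import Pool.Agent.TK4.Snd

/-!
# The local hypotheses hold in a minimal counterexample
-/

set_option autoImplicit false

open Finset

namespace Pool.Agent.TwoDens.T4

open Pool.Agent.TwoDens Pool.Agent.TwoDens.RK Pool.Agent.TwoDens.DD Pool.Agent.TwoDens.TS

variable {V : Type*} [DecidableEq V] {G : SimpleGraph V} [DecidableRel G.Adj] {X : Finset V}

/-- a cast of the constant `3 k ^ 2 - 3 k + 2` -/
theorem kap_cast (k : ℕ) (hk : 4 ≤ k) :
    ((3 * k * k + 2 - 3 * k : ℕ) : ℤ) = 3 * (k : ℤ) ^ 2 - 3 * k + 2 := by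
  have h1 : 3 * k ≤ 3 * k * k + 2 := by nlinarith
  rw [Nat.cast_sub h1]
  push_cast
  ring

/-- the basic inequality in natural numbers -/
theorem ind_of_mc {k : ℕ} (H : MC G k X) {S J : Finset V} (hS : S ⊆ X) (hJ : J ⊆ S)
    (hJn : J.Nonempty) (hi : G.IsIndepSet (J : Set V)) (hcl : ∀ z ∈ J, nb G X z ⊆ S) :
    2 * (∑ v ∈ S, (nb G X v).card) + (3 * k * k + 2 - 3 * k) * J.card + 2 ≤
      (4 * k - 2) * S.card + e2 G S := by
  have h1 := H.star hS hJ hJn hi hcl
  have hk := H.hk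
  have h2 : ((4 * k - 2 : ℕ) : ℤ) = 4 * (k : ℤ) - 2 := by
    rw [Nat.cast_sub (by omega)]
    push_cast
    ring
  zify
  rw [kap_cast k hk, h2]
  exact_mod_cast h1

/-- no vertex has a large degree -/
theorem deg_le_of_mc {k : ℕ} (H : MC G k X) {v : V} (hv : v ∈ X) :
    (nb G X v).card ≤ 2 * k - 2 := by
  have hk := H.hk
  have h1 := H.gen (Y := X) (S := {v}) (Finset.Subset.refl X) (by simpa using hv)
    (Or.inr ⟨v, by simp⟩) (j := 0) (by simpa using al_sdiff_le (G := G) X {v})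
  have h2 := H.ps_le
  have h3 : e2 G ({v} : Finset V) = 0 := e2_singleton v
  rw [Finset.sum_singleton, Finset.card_singleton, h3] at h1
  push_cast at h1
  have h4 : (2 : ℤ) * ((nb G X v).card : ℤ) ≤ 4 * k - 4 := by linarith
  omega

/-- sets with two independent closed neighbourhoods are large -/
theorem two_of_mc {k : ℕ} (H : MC G k X) {S J : Finset V} (hS : S ⊆ X) (hJ : J ⊆ S)
    (hJ2 : J.card = 2) (hi : G.IsIndepSet (J : Set V)) (hcl : ∀ z ∈ J, nb G X z ⊆ S) :
    2 * k ≤ S.card := by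
  have hk := H.hk
  have hJn : J.Nonempty := by
    rw [← Finset.card_pos]
    omega
  have h1 := H.star hS hJ hJn hi hcl
  have h2 := sum_deg' (G := G) hS
  have h3 := sum_ge (G := G) (Y := X) (S := S) k (fun v hv => H.deg_ge v (hS hv))
  rw [hJ2] at h1
  have h4 : (e2 G S : ℤ) ≤ ((∑ v ∈ S, (nb G X v).card : ℕ) : ℤ) := by
    exact_mod_cast (by omega : e2 G S ≤ ∑ v ∈ S, (nb G X v).card)
  have h5 : ((k * S.card : ℕ) : ℤ) ≤ ((∑ v ∈ S, (nb G X v).card : ℕ) : ℤ) := by
    exact_mod_cast (by omega : k * S.card ≤ ∑ v ∈ S, (nb G X v).card)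
  by_contra hlt
  push Not at hlt
  have h6 : (S.card : ℤ) ≤ 2 * k - 1 := by
    have : (S.card : ℤ) < 2 * k := by exact_mod_cast hlt
    linarith
  push_cast at h1 h5 h4
  have h7 : (4 : ℤ) ≤ k := by exact_mod_cast hk
  nlinarith [mul_le_mul_of_nonneg_left h6 (by linarith : (0 : ℤ) ≤ 3 * k - 2)]

theorem lh_of_mc_gen {k : ℕ} (hk : k ≤ 16) (H : MC G k X) : LH G k (2 * k) X where
  k4 := H.hk
  k16 := hk
  sp := by
    intro F hF h3
    have := H.hS F hF h3
    omega
  lo := H.deg_ge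
  hi := fun v hv => deg_le_of_mc H hv
  ind := fun S J hS hJ hJn hi hcl => ind_of_mc H hS hJ hJn hi hcl
  two := fun S J hS hJ h2 hi hcl => two_of_mc H hS hJ h2 hi hcl

/-- `k = 4`: such sets have at least nine elements -/
theorem nine_of_mc (H : MC G 4 X) {S J : Finset V} (hS : S ⊆ X) (hJ : J ⊆ S)
    (hJ2 : J.card = 2) (hi : G.IsIndepSet (J : Set V)) (hcl : ∀ z ∈ J, nb G X z ⊆ S) :
    9 ≤ S.card := by
  have h8 := two_of_mc H hS hJ hJ2 hi hcl
  by_contra hlt
  push Not at hlt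
  have hc : S.card = 8 := by omega
  have hJn : J.Nonempty := by
    rw [← Finset.card_pos]
    omega
  have h1 := ind_of_mc H hS hJ hJn hi hcl
  have h2 := sum_deg' (G := G) hS
  have h3 := sum_ge (G := G) (Y := X) (S := S) 4 (fun v hv => H.deg_ge v (hS hv))
  have h4 := H.hS S hS (by omega)
  obtain ⟨h, hh⟩ := e2_even (G := G) S
  rw [hJ2, hc] at h1
  rw [hc] at h3 h4
  have h5 := H.card_ge
  have hne : S ≠ X := by
    intro h
    rw [← h] at h5
    omega
  have h6 := H.hmin S hS hne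
  have he : e2 G S = 30 := by omega
  have hb : bd G X S = 2 := by omega
  unfold ps at h6
  rw [he, hc] at h6
  push_cast at h6
  have h7 : 3 ≤ TS.al G S := by
    have : (3 : ℤ) ≤ (TS.al G S : ℤ) := by
      rcases le_or_gt (3 : ℤ) (TS.al G S : ℤ) with h | h
      · exact h
      · have h9 : (TS.al G S : ℤ) ≤ 2 := by linarith
        linarith
    exact_mod_cast this
  obtain ⟨I, hI, hIi, hIc⟩ := exists_al (G := G) S
  obtain ⟨K, hKI, hKc⟩ := Finset.exists_subset_card_eq (s := I) (n := 3) (by omega)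
  have h10 := H.big (δ := 4) (B := S) (J := K) (fun v hv => H.deg_ge v hv) (le_refl 4) hS
    (hKI.trans hI) (by rw [← Finset.card_pos]; omega) (indep_mono hIi hKI)
  have h11 : ∑ z ∈ K, (nb G X z \ S).card ≤ bd G X S :=
    Finset.sum_le_sum_of_subset (hKI.trans hI)
  rw [hKc, hc] at h10
  have h12 : ((∑ z ∈ K, (nb G X z \ S).card : ℕ) : ℤ) ≤ 2 := by
    exact_mod_cast (by omega : ∑ z ∈ K, (nb G X z \ S).card ≤ 2)
  push_cast at h10 h12
  linarith

theorem lh_of_mc (H : MC G 4 X) : LH G 4 9 X where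
  k4 := H.hk
  k16 := by omega
  sp := by
    intro F hF h3
    have := H.hS F hF h3
    omega
  lo := H.deg_ge
  hi := fun v hv => deg_le_of_mc H hv
  ind := fun S J hS hJ hJn hi hcl => ind_of_mc H hS hJ hJn hi hcl
  two := fun S J hS hJ h2 hi hcl => nine_of_mc H hS hJ h2 hi hcl

/-- `k = 5`: such sets have at least eleven elements -/
theorem eleven_of_mc (H : MC G 5 X) {S J : Finset V} (hS : S ⊆ X) (hJ : J ⊆ S)
    (hJ2 : J.card = 2) (hi : G.IsIndepSet (J : Set V)) (hcl : ∀ z ∈ J, nb G X z ⊆ S) :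
    11 ≤ S.card := by
  have h8 := two_of_mc H hS hJ hJ2 hi hcl
  by_contra hlt
  push Not at hlt
  have hc : S.card = 10 := by omega
  have hJn : J.Nonempty := by
    rw [← Finset.card_pos]
    omega
  have h1 := ind_of_mc H hS hJ hJn hi hcl
  have h2 := sum_deg' (G := G) hS
  have h3 := sum_ge (G := G) (Y := X) (S := S) 5 (fun v hv => H.deg_ge v (hS hv))
  have h4 := H.hS S hS (by omega)
  obtain ⟨h, hh⟩ := e2_even (G := G) S
  rw [hJ2, hc] at h1
  rw [hc] at h3 h4
  have h5 := H.card_ge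
  have hne : S ≠ X := by
    intro h
    rw [← h] at h5
    omega
  have h6 := H.hmin S hS hne
  have he : e2 G S ≤ 48 := by omega
  have he' : (e2 G S : ℤ) ≤ 48 := by exact_mod_cast he
  have hb : bd G X S ≤ 4 := by omega
  unfold ps at h6
  rw [hc] at h6
  push_cast at h6
  have h7 : 3 ≤ TS.al G S := by
    have : (3 : ℤ) ≤ (TS.al G S : ℤ) := by
      rcases le_or_gt (3 : ℤ) (TS.al G S : ℤ) with h | h
      · exact h
      · have h9 : (TS.al G S : ℤ) ≤ 2 := by linarith
        linarith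
    exact_mod_cast this
  obtain ⟨I, hI, hIi, hIc⟩ := exists_al (G := G) S
  obtain ⟨K, hKI, hKc⟩ := Finset.exists_subset_card_eq (s := I) (n := 3) (by omega)
  have h10 := H.big (δ := 5) (B := S) (J := K) (fun v hv => H.deg_ge v hv) (le_refl 5) hS
    (hKI.trans hI) (by rw [← Finset.card_pos]; omega) (indep_mono hIi hKI)
  have h11 : ∑ z ∈ K, (nb G X z \ S).card ≤ bd G X S :=
    Finset.sum_le_sum_of_subset (hKI.trans hI)
  rw [hKc, hc] at h10
  have h12 : ((∑ z ∈ K, (nb G X z \ S).card : ℕ) : ℤ) ≤ 4 := by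
    exact_mod_cast (by omega : ∑ z ∈ K, (nb G X z \ S).card ≤ 4)
  push_cast at h10 h12
  linarith

theorem lh_of_mc5 (H : MC G 5 X) : LH G 5 11 X where
  k4 := H.hk
  k16 := by omega
  sp := by
    intro F hF h3
    have := H.hS F hF h3
    omega
  lo := H.deg_ge
  hi := fun v hv => deg_le_of_mc H hv
  ind := fun S J hS hJ hJn hi hcl => ind_of_mc H hS hJ hJn hi hcl
  two := fun S J hS hJ h2 hi hcl => eleven_of_mc H hS hJ h2 hi hcl

/-- the root state: one vertex of degree `k` -/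
def root (k : ℕ) : St := ⟨1, 1, 0, 0, 0, 1 <<< k⟩

omit [DecidableEq V] in
/-- the root state is realized by a vertex of degree `k` -/
theorem sat_root {k : ℕ} (hk : 4 ≤ k) (hk2 : k ≤ 16) {v : V} (hv : v ∈ X)
    (hd : (nb G X v).card = k) : Sat G k X (fun _ => v) (root k) := by
  have h0 : ∀ i, Nat.testBit (root k).D i = true → i = 0 := by
    intro i hi
    change Nat.testBit 1 i = true at hi
    exact Nat.testBit_one_eq_true_iff_self_eq_zero.1 hi
  refine ⟨by simp [root], ?_, ?_, ?_, ?_, ?_, ?_⟩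
  · intro i hi
    rw [h0 i hi]
    exact ⟨by simp [root], hv⟩
  · intro i j hi hj _
    rw [h0 i hi, h0 j hj]
  · intro i j _ _ h
    simp [bt, root] at h
  · intro i j _ _ h
    simp [bt, root] at h
  · intro i hi
    rw [h0 i hi, hd]
    interval_cases k <;> decide
  · intro i hi
    rw [h0 i hi, hd]
    interval_cases k <;> decide

/-- if the root state is dead, there is no minimal counterexample -/
theorem no_mc_of_dead {k : ℕ} (hk2 : k ≤ 16) (hd : ∀ X : Finset V, MC G k X → Dead G k X (root k))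
    (X : Finset V) : ¬ MC G k X := by
  intro H
  obtain ⟨v, hv, hvd⟩ := H.exists_deg
  exact hd X H (fun _ => v) (sat_root H.hk hk2 hv hvd)

end Pool.Agent.TwoDens.T4
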